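import Pool.Agent.H35.EX.Chord
import Pool.Agent.H32.BT.Defs

/-!
# THEOREM NC: definitions on the sphere

`Wk f x n δ k`: the component of `f^(-(n-k))` of the chordal disc of radius `δ` at `f^n x` which contains `f^k x`. `CT`: the critical times. `PR`: `c` is persistently recurrent.
`CnS`: `x` is conical (the definition of `ConAt` in H64/NC/CNA, unfolds to the same).
-/

set_option autoImplicit false

namespace Pool.Agent.H3.NC

open Pool.Agent.H35.EX (chord)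
open Pool.Agent.H32.BT (IsCrit)

def Wk (f : OnePoint ℂ → OnePoint ℂ) (x : OnePoint ℂ) (n : ℕ) (δ : ℝ) (k : ℕ) : Set (OnePoint ℂ) :=
  connectedComponentIn {z | chord (f^[n - k] z) (f^[n] x) < δ} (f^[k] x)

def CT (f : OnePoint ℂ → OnePoint ℂ) (x : OnePoint ℂ) (n : ℕ) (δ : ℝ) : Set ℕ :=
  {k | k < n ∧ ∃ c, IsCrit f c ∧ c ∈ Wk f x n δ k}

def PR (f : OnePoint ℂ → OnePoint ℂ) (c : OnePoint ℂ) : Prop :=
  ∀ δ : ℝ, 0 < δ → ∀ D : ℕ, {n | (CT f (f c) n δ).ncard ≤ D}.Finite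

/-- `f^n` maps the component of `x` bijectively onto the disc -/
def Uni (f : OnePoint ℂ → OnePoint ℂ) (x : OnePoint ℂ) (n : ℕ) (δ : ℝ) : Prop :=
  Set.InjOn f^[n] (Wk f x n δ 0) ∧ {z | chord (f^[n] x) z < δ} ⊆ f^[n] '' Wk f x n δ 0

def CnS (f : OnePoint ℂ → OnePoint ℂ) (x : OnePoint ℂ) : Prop :=
  ∃ δ : ℝ, 0 < δ ∧ ∀ N : ℕ, ∃ n : ℕ, N ≤ n ∧ ∃ W : Set (OnePoint ℂ), IsOpen W ∧ x ∈ W ∧
    Set.InjOn f^[n] W ∧ {z | chord (f^[n] x) z < δ} ⊆ f^[n] '' W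

end Pool.Agent.H3.NC
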