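import Pool.Agent.H3.NC.Sph
import Pool.Agent.H44.RC.CCO
import Pool.Agent.H64.NC.CHU

/-!
# Module PRC: persistent recurrence from the absence of conical critical values

PROOF. `δ' ≤ δ` gives `Wk f x n δ' k ⊆ Wk f x n δ k` (`connectedComponentIn_mono`) and `CT .. δ' ⊆ CT .. δ` (finite sets, contained in `range n`), so `ncard` is monotone. Suppose that the claim fails. Let `D` be minimal (`Nat.find`) such that there are a critical `c ∈ J` and `δ > 0` with infinitely many `n` with `(CT f (f c) n δ).ncard ≤ D`.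
By monotonicity `δ ≤ 1 / 8` and `δ < δF`, where `δF > 0` and `N0` are such that `δF ≤ chord (f^[m] c') y` for all critical `c' ∉ J`, `y ∈ J`, `m ≥ N0` (`hfat`, finitely many critical points). `v = f c`, `v_n = f^[n] v ∈ J`, `NN` the infinite set of these `n`.
`D = 0`: `CT = ∅` for `n ∈ NN`, so `huni` gives `Uni f v n δ`: `CnS f v` with `W = Wk f v n δ 0` (open: component of an open set of the sphere, `IsOpen.connectedComponentIn`), against `hnc`. `D > 0`: by minimality only finitely many `n` have `ncard (CT f v n (δ / 2)) ≤ D - 1`; for the other `n ∈ NN`: `CT (δ / 2) ⊆ CT δ`, `D ≤ ncard CT (δ / 2)`, `ncard CT δ ≤ D`, so they are equal, not empty. `j = j(n)` the maximum, `c' = c'(n)` critical, `c' ∈ Wk f v n (δ / 2) j`.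
(A) `n - j(n)` bounded on an infinite subset: then `l = n - j ≥ 1` is constant on an infinite subset. `δ'' = min η δ`, `η` from `ch_uc` for `l`. For `k < j`: `Wk f v j δ'' k ⊆ Wk f v n δ k`: if `chord (f^[j - k] z) (f^[j] v) < δ''` then `chord (f^[n - k] z) (f^[n] v) < δ` (`n - k = l + (j - k)`). So `CT f v j δ'' ⊆ CT f v n δ \ {j}` has at most `D - 1` elements, for infinitely many `j`: against minimality.
(B) otherwise there are `n ∈ NN` with `n - j(n)` arbitrarily large, and a critical `c'` with `c'(n) = c'` for such `n` with `n - j(n)` arbitrarily large (pigeon hole, `hfin`). `v' = f c'`, `m = n - j - 1`, `x' = f^[j + 1] v`, `f^[m] x' = v_n`. `Wk f x' m δ k = Wk f v n δ (j + 1 + k)` (by definition, `f^[k] (f^[j+1] v) = f^[j + 1 + k] v`, `m - k = n - (j + 1 + k)`), so it contains no critical point for `k < m` (`j` is the maximum of `CT f v n δ`).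
`huni` for `x', m, δ`: `Uni f x' m δ`. `v' ∈ Wk f v n (δ / 2) (j + 1)` (`f` maps `Wk .. j` into `Wk .. (j + 1)`: image of a connected set) `⊆ Wk f v n δ (j + 1) = Wk f x' m δ 0`, and `chord (f^[m] v') v_n < δ / 2`, so the disc of radius `δ / 2` at `f^[m] v'` is in the disc of radius `δ` at `v_n` (triangle inequality for `chord`):
`W = Wk f x' m δ 0` is open, contains `v'`, `f^[m]` is injective on it and its image contains the disc. As `m` is arbitrarily large, `CnS f v'` with `δ / 2`. So `c' ∉ J` (`hnc`), but `chord (f^[m + 1] c') v_n < δ / 2 < δF` with `v_n ∈ J` and `m + 1 ≥ N0`: contradiction.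
-/

set_option autoImplicit false

open Filter Topology Set

namespace Pool.Agent.H3.NC

open Pool.Agent.H35.EX (chord chord_comm)
open Pool.Agent.H32.BT (IsCrit)
open Pool.Agent.H44.RR (chord_zero)
open Pool.Agent.H44.RC (CC cc_open cc_mem cc_sub cc_map ch_ball ch_tri)

variable {f : OnePoint ℂ → OnePoint ℂ}

private theorem prc_cc (x : OnePoint ℂ) (n : ℕ) (δ : ℝ) (k : ℕ) :
    Wk f x n δ k = CC f (n - k) {z | chord z (f^[n] x) < δ} (f^[k] x) := rfl

private theorem prc_op (x : OnePoint ℂ) (n : ℕ) (δ : ℝ) : IsOpen {z | chord z (f^[n] x) < δ} := by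
  have h1 : {z | chord z (f^[n] x) < δ} = {z | chord (f^[n] x) z < δ} := by
    ext z
    rw [mem_ofPred_eq, mem_ofPred_eq, chord_comm]
  rw [h1]
  exact ch_ball _ _

private theorem prc_mono (x : OnePoint ℂ) (n : ℕ) {δ δ' : ℝ} (h : δ' ≤ δ) (k : ℕ) :
    Wk f x n δ' k ⊆ Wk f x n δ k :=
  connectedComponentIn_mono _ fun _ hz => lt_of_lt_of_le hz h

private theorem prc_ct (x : OnePoint ℂ) (n : ℕ) {δ δ' : ℝ} (h : δ' ≤ δ) : CT f x n δ' ⊆ CT f x n δ := by
  rintro k ⟨h1, c, h2, h3⟩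
  exact ⟨h1, c, h2, prc_mono x n h k h3⟩

private theorem prc_fin (x : OnePoint ℂ) (n : ℕ) (δ : ℝ) : (CT f x n δ).Finite :=
  (finite_lt_nat n).subset fun _ hk => hk.1

/-- shifting the end of the chain -/
private theorem prc_shift {l j k : ℕ} (hk : k ≤ j) {δ η : ℝ}
    (h : ∀ x y, chord x y < η → chord (f^[l] x) (f^[l] y) < δ) (x : OnePoint ℂ) :
    Wk f x j η k ⊆ Wk f x (j + l) δ k := by
  refine connectedComponentIn_mono _ fun z hz => ?_
  have h1 : chord (f^[j - k] z) (f^[j] x) < η := hz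
  have h2 : j + l - k = l + (j - k) := by omega
  have h3 : j + l = l + j := add_comm _ _
  show chord (f^[j + l - k] z) (f^[j + l] x) < δ
  rw [h2, h3, Function.iterate_add_apply, Function.iterate_add_apply]
  exact h _ _ h1

/-- the tail of the chain -/
private theorem prc_tail (x : OnePoint ℂ) {n i : ℕ} (hi : i ≤ n) (δ : ℝ) (k : ℕ) :
    Wk f (f^[i] x) (n - i) δ k = Wk f x n δ (i + k) := by
  unfold Wk
  have h1 : n - i - k = n - (i + k) := by omega
  have h2 : f^[n - i] (f^[i] x) = f^[n] x := by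
    rw [← Function.iterate_add_apply, Nat.sub_add_cancel hi]
  have h3 : f^[k] (f^[i] x) = f^[i + k] x := by
    rw [← Function.iterate_add_apply, add_comm]
  rw [h1, h2, h3]

theorem prc (hf : Continuous f) (hfin : {c | IsCrit f c}.Finite) {J : Set (OnePoint ℂ)}
    (hJi : ∀ x ∈ J, f x ∈ J)
    (huni : ∀ (x : OnePoint ℂ) (n : ℕ) (δ : ℝ), 0 < δ → δ ≤ 1 / 8 → (∀ k < n, ∀ c ∈ Wk f x n δ k, ¬ IsCrit f c) →
      Uni f x n δ)
    (hfat : ∀ c, IsCrit f c → c ∉ J → ∃ (δ : ℝ) (N : ℕ), 0 < δ ∧ ∀ m, N ≤ m → ∀ y ∈ J, δ ≤ chord (f^[m] c) y)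
    (hnc : ∀ c, IsCrit f c → c ∈ J → ¬ CnS f (f c)) : ∀ c, IsCrit f c → c ∈ J → PR f c := by
  have hJn : ∀ x ∈ J, ∀ n : ℕ, f^[n] x ∈ J := by
    intro x hx n
    induction n with
    | zero => exact hx
    | succ n ih => rw [Function.iterate_succ_apply']; exact hJi _ ih
  -- attracted critical points
  obtain ⟨δF, hδF, N0, hN0⟩ : ∃ δF : ℝ, 0 < δF ∧ ∃ N0 : ℕ, ∀ m, N0 ≤ m → ∀ c, IsCrit f c → c ∉ J → ∀ y ∈ J,
      δF ≤ chord (f^[m] c) y := by
    have h1 : ∀ᶠ δ in 𝓝[>] (0 : ℝ), ∀ c ∈ {c | IsCrit f c}, c ∉ J → ∀ᶠ m : ℕ in atTop, ∀ y ∈ J,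
        δ ≤ chord (f^[m] c) y := by
      rw [Filter.eventually_all_finite hfin]
      intro c hc
      by_cases hcJ : c ∈ J
      · exact Filter.Eventually.of_forall fun δ h => absurd hcJ h
      · obtain ⟨δ, N, h2, h3⟩ := hfat c hc hcJ
        have h4 : ∀ᶠ δ' in 𝓝[>] (0 : ℝ), δ' < δ := nhdsWithin_le_nhds (Iio_mem_nhds h2)
        filter_upwards [h4] with δ' h5 _
        filter_upwards [eventually_ge_atTop N] with m hm y hy
        exact h5.le.trans (h3 m hm y hy)
    obtain ⟨δF, h2, h3⟩ := (h1.and self_mem_nhdsWithin).exists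
    have h4 : ∀ᶠ m : ℕ in atTop, ∀ c ∈ {c | IsCrit f c}, c ∉ J → ∀ y ∈ J, δF ≤ chord (f^[m] c) y := by
      rw [Filter.eventually_all_finite hfin]
      intro c hc
      by_cases hcJ : c ∈ J
      · exact Filter.Eventually.of_forall fun m h => absurd hcJ h
      · filter_upwards [h2 c hc hcJ] with m hm _
        exact hm
    obtain ⟨N0, hN0⟩ := eventually_atTop.1 h4
    exact ⟨δF, h3, N0, fun m hm c hc hcJ y hy => hN0 m hm c hc hcJ y hy⟩
  by_contra hcon
  -- bad numbers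
  obtain ⟨Bad, hBad⟩ : ∃ Bad : ℕ → Prop, ∀ D, Bad D ↔ ∃ (c : OnePoint ℂ) (δ : ℝ), IsCrit f c ∧ c ∈ J ∧ 0 < δ ∧
      δ ≤ 1 / 8 ∧ δ < δF ∧ {n | (CT f (f c) n δ).ncard ≤ D}.Infinite := ⟨_, fun _ => Iff.rfl⟩
  have hex : ∃ D, Bad D := by
    push Not at hcon
    obtain ⟨c, hc, hcJ, hPR⟩ := hcon
    unfold PR at hPR
    push Not at hPR
    obtain ⟨δ, hδ, D, hD⟩ := hPR
    refine ⟨D, (hBad D).2 ⟨c, min (δ / 1) (min (1 / 8) (δF / 2)), hc, hcJ, ?_, ?_, ?_, ?_⟩⟩
    · rw [div_one]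
      exact lt_min hδ (lt_min (by norm_num) (half_pos hδF))
    · exact (min_le_right _ _).trans (min_le_left _ _)
    · exact lt_of_le_of_lt ((min_le_right _ _).trans (min_le_right _ _)) (half_lt_self hδF)
    · refine Set.Infinite.mono ?_ hD
      intro n hn
      refine le_trans (Set.ncard_le_ncard (prc_ct _ n ?_) (prc_fin _ _ _)) hn
      rw [div_one]
      exact min_le_left _ _
  classical
  obtain ⟨D, hD, hmin⟩ : ∃ D, Bad D ∧ ∀ D' < D, ¬ Bad D' :=
    ⟨Nat.find hex, Nat.find_spec hex, fun D' h => Nat.find_min hex h⟩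
  obtain ⟨c, δ, hc, hcJ, hδ, hδ1, hδ2, hinf⟩ := (hBad D).1 hD
  rcases Nat.eq_zero_or_pos D with h0 | h0
  · subst h0
    refine hnc c hc hcJ ⟨δ, hδ, fun N => ?_⟩
    obtain ⟨n, hn, hNn⟩ := hinf.exists_gt N
    have h1 : CT f (f c) n δ = ∅ := by
      have h2 : (CT f (f c) n δ).ncard = 0 := Nat.le_zero.1 hn
      exact (Set.ncard_eq_zero (prc_fin _ _ _)).1 h2
    obtain ⟨h2, h3⟩ := huni (f c) n δ hδ hδ1 fun k hk c' hc' hcr => by
      have h4 : k ∈ CT f (f c) n δ := ⟨hk, c', hcr, hc'⟩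
      rw [h1] at h4
      exact h4
    refine ⟨n, hNn.le, Wk f (f c) n δ 0, ?_, ?_, h2, h3⟩
    · rw [prc_cc]
      exact cc_open hf _ (prc_op _ _ _) _
    · rw [prc_cc]
      refine cc_mem ?_
      show chord (f^[n] (f c)) (f^[n] (f c)) < δ
      rw [chord_zero]
      exact hδ
  obtain ⟨D', rfl⟩ : ∃ D', D = D' + 1 := ⟨D - 1, by omega⟩
  have hnb := hmin D' (Nat.lt_succ_self D')
  -- the same critical times for the half radius
  have hfinh : {n | (CT f (f c) n (δ / 2)).ncard ≤ D'}.Finite := by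
    by_contra hcon2
    exact hnb ((hBad D').2 ⟨c, δ / 2, hc, hcJ, half_pos hδ, by linarith, by linarith, hcon2⟩)
  obtain ⟨NN, hNNd⟩ : ∃ NN, NN = {n | (CT f (f c) n δ).ncard ≤ D' + 1} \ {n | (CT f (f c) n (δ / 2)).ncard ≤ D'} :=
    ⟨_, rfl⟩
  have hNN : NN.Infinite := by
    rw [hNNd]
    exact hinf.sdiff hfinh
  have hlast : ∀ n ∈ NN, ∃ j, j < n ∧ (∃ c', IsCrit f c' ∧ c' ∈ Wk f (f c) n (δ / 2) j) ∧
      (∀ k ∈ CT f (f c) n δ, k ≤ j) ∧ (CT f (f c) n δ).ncard ≤ D' + 1 := by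
    intro n hn
    rw [hNNd] at hn
    obtain ⟨hn1, hn2⟩ := hn
    have hn1' : (CT f (f c) n δ).ncard ≤ D' + 1 := hn1
    have hn2' : ¬ (CT f (f c) n (δ / 2)).ncard ≤ D' := hn2
    have hsub : CT f (f c) n (δ / 2) ⊆ CT f (f c) n δ := prc_ct _ _ (by linarith)
    have heq : CT f (f c) n (δ / 2) = CT f (f c) n δ :=
      Set.eq_of_subset_of_ncard_le hsub (by omega) (prc_fin _ _ _)
    have hne : (CT f (f c) n δ).Nonempty := by
      rw [← Set.ncard_pos (prc_fin _ _ _), ← heq]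
      omega
    obtain ⟨j, hj, hjm⟩ := Set.exists_max_image (CT f (f c) n δ) id (prc_fin _ _ _) hne
    have hj' := hj
    rw [← heq] at hj'
    obtain ⟨h1, c', h2, h3⟩ := hj'
    exact ⟨j, h1, ⟨c', h2, h3⟩, fun k hk => hjm k hk, hn1'⟩
  choose! j hj1 hj2 hj3 hj4 using hlast
  by_cases hA : ∃ l, {n | n ∈ NN ∧ n = j n + l}.Infinite
  · obtain ⟨l, hl⟩ := hA
    obtain ⟨η, hη, hηl⟩ := Pool.Agent.H64.NC.ch_uc hf l hδ
    refine hnb ((hBad D').2 ⟨c, min η δ, hc, hcJ, lt_min hη hδ, ?_, ?_, ?_⟩)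
    · exact (min_le_right _ _).trans hδ1
    · exact lt_of_le_of_lt (min_le_right _ _) hδ2
    · have himg : (j '' {n | n ∈ NN ∧ n = j n + l}).Infinite := by
        refine hl.image ?_
        rintro a ⟨-, ha⟩ b ⟨-, hb⟩ hab
        rw [ha, hb, hab]
      refine himg.mono ?_
      rintro _ ⟨n, ⟨hn, hnl⟩, rfl⟩
      show (CT f (f c) (j n) (min η δ)).ncard ≤ D'
      have hsub : CT f (f c) (j n) (min η δ) ⊆ CT f (f c) n δ \ {j n} := by
        rintro k ⟨h1, c1, h2, h3⟩
        have h4 : c1 ∈ Wk f (f c) (j n + l) δ k := prc_shift h1.le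
            (fun x y hxy => hηl x y (lt_of_lt_of_le hxy (min_le_left _ _)) l le_rfl) (f c) h3
        rw [← hnl] at h4
        have h5 := hj1 n hn
        refine ⟨⟨by omega, c1, h2, h4⟩, ?_⟩
        rw [mem_singleton_iff]
        omega
      have hjm : j n ∈ CT f (f c) n δ := by
        obtain ⟨c', h2, h3⟩ := hj2 n hn
        exact ⟨hj1 n hn, c', h2, prc_mono _ _ (by linarith) _ h3⟩
      have h6 := Set.ncard_le_ncard hsub ((prc_fin _ _ _).subset sdiff_subset)
      rw [Set.ncard_sdiff_singleton_of_mem hjm] at h6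
      have h7 := hj4 n hn
      omega
  · push Not at hA
    -- uniform bound for the conical times
    have hun : ∀ᶠ m : ℕ in atTop, ∀ c' ∈ {c | IsCrit f c}, c' ∈ J → ¬ ∃ W : Set (OnePoint ℂ), IsOpen W ∧ f c' ∈ W ∧
        Set.InjOn f^[m] W ∧ {z | chord (f^[m] (f c')) z < δ / 2} ⊆ f^[m] '' W := by
      rw [Filter.eventually_all_finite hfin]
      intro c' hc'
      by_cases hcJ' : c' ∈ J
      · have h1 := hnc c' hc' hcJ'
        unfold CnS at h1
        push Not at h1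
        obtain ⟨N, hN⟩ := h1 (δ / 2) (half_pos hδ)
        filter_upwards [eventually_ge_atTop N] with m hm _
        rintro ⟨W, h2, h3, h4, h5⟩
        exact hN m hm W h2 h3 h4 h5
      · exact Filter.Eventually.of_forall fun m h => absurd h hcJ'
    obtain ⟨N1, hN1⟩ := eventually_atTop.1 hun
    have hbig : ∃ n ∈ NN, max N0 N1 < n - (j n + 1) := by
      by_contra hcon3
      push Not at hcon3
      refine hNN (Set.Finite.subset (Set.Finite.biUnion (finite_le_nat (max N0 N1 + 1)) fun l _ => hA l) ?_)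
      intro n hn
      have h1 := hcon3 n hn
      have h2 := hj1 n hn
      rw [mem_iUnion₂]
      refine ⟨n - j n, ?_, hn, by omega⟩
      show n - j n ≤ max N0 N1 + 1
      omega
    obtain ⟨n, hn, hlarge⟩ := hbig
    obtain ⟨m, hm⟩ : ∃ m, m = n - (j n + 1) := ⟨_, rfl⟩
    rw [← hm] at hlarge
    have hjn := hj1 n hn
    obtain ⟨c', hc'1, hc'2⟩ := hj2 n hn
    have hv' : f c' ∈ Wk f (f c) n (δ / 2) (j n + 1) := by
      rw [prc_cc] at hc'2 ⊢
      have h1 := cc_map hf (i := 1) (by omega) hc'2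
      have h2 : n - j n - 1 = n - (j n + 1) := by omega
      rw [h2, ← Function.iterate_add_apply, add_comm 1 (j n)] at h1
      exact h1
    have hx' : Wk f (f^[j n + 1] (f c)) m δ 0 = Wk f (f c) n δ (j n + 1) := by
      rw [hm]
      exact prc_tail (f c) (by omega) δ 0
    have hfx : f^[m] (f^[j n + 1] (f c)) = f^[n] (f c) := by
      rw [← Function.iterate_add_apply, hm, Nat.sub_add_cancel (by omega)]
    obtain ⟨hU1, hU2⟩ := huni (f^[j n + 1] (f c)) m δ hδ hδ1 fun k hk c1 hc1 hcr => by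
      have h1 : c1 ∈ Wk f (f c) n δ (j n + 1 + k) := by
        rw [← prc_tail (f c) (by omega) δ k, ← hm]
        exact hc1
      have h2 := hj3 n hn (j n + 1 + k) ⟨by omega, c1, hcr, h1⟩
      omega
    have hch : chord (f^[m] (f c')) (f^[n] (f c)) < δ / 2 := by
      rw [prc_cc] at hv'
      have h1 := cc_sub hv'
      rw [← hm] at h1
      exact h1
    by_cases hcJ' : c' ∈ J
    · refine hN1 m (by omega) c' hc'1 hcJ' ⟨Wk f (f^[j n + 1] (f c)) m δ 0, ?_, ?_, hU1, ?_⟩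
      · rw [prc_cc]
        exact cc_open hf _ (prc_op _ _ _) _
      · rw [hx']
        exact prc_mono _ _ (by linarith) _ hv'
      · intro z hz
        refine hU2 ?_
        show chord (f^[m] (f^[j n + 1] (f c))) z < δ
        rw [hfx]
        have h1 : chord (f^[m] (f c')) z < δ / 2 := hz
        have h2 := ch_tri (f^[n] (f c)) (f^[m] (f c')) z
        rw [chord_comm (f^[n] (f c)) (f^[m] (f c'))] at h2
        linarith
    · have h1 := hN0 (m + 1) (by omega) c' hc'1 hcJ' (f^[n] (f c)) (hJn _ (hJi _ hcJ) n)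
      rw [Function.iterate_succ_apply] at h1
      linarith

end Pool.Agent.H3.NC
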