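import Pool.Agent.H3.NC.Sph
import Pool.Agent.H44.RC.CCO
import Pool.Agent.H32.BT.Fam
import Pool.Agent.H44.RC.CVS

/-!
# Module UNI: a component chain without critical points is univalent

PROOF. `f = rat P Q`, `B = {z | chord z (f^[n] x) < δ}`, `δ ≤ 1 / 8`: in a chart `io τ` (`H44/RC/IOC`) it is convex, so simply connected and locally path connected (`uni_ball`). `W = Wk f x n δ 0` is the component of `x` in `(f^[n])⁻¹' B`. `f^[n] : W → B` is a local homeomorphism: for `w ∈ W` and `k < n`, `f^[k] w ∈ Wk f x n δ k` (`cc_map`),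
so `f^[k] w` is not critical: `f` is injective near it, continuous and open. Closed map: `cc_cl`. Fibres are finite. So `f^[n] : W → B` is a covering (`IsClosedMap.isCoveringMapOn_of_isLocalHomeomorphOn`) and the identity of `B` lifts: a section `s : B → W` with `s (f^[n] x) = x`; `s ∘ f^[n]` and the identity of `W` are two lifts of `f^[n]` which agree at `x`.
-/

set_option autoImplicit false

open Filter Topology Polynomial Set

namespace Pool.Agent.H3.NC

open Pool.Agent.H44.Fatou (rat rat_continuous)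
open Pool.Agent.H44.RC (io CC cc_open cc_pre cc_mem cc_sub cc_map cc_cl io_emb io_ex io_near chord_io ch_ball)
open Pool.Agent.H35.EX (chord chord_comm)
open Pool.Agent.H32.BT (IsCrit rat_open)

/-- an injective iterate near a point -/
private theorem uni_iter {f : OnePoint ℂ → OnePoint ℂ} (hf : Continuous f) (n : ℕ) {w : OnePoint ℂ}
    (h : ∀ k < n, ∃ U ∈ 𝓝 (f^[k] w), InjOn f U) : ∃ U ∈ 𝓝 w, InjOn f^[n] U := by
  induction n with
  | zero => exact ⟨univ, univ_mem, fun a _ b _ hab => hab⟩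
  | succ n ih =>
    obtain ⟨U, hU, hUi⟩ := ih fun k hk => h k (by omega)
    obtain ⟨V, hV, hVi⟩ := h n (Nat.lt_succ_self n)
    refine ⟨U ∩ f^[n] ⁻¹' V, inter_mem hU ((hf.iterate n).continuousAt.preimage_mem_nhds hV), ?_⟩
    intro a ha b hb hab
    rw [Function.iterate_succ_apply', Function.iterate_succ_apply'] at hab
    exact hUi ha.1 hb.1 (hVi ha.2 hb.2 hab)

/-- proper local homeomorphisms onto simply connected sets -/
theorem uni_gen {f : OnePoint ℂ → OnePoint ℂ} (hf : Continuous f) (n : ℕ) (ho : IsOpenMap f^[n])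
    (hfin : ∀ y, (f^[n] ⁻¹' {y}).Finite) {x : OnePoint ℂ} {B : Set (OnePoint ℂ)} (hB : IsOpen B)
    (h1 : SimplyConnectedSpace B) (h2 : LocallyPathConnectedSpace B) (hx : f^[n] x ∈ B)
    (hloc : ∀ w ∈ CC f n B x, ∃ U ∈ 𝓝 w, InjOn f^[n] U) : BijOn f^[n] (CC f n B x) B := by
  have hW : IsOpen (CC f n B x) := cc_open hf n hB x
  have hFc : Continuous f^[n] := hf.iterate n
  obtain ⟨p, hp⟩ : ∃ p : CC f n B x → B, ∀ w, (p w : OnePoint ℂ) = f^[n] w :=
    ⟨fun w => ⟨f^[n] w, cc_sub w.2⟩, fun _ => rfl⟩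
  have hpc : Continuous p := by
    rw [Topology.IsInducing.subtypeVal.continuous_iff]
    have : (Subtype.val ∘ p : CC f n B x → OnePoint ℂ) = fun w : CC f n B x => f^[n] (w : OnePoint ℂ) := funext hp
    rw [this]
    exact hFc.comp continuous_subtype_val
  have hpo : IsOpenMap p := by
    intro U hU
    rw [isOpen_induced_iff] at hU ⊢
    obtain ⟨V, hV, rfl⟩ := hU
    refine ⟨f^[n] '' (V ∩ CC f n B x), ho _ (hV.inter hW), ?_⟩
    ext b
    constructor
    · rintro ⟨w, ⟨hw1, hw2⟩, hw3⟩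
      exact ⟨⟨w, hw2⟩, hw1, Subtype.ext (by rw [hp]; exact hw3)⟩
    · rintro ⟨w, hw, rfl⟩
      exact ⟨w, ⟨hw, w.2⟩, (hp w).symm⟩
  have hlh : IsLocalHomeomorph p := by
    rw [isLocalHomeomorph_iff_isOpenEmbedding_restrict]
    intro w
    obtain ⟨U, hU, hUi⟩ := hloc w w.2
    obtain ⟨V, hVU, hV, hwV⟩ := mem_nhds_iff.1 hU
    have hV' : IsOpen (Subtype.val ⁻¹' V : Set (CC f n B x)) := hV.preimage continuous_subtype_val
    refine ⟨Subtype.val ⁻¹' V, hV'.mem_nhds hwV, ?_⟩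
    refine Topology.IsOpenEmbedding.of_continuous_injective_isOpenMap ?_ ?_ ?_
    · exact hpc.comp continuous_subtype_val
    · intro a b hab
      have h3 : p a.1 = p b.1 := hab
      have h4 := congrArg (Subtype.val : B → OnePoint ℂ) h3
      rw [hp, hp] at h4
      exact Subtype.ext (Subtype.ext (hUi (hVU a.2) (hVU b.2) h4))
    · exact hpo.comp hV'.isOpenMap_subtype_val
  have hcl : IsClosedMap p := by
    intro C hC
    have hK : IsClosed (f^[n] '' closure (Subtype.val '' C : Set (OnePoint ℂ))) :=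
      (isClosed_closure.isCompact.image hFc).isClosed
    rw [isClosed_induced_iff]
    refine ⟨_, hK, ?_⟩
    ext b
    constructor
    · rintro ⟨w, hw, hwb⟩
      have h3 : closure (Subtype.val '' C : Set (OnePoint ℂ)) ⊆ closure (CC f n B x) := by
        refine closure_mono ?_
        rintro _ ⟨a, -, rfl⟩
        exact a.2
      have h4 : f^[n] w ∈ B := by rw [hwb]; exact b.2
      have h5 : w ∈ CC f n B x := cc_cl hf (h3 hw) h4
      have h6 : (⟨w, h5⟩ : CC f n B x) ∈ closure C := closure_subtype.2 hw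
      rw [hC.closure_eq] at h6
      exact ⟨⟨w, h5⟩, h6, Subtype.ext (by rw [hp]; exact hwb)⟩
    · rintro ⟨w, hw, rfl⟩
      exact ⟨w, subset_closure (mem_image_of_mem _ hw), (hp w).symm⟩
  have hff : ∀ b ∈ (univ : Set B), (p ⁻¹' {b}).Finite := by
    intro b _
    refine Finite.of_finite_image (f := Subtype.val) ((hfin b).subset ?_) Subtype.val_injective.injOn
    rintro _ ⟨a, ha, rfl⟩
    rw [mem_preimage, mem_singleton_iff, ← hp, mem_singleton_iff.1 (mem_preimage.1 ha)]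
  have hcov : IsCoveringMap p := by
    rw [isCoveringMap_iff_isCoveringMapOn_univ]
    refine IsClosedMap.isCoveringMapOn_of_isLocalHomeomorphOn hcl hff ?_
    rw [preimage_univ]
    exact isLocalHomeomorph_iff_isLocalHomeomorphOn_univ.1 hlh
  have hxW : x ∈ CC f n B x := cc_mem hx
  obtain ⟨s, ⟨hs0, hs1⟩, -⟩ := hcov.existsUnique_continuousMap_lifts (ContinuousMap.id B) ⟨f^[n] x, hx⟩
    (⟨x, hxW⟩ : CC f n B x) (Subtype.ext (hp _))
  have hps : ∀ b, p (s b) = b := fun b => congrFun hs1 b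
  have hsp : s ∘ p = id := by
    have hpre : PreconnectedSpace (CC f n B x) := Subtype.preconnectedSpace (cc_pre n B x)
    refine hcov.eq_of_comp_eq (s.continuous.comp hpc) continuous_id ?_ (⟨x, hxW⟩ : CC f n B x) ?_
    · funext w
      exact hps (p w)
    · have h3 : p ⟨x, hxW⟩ = ⟨f^[n] x, hx⟩ := Subtype.ext (hp _)
      show s (p ⟨x, hxW⟩) = _
      rw [h3, hs0]
      rfl
  refine ⟨fun w hw => cc_sub hw, ?_, ?_⟩
  · intro a ha b hb hab
    have h3 : p ⟨a, ha⟩ = p ⟨b, hb⟩ := Subtype.ext (by rw [hp, hp]; exact hab)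
    have h4 := congrArg s h3
    have h5 := congrFun hsp ⟨a, ha⟩
    have h6 := congrFun hsp ⟨b, hb⟩
    rw [Function.comp_apply, id] at h5 h6
    rw [h5, h6] at h4
    exact congrArg Subtype.val h4
  · intro b hb
    refine ⟨s ⟨b, hb⟩, (s ⟨b, hb⟩).2, ?_⟩
    rw [← hp, hps]

/-- small chordal discs -/
theorem uni_ball (a : OnePoint ℂ) {δ : ℝ} (hδ : 0 < δ) (hδ1 : δ ≤ 1 / 8) :
    SimplyConnectedSpace {z | chord z a < δ} ∧ LocallyPathConnectedSpace {z | chord z a < δ} := by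
  obtain ⟨τ, w, hw, rfl⟩ := io_ex a
  obtain ⟨C, hC⟩ : ∃ C : Set ℂ, C = {z | ‖z - w‖ ^ 2 < δ ^ 2 * (1 + ‖w‖ ^ 2) * (1 + ‖z‖ ^ 2)} := ⟨_, rfl⟩
  have hlt : ∀ z : ℂ, chord (io τ z) (io τ w) < δ ↔ z ∈ C := by
    intro z
    rw [hC, mem_ofPred_eq, chord_io]
    have h1 : 0 < √(1 + ‖z‖ ^ 2) := by positivity
    have h2 : 0 < √(1 + ‖w‖ ^ 2) := by positivity
    have h3 : √(1 + ‖z‖ ^ 2) ^ 2 = 1 + ‖z‖ ^ 2 := Real.sq_sqrt (by positivity)
    have h4 : √(1 + ‖w‖ ^ 2) ^ 2 = 1 + ‖w‖ ^ 2 := Real.sq_sqrt (by positivity)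
    rw [div_lt_iff₀ (mul_pos h1 h2)]
    have h5 : δ ^ 2 * (1 + ‖w‖ ^ 2) * (1 + ‖z‖ ^ 2) = (δ * (√(1 + ‖z‖ ^ 2) * √(1 + ‖w‖ ^ 2))) ^ 2 := by
      rw [mul_pow, mul_pow, h3, h4]
      ring
    rw [h5]
    constructor
    · intro h
      exact pow_lt_pow_left₀ h (norm_nonneg _) two_ne_zero
    · intro h
      exact lt_of_pow_lt_pow_left₀ 2 (by positivity) h
  have hκ : δ ^ 2 * (1 + ‖w‖ ^ 2) ≤ 1 / 32 := by
    have h1 : δ ^ 2 ≤ (1 / 8) ^ 2 := pow_le_pow_left₀ hδ.le hδ1 2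
    have h2 : ‖w‖ ^ 2 ≤ 1 := pow_le_one₀ (norm_nonneg w) hw
    nlinarith [sq_nonneg δ]
  have himg : {z | chord z (io τ w) < δ} = io τ '' C := by
    ext z
    constructor
    · intro hz
      have hz' : chord (io τ w) z < 1 / 8 := by
        rw [chord_comm]
        exact lt_of_lt_of_le hz hδ1
      obtain ⟨u, rfl, -⟩ := io_near (hw.trans (by norm_num)) hz'
      exact ⟨u, (hlt u).1 hz, rfl⟩
    · rintro ⟨u, hu, rfl⟩
      exact (hlt u).2 hu
  have hconv : Convex ℝ C := by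
    intro u hu v hv a b ha hb hab
    rw [hC, mem_ofPred_eq] at hu hv ⊢
    obtain ⟨κ, hκd⟩ : ∃ κ, κ = δ ^ 2 * (1 + ‖w‖ ^ 2) := ⟨_, rfl⟩
    rw [← hκd] at hu hv hκ ⊢
    have hκ0 : 0 ≤ κ := by rw [hκd]; positivity
    have key : ∀ z : ℂ, ‖z - w‖ ^ 2 - κ * (1 + ‖z‖ ^ 2) =
        (1 - κ) * (z.re ^ 2 + z.im ^ 2) - 2 * (z.re * w.re + z.im * w.im) + (w.re ^ 2 + w.im ^ 2) - κ := by
      intro z
      rw [Complex.sq_norm, Complex.sq_norm, Complex.normSq_apply, Complex.normSq_apply, Complex.sub_re,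
        Complex.sub_im]
      ring
    have h3 := key u
    have h4 := key v
    have h5 := key (a • u + b • v)
    have e1 : (a • u + b • v).re = a * u.re + b * v.re := by
      rw [Complex.add_re, Complex.real_smul, Complex.real_smul, Complex.re_ofReal_mul, Complex.re_ofReal_mul]
    have e2 : (a • u + b • v).im = a * u.im + b * v.im := by
      rw [Complex.add_im, Complex.real_smul, Complex.real_smul, Complex.im_ofReal_mul, Complex.im_ofReal_mul]
    rw [e1, e2] at h5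
    have h6 : b = 1 - a := by linarith
    subst h6
    have h7 : (a * u.re + (1 - a) * v.re) ^ 2 ≤ a * u.re ^ 2 + (1 - a) * v.re ^ 2 := by
      nlinarith [mul_nonneg (mul_nonneg ha hb) (sq_nonneg (u.re - v.re))]
    have h8 : (a * u.im + (1 - a) * v.im) ^ 2 ≤ a * u.im ^ 2 + (1 - a) * v.im ^ 2 := by
      nlinarith [mul_nonneg (mul_nonneg ha hb) (sq_nonneg (u.im - v.im))]
    have h9 : 0 ≤ 1 - κ := by linarith
    have hA : ‖a • u + (1 - a) • v - w‖ ^ 2 - κ * (1 + ‖a • u + (1 - a) • v‖ ^ 2) ≤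
        a * (‖u - w‖ ^ 2 - κ * (1 + ‖u‖ ^ 2)) + (1 - a) * (‖v - w‖ ^ 2 - κ * (1 + ‖v‖ ^ 2)) := by
      rw [h3, h4, h5]
      have h10 := mul_le_mul_of_nonneg_left (add_le_add h7 h8) h9
      nlinarith
    have hB : a * (‖u - w‖ ^ 2 - κ * (1 + ‖u‖ ^ 2)) + (1 - a) * (‖v - w‖ ^ 2 - κ * (1 + ‖v‖ ^ 2)) < 0 := by
      have h11 : ‖u - w‖ ^ 2 - κ * (1 + ‖u‖ ^ 2) < 0 := by linarith
      have h12 : ‖v - w‖ ^ 2 - κ * (1 + ‖v‖ ^ 2) < 0 := by linarith
      rcases ha.eq_or_lt with h13 | h13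
      · rw [← h13]
        linarith
      · have h14 := mul_neg_of_pos_of_neg h13 h11
        have h15 := mul_nonpos_of_nonneg_of_nonpos hb h12.le
        linarith
    linarith
  have hopen : IsOpen C := by
    rw [hC]
    exact isOpen_lt (by fun_prop) (by fun_prop)
  have hne : C.Nonempty := by
    refine ⟨w, ?_⟩
    rw [hC, mem_ofPred_eq, sub_self, norm_zero, zero_pow two_ne_zero]
    positivity
  have hctr : ContractibleSpace C := hconv.contractibleSpace hne
  rw [himg]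
  have e : C ≃ₜ io τ '' C := (io_emb τ).toIsEmbedding.homeomorphImage C
  constructor
  · have h1 : ContractibleSpace (io τ '' C) := e.symm.contractibleSpace
    infer_instance
  · have h1 : Topology.IsOpenEmbedding (fun y : io τ '' C => ((e.symm y : C) : ℂ)) :=
      hopen.isOpenEmbedding_subtypeVal.comp e.symm.isOpenEmbedding
    exact h1.locallyPathConnectedSpace

theorem uni {P Q : Polynomial ℂ} (h : IsCoprime P Q) (hd : 1 ≤ max P.natDegree Q.natDegree) {x : OnePoint ℂ}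
    {n : ℕ} {δ : ℝ} (hδ : 0 < δ) (hδ1 : δ ≤ 1 / 8)
    (hc : ∀ k < n, ∀ c ∈ Wk (rat P Q) x n δ k, ¬ IsCrit (rat P Q) c) : Uni (rat P Q) x n δ := by
  obtain ⟨f, hfd⟩ : ∃ f, f = rat P Q := ⟨_, rfl⟩
  have hf : Continuous f := by rw [hfd]; exact rat_continuous h
  have ho : IsOpenMap f := by rw [hfd]; exact rat_open h hd
  have hfin : ∀ y, (f^[n] ⁻¹' {y}).Finite := by
    intro y
    rw [hfd]
    exact Pool.Agent.H32.BT.iter_fiber_finite h hd n y
  rw [← hfd] at hc ⊢
  obtain ⟨B, hBd⟩ : ∃ B : Set (OnePoint ℂ), B = {z | chord z (f^[n] x) < δ} := ⟨_, rfl⟩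
  have hWk : ∀ k, Wk f x n δ k = CC f (n - k) B (f^[k] x) := by
    intro k
    rw [hBd]
    rfl
  have hB : IsOpen B := by
    have h1 : B = {z | chord (f^[n] x) z < δ} := by
      rw [hBd]
      ext z
      rw [mem_ofPred_eq, mem_ofPred_eq, chord_comm]
    rw [h1]
    exact ch_ball _ _
  have hx : f^[n] x ∈ B := by
    rw [hBd, mem_ofPred_eq, Pool.Agent.H44.RR.chord_zero]
    exact hδ
  have hsc : SimplyConnectedSpace B ∧ LocallyPathConnectedSpace B := by
    rw [hBd]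
    exact uni_ball _ hδ hδ1
  have hbij : BijOn f^[n] (CC f n B x) B := by
    refine uni_gen hf n (Pool.Agent.H91.Fatou.open_iterate ho n) hfin hB hsc.1 hsc.2 hx fun w hw => ?_
    refine uni_iter hf n fun k hk => ?_
    have h1 := cc_map hf hk.le hw
    have h2 := hc k hk (f^[k] w) (by rw [hWk]; exact h1)
    exact not_not.1 h2
  have hW0 : Wk f x n δ 0 = CC f n B x := hWk 0
  refine ⟨by rw [hW0]; exact hbij.injOn, ?_⟩
  rw [hW0]
  intro z hz
  refine hbij.surjOn ?_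
  rw [hBd, mem_ofPred_eq, chord_comm]
  exact hz

end Pool.Agent.H3.NC
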