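import Pool.Agent.H3.NC.Defs

/-!
# Module BRN: the branches along a conical time

PROOF. `itJ`: `Ji`. `mem_pre`: induction on `m` (`Function.iterate_succ_apply'`: `pre^[m + 1] S = pre (pre^[m] S)`). `bdo`: for `i ≤ n` `(rat a b)^[n - i] ((rat a b)^[i] z) = u` (`Function.iterate_add_apply`), so by `bd` `(rat a b)^[i] z` is a finite point of norm at most `R0`; induction on `i`: if `b.eval (gg^[i] z) = 0` then `rat a b (gg^[i] z) = ∞` (`rat_coe_of_eq` / `Pool.Agent.H44.Fatou.rat` at a zero of the denominator, coprime: as `orb` in H57/CP/BAS),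
so `b.eval ≠ 0` and `rat a b (z) = gg a b z` (`rat_coe_of_ne`). (Copy `orb` of H57/CP/BAS, drop `A`.)
`brn`: `P k = (gg a b)^[k] v`. For `u ∈ ball (P n) δ ⊆ ball (P n) δ0`, `P n ∈ J`: `bdo` for `z = G u` (`hG.inv`). `gg^[k] ∘ G` is differentiable on the ball (`bra_it`, H57/CP/BRA, and `hG.diff`), value `gg^[k] v` at `P n` (`hG.val`); `(rat a b)^[n - k] (gg^[k] (G u)) = (rat a b)^[n - k] ((rat a b)^[k] (G u)) = (rat a b)^[n] (G u) = u`.
Injective: apply `(rat a b)^[n - k]`. Derivative: `gg^[n] ∘ G = id` near `P n`, chain rule: `tD a b n v * deriv G (P n) = 1` (as `br_der`), so `tD a b n v ≠ 0`, `tD a b k v ≠ 0` (`tD_add`: `tD a b n v = tD a b k v * tD a b (n - k) (gg^[k] v)`), and `deriv (gg^[k] ∘ G) (P n) = tD a b k v * deriv G (P n) = tD a b k v / tD a b n v`.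
-/

set_option autoImplicit false

open Filter Topology Polynomial Metric Set MeasureTheory

namespace Pool.Agent.H3.NC

open Pool.Agent.H44.Fatou (rat)
open Pool.Agent.H80.AJ (Br KK)
open Pool.Agent.H61.TT Pool.Agent.H57.CP

variable {d D : ℕ} {a b : Polynomial ℂ} {J : Set ℂ} {δ0 R0 : ℝ}

theorem itJ (h : NS d D a b J δ0 R0) {v : ℂ} (hv : v ∈ J) (k : ℕ) : (gg a b)^[k] v ∈ J := by
  induction k with
  | zero => exact hv
  | succ k ih =>
    rw [Function.iterate_succ_apply']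
    exact h.Ji _ ih

theorem bdo (h : NS d D a b J δ0 R0) {n : ℕ} {y u z : ℂ} (hy : y ∈ J) (hu : u ∈ ball y δ0)
    (hz : (rat a b)^[n] (z : OnePoint ℂ) = (u : OnePoint ℂ)) :
    (gg a b)^[n] z = u ∧ (∀ i ≤ n, (rat a b)^[i] (z : OnePoint ℂ) = ((gg a b)^[i] z : ℂ) ∧ ‖(gg a b)^[i] z‖ ≤ R0) ∧
      ∀ i < n, b.eval ((gg a b)^[i] z) ≠ 0 := by
  have hsplit : ∀ i ≤ n, (rat a b)^[n - i] ((rat a b)^[i] (z : OnePoint ℂ)) = (u : OnePoint ℂ) := by
    intro i hi
    rw [← Function.iterate_add_apply, Nat.sub_add_cancel hi, hz]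
  have hfin : ∀ i ≤ n, ∃ z' : ℂ, (rat a b)^[i] (z : OnePoint ℂ) = (z' : OnePoint ℂ) ∧ ‖z'‖ ≤ R0 :=
    fun i hi => h.bd (n - i) _ ⟨y, hy, u, hu, hsplit i hi⟩
  have key : ∀ i ≤ n, (rat a b)^[i] (z : OnePoint ℂ) = ((gg a b)^[i] z : ℂ) ∧
      ∀ j < i, b.eval ((gg a b)^[j] z) ≠ 0 := by
    intro i
    induction i with
    | zero => intro _; exact ⟨rfl, fun j hj => absurd hj (by omega)⟩
    | succ i ih =>
      intro hi
      obtain ⟨h1, h2⟩ := ih (by omega)
      have hb : b.eval ((gg a b)^[i] z) ≠ 0 := by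
        intro h0
        obtain ⟨z', hz', -⟩ := hfin (i + 1) hi
        rw [Function.iterate_succ_apply', h1, Pool.Agent.H44.Fatou.rat_coe, h0] at hz'
        unfold Pool.Agent.H44.Fatou.pt at hz'
        rw [if_pos rfl] at hz'
        exact OnePoint.infty_ne_coe _ hz'
      refine ⟨?_, ?_⟩
      · rw [Function.iterate_succ_apply', h1, Function.iterate_succ_apply',
          Pool.Agent.H44.Fatou.rat_coe_of_ne hb]
        rfl
      · intro j hj
        rcases Nat.lt_succ_iff_lt_or_eq.1 hj with h3 | rfl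
        · exact h2 j h3
        · exact hb
  refine ⟨?_, ?_, (key n le_rfl).2⟩
  · have h1 := (key n le_rfl).1
    rw [hz] at h1
    exact (OnePoint.coe_injective h1).symm
  · intro i hi
    obtain ⟨z', hz', hR⟩ := hfin i hi
    have h1 := (key i hi).1
    have h2 : z' = (gg a b)^[i] z := by
      rw [h1] at hz'
      exact (OnePoint.coe_injective hz').symm
    exact ⟨h1, h2 ▸ hR⟩

theorem mem_pre {m : ℕ} {S : Set ℂ} {z : ℂ} : z ∈ (pre a b)^[m] S ↔
    (∀ i < m, b.eval ((gg a b)^[i] z) ≠ 0) ∧ (gg a b)^[m] z ∈ S := by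
  induction m generalizing z with
  | zero => simp
  | succ m ih =>
    rw [Function.iterate_succ_apply']
    have h1 : z ∈ pre a b ((pre a b)^[m] S) ↔ b.eval z ≠ 0 ∧ gg a b z ∈ (pre a b)^[m] S := Iff.rfl
    rw [h1, ih]
    constructor
    · rintro ⟨h2, h3, h4⟩
      refine ⟨fun i hi => ?_, h4⟩
      cases i with
      | zero => exact h2
      | succ i => exact h3 i (by omega)
    · rintro ⟨h2, h3⟩
      exact ⟨h2 0 (by omega), fun i hi => h2 (i + 1) (by omega), h3⟩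

theorem brn (h : NS d D a b J δ0 R0) {v : ℂ} (hv : v ∈ J) {δ : ℝ} (hδ : 0 < δ) (hδ0 : δ ≤ δ0) {n : ℕ} {G : ℂ → ℂ}
    (hG : Cal a b v δ n G) {k : ℕ} (hk : k ≤ n) :
    Br (rat a b) (n - k) ((gg a b)^[n] v) δ ((gg a b)^[k] v) ((gg a b)^[k] ∘ G) ∧
      InjOn ((gg a b)^[k] ∘ G) (ball ((gg a b)^[n] v) δ) ∧ 0 < Dk a b v n ∧ 0 < Dk a b v k ∧
      ‖deriv ((gg a b)^[k] ∘ G) ((gg a b)^[n] v)‖ = Dk a b v k / Dk a b v n := by
  have hPJ := itJ h hv n
  have hb : ∀ u ∈ ball ((gg a b)^[n] v) δ, (gg a b)^[n] (G u) = u ∧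
      (∀ i ≤ n, (rat a b)^[i] (G u : OnePoint ℂ) = ((gg a b)^[i] (G u) : ℂ) ∧ ‖(gg a b)^[i] (G u)‖ ≤ R0) ∧
      ∀ i < n, b.eval ((gg a b)^[i] (G u)) ≠ 0 :=
    fun u hu => bdo h hPJ (ball_subset_ball hδ0 hu) (hG.inv u hu)
  have hd : ∀ j ≤ n, ∀ u ∈ ball ((gg a b)^[n] v) δ,
      HasDerivAt ((gg a b)^[j] ∘ G) (tD a b j (G u) * deriv G u) u := by
    intro j hj u hu
    have h4 : HasDerivAt G (deriv G u) u := (hG.diff.differentiableAt (isOpen_ball.mem_nhds hu)).hasDerivAt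
    exact (bra_it (fun i hi => (hb u hu).2.2 i (by omega))).hasDerivAt.comp u h4
  have hBr : Br (rat a b) (n - k) ((gg a b)^[n] v) δ ((gg a b)^[k] v) ((gg a b)^[k] ∘ G) := by
    refine ⟨fun u hu => (hd k hk u hu).differentiableAt.differentiableWithinAt, ?_, fun u hu => ?_⟩
    · exact congrArg _ hG.val
    · change (rat a b)^[n - k] (((gg a b)^[k] (G u) : ℂ) : OnePoint ℂ) = (u : OnePoint ℂ)
      rw [← ((hb u hu).2.1 k hk).1, ← Function.iterate_add_apply, Nat.sub_add_cancel hk]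
      exact hG.inv u hu
  have hc : (gg a b)^[n] v ∈ ball ((gg a b)^[n] v) δ := mem_ball_self hδ
  have h1 : tD a b n v * deriv G ((gg a b)^[n] v) = 1 := by
    have h5 := hd n le_rfl _ hc
    have h6 : (gg a b)^[n] ∘ G =ᶠ[𝓝 ((gg a b)^[n] v)] id := by
      filter_upwards [isOpen_ball.mem_nhds hc] with w hw
      exact (hb w hw).1
    have h7 : HasDerivAt ((gg a b)^[n] ∘ G) 1 ((gg a b)^[n] v) := (hasDerivAt_id _).congr_of_eventuallyEq h6
    have h8 := h5.unique h7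
    rwa [hG.val] at h8
  have hn0 : tD a b n v ≠ 0 := left_ne_zero_of_mul_eq_one h1
  have hk0 : tD a b k v ≠ 0 := by
    intro h0
    apply hn0
    rw [← Nat.add_sub_cancel' hk, tD_add, h0, zero_mul]
  have hDn : 0 < Dk a b v n := norm_pos_iff.2 hn0
  have hDk : 0 < Dk a b v k := norm_pos_iff.2 hk0
  refine ⟨hBr, ?_, hDn, hDk, ?_⟩
  · intro u hu u' hu' he
    have h2 := hBr.inv u hu
    rw [he, hBr.inv u' hu'] at h2
    exact (OnePoint.coe_injective h2).symm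
  · rw [(hd k hk _ hc).deriv, hG.val, norm_mul]
    have h9 : ‖tD a b n v‖ * ‖deriv G ((gg a b)^[n] v)‖ = 1 := by rw [← norm_mul, h1, norm_one]
    unfold Dk
    rw [eq_div_iff (norm_ne_zero_iff.2 hn0), mul_assoc, mul_comm ‖deriv G _‖, h9, mul_one]

end Pool.Agent.H3.NC
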