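import Mathlib

/-!
# Module CNT: a sum over a sequence which is halved after `N` steps

PROOF. Strong induction on `I.card`, for all `ε`. `I` empty: `0 ≤ 2 (N + 1) ε`. Otherwise `m = I.min'`. `I1 = I.filter (· ≤ m + N)` has at most `N + 1` elements (subset of `Icc m (m + N)`): its sum is at most `(N + 1) ε`.
`I2 = I.filter (m + N < ·)` (does not contain `m`): for `l ∈ I2` `N < l - m`, so `x l ≤ x m / 2 ≤ ε / 2`: induction with `ε / 2`.
-/

set_option autoImplicit false

namespace Pool.Agent.H3.NC

theorem cnt {I : Finset ℕ} {x : ℕ → ℝ} {N : ℕ} {ε : ℝ} (hε0 : 0 ≤ ε) (hx : ∀ k ∈ I, 0 ≤ x k) (hε : ∀ k ∈ I, x k ≤ ε)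
    (h : ∀ k ∈ I, ∀ l ∈ I, N < l - k → 2 * x l ≤ x k) : ∑ k ∈ I, x k ≤ 2 * (N + 1) * ε := by
  induction I using Finset.strongInduction generalizing ε with
  | H I ih =>
    rcases I.eq_empty_or_nonempty with rfl | hne
    · rw [Finset.sum_empty]
      positivity
    · obtain ⟨m, hm, hmin⟩ : ∃ m ∈ I, ∀ k ∈ I, m ≤ k :=
        ⟨I.min' hne, I.min'_mem hne, fun k hk => I.min'_le k hk⟩
      have h1 : ∑ k ∈ I.filter (fun k => k ≤ m + N), x k ≤ (N + 1) * ε := by
        have h2 : ∑ k ∈ I.filter (fun k => k ≤ m + N), x k ≤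
            (I.filter (fun k => k ≤ m + N)).card • ε :=
          Finset.sum_le_card_nsmul _ _ _ fun k hk => hε k (Finset.mem_filter.1 hk).1
        have h3 : (I.filter (fun k => k ≤ m + N)).card ≤ N + 1 := by
          have h4 : I.filter (fun k => k ≤ m + N) ⊆ Finset.Icc m (m + N) := by
            intro k hk
            rw [Finset.mem_filter] at hk
            exact Finset.mem_Icc.2 ⟨hmin k hk.1, hk.2⟩
          have h5 := Finset.card_le_card h4
          rw [Nat.card_Icc] at h5
          omega
        have h4 : (((I.filter (fun k => k ≤ m + N)).card : ℕ) : ℝ) ≤ (N : ℝ) + 1 := by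
          exact_mod_cast h3
        rw [nsmul_eq_mul] at h2
        exact h2.trans (mul_le_mul_of_nonneg_right h4 hε0)
      have h2 : ∑ k ∈ I.filter (fun k => ¬ k ≤ m + N), x k ≤ 2 * (N + 1) * (ε / 2) := by
        have hm1 : ∀ k ∈ I.filter (fun k => ¬ k ≤ m + N), k ∈ I := fun k hk =>
          (Finset.mem_filter.1 hk).1
        refine ih _ ?_ (by linarith) (fun k hk => hx k (hm1 k hk)) (fun k hk => ?_)
          (fun k hk l hl hkl => h k (hm1 k hk) l (hm1 l hl) hkl)
        · rw [Finset.ssubset_iff_of_subset (Finset.filter_subset _ _)]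
          exact ⟨m, hm, fun hc => (Finset.mem_filter.1 hc).2 (by omega)⟩
        · rw [Finset.mem_filter] at hk
          have h3 := h m hm k hk.1 (by omega)
          have h4 := hε m hm
          linarith
      rw [← Finset.sum_filter_add_sum_filter_not I (fun k => k ≤ m + N)]
      linarith

end Pool.Agent.H3.NC
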