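import Mathlib

/-!
# Module GRD: a weighted sum of `1 / |ζ| ^ 3` over points of bounded density

PROOF. `h = η / 2`. To `k` assign the cell `q k = (⌊Re ζ k / h⌋, ⌊Im ζ k / h⌋) : ℤ × ℤ`. Two points of one cell have distance at most `h √2 ≤ η`, so the sum of `x` over the points of `I` in one cell is at most `M`.
For `ζ` in the cell `(i, j)` with `ε0 < ‖ζ‖`: `‖ζ‖ ≥ κ (1 + i ^ 2 + j ^ 2) ^ (1/2)` for some `κ > 0` which depends only on `h, ε0`: `|i| ≤ ‖ζ‖ / h + 1`, `|j| ≤ ‖ζ‖ / h + 1`, `1 < ‖ζ‖ / ε0`; so `1 + i ^ 2 + j ^ 2 ≤ (‖ζ‖ / ε0) ^ 2 + 2 (‖ζ‖ / h + ‖ζ‖ / ε0) ^ 2`.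
So the sum is at most `∑_((i,j)) M / (κ ^ 3 (1 + i ^ 2 + j ^ 2) ^ (3/2))`, and `(1 + i ^ 2 + j ^ 2) ^ 2 ≥ (1 + i ^ 2) (1 + j ^ 2)`, so the terms are at most `M κ ^ (-3) (1 + i ^ 2) ^ (-3/4) (1 + j ^ 2) ^ (-3/4)`, summable over `ℤ × ℤ`
(`Summable.mul_of_nonneg`; `∑_(i : ℤ) (1 + i ^ 2) ^ (-3/4)` converges: `Summable.of_nat_of_neg`, `Real.summable_nat_rpow_inv` or `summable_one_div_nat_rpow`). Sum over the image of `q` (`Finset.sum_fiberwise_of_maps_to` or `sum_image'`), `Summable.sum_le_tsum`. (Any other proof is welcome: dyadic annuli `2 ^ i ε0 < ‖ζ‖ ≤ 2 ^ (i+1) ε0` covered by `C 4 ^ i` squares of side `h`.)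
-/

set_option autoImplicit false

namespace Pool.Agent.H3.NC

private lemma grd_sum : Summable (fun i : ℤ => (1 + |(i:ℝ)|) ^ (-(3/2) : ℝ)) := by
  have h0 : Summable (fun n : ℕ => (1 + (n:ℝ)) ^ (-(3/2) : ℝ)) := by
    have h1 : Summable (fun n : ℕ => (n:ℝ) ^ (-(3/2) : ℝ)) := Real.summable_nat_rpow.2 (by norm_num)
    have h2 := (summable_nat_add_iff 1).2 h1
    refine h2.congr fun n => ?_
    push_cast
    rw [add_comm]
  refine Summable.of_nat_of_neg ?_ ?_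
  · refine h0.congr fun n => ?_
    simp
  · refine h0.congr fun n => ?_
    simp

private lemma grd_cell {h : ℝ} (hh : 0 < h) {z w : ℂ} (h1 : ⌊z.re / h⌋ = ⌊w.re / h⌋)
    (h2 : ⌊z.im / h⌋ = ⌊w.im / h⌋) : ‖z - w‖ ≤ 2 * h := by
  have e1 : |z.re - w.re| ≤ h := by
    have h3 := Int.abs_sub_lt_one_of_floor_eq_floor h1
    rw [← sub_div, abs_div, abs_of_pos hh, div_lt_one hh] at h3
    exact h3.le
  have e2 : |z.im - w.im| ≤ h := by
    have h3 := Int.abs_sub_lt_one_of_floor_eq_floor h2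
    rw [← sub_div, abs_div, abs_of_pos hh, div_lt_one hh] at h3
    exact h3.le
  have e3 := Complex.norm_le_abs_re_add_abs_im (z - w)
  rw [Complex.sub_re, Complex.sub_im] at e3
  linarith

private lemma grd_abs {h : ℝ} (hh : 0 < h) (t : ℝ) : |((⌊t / h⌋ : ℤ) : ℝ)| ≤ |t| / h + 1 := by
  have h1 := Int.floor_le (t / h)
  have h2 := Int.lt_floor_add_one (t / h)
  have h3 : |t / h| = |t| / h := by rw [abs_div, abs_of_pos hh]
  rw [← h3, abs_le]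
  have h4 := neg_abs_le (t / h)
  have h5 := le_abs_self (t / h)
  constructor <;> linarith

theorem grd {η M ε0 : ℝ} (hη : 0 < η) (hM : 0 ≤ M) (hε : 0 < ε0) : ∃ C : ℝ, ∀ (I : Finset ℕ) (ζ : ℕ → ℂ) (x : ℕ → ℝ),
    (∀ k ∈ I, 0 ≤ x k) → (∀ I' ⊆ I, (∀ k ∈ I', ∀ l ∈ I', ‖ζ k - ζ l‖ ≤ η) → ∑ k ∈ I', x k ≤ M) →
    ∑ k ∈ I.filter (fun k => ε0 < ‖ζ k‖), x k / ‖ζ k‖ ^ 3 ≤ C := by
  classical
  set h : ℝ := η / 2 with hh
  have hh0 : 0 < h := by positivity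
  set L : ℝ := 1 / h + 2 / ε0 with hL
  have hL0 : 0 < L := by positivity
  set f : ℤ → ℝ := fun i => (1 + |(i:ℝ)|) ^ (-(3/2) : ℝ) with hf
  have hf0 : ∀ i, 0 ≤ f i := fun i => Real.rpow_nonneg (by positivity) _
  have hF : Summable (fun p : ℤ × ℤ => f p.1 * f p.2) :=
    grd_sum.mul_of_nonneg grd_sum hf0 hf0
  refine ⟨∑' p : ℤ × ℤ, M * L ^ 3 * (f p.1 * f p.2), fun I ζ x hx hI => ?_⟩
  set q : ℕ → ℤ × ℤ := fun k => (⌊(ζ k).re / h⌋, ⌊(ζ k).im / h⌋) with hq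
  set J : Finset ℕ := I.filter (fun k => ε0 < ‖ζ k‖) with hJ
  have hJI : J ⊆ I := Finset.filter_subset _ _
  -- the termwise bound
  have hterm : ∀ k ∈ J, x k / ‖ζ k‖ ^ 3 ≤ x k * (L ^ 3 * (f (q k).1 * f (q k).2)) := by
    intro k hk
    have hkε : ε0 < ‖ζ k‖ := (Finset.mem_filter.1 hk).2
    have hz0 : 0 < ‖ζ k‖ := hε.trans hkε
    have hc : ∀ t : ℝ, |t| ≤ ‖ζ k‖ → 1 + |((⌊t / h⌋ : ℤ) : ℝ)| ≤ L * ‖ζ k‖ := by
      intro t ht
      have h1 := grd_abs hh0 t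
      have h2 : |t| / h ≤ ‖ζ k‖ / h := by gcongr
      have h3 : 2 ≤ 2 / ε0 * ‖ζ k‖ := by
        rw [div_mul_eq_mul_div, le_div_iff₀ hε]
        linarith
      rw [hL, add_mul, one_div_mul_eq_div]
      linarith
    have hr := hc (ζ k).re (Complex.abs_re_le_norm _)
    have hi := hc (ζ k).im (Complex.abs_im_le_norm _)
    have hp : ∀ i : ℤ, 1 + |(i:ℝ)| ≤ L * ‖ζ k‖ → (L * ‖ζ k‖) ^ (-(3/2) : ℝ) ≤ f i := by
      intro i hi2
      exact Real.rpow_le_rpow_of_nonpos (by positivity) hi2 (by norm_num)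
    have h4 : (L * ‖ζ k‖) ^ (-(3/2) : ℝ) * (L * ‖ζ k‖) ^ (-(3/2) : ℝ) ≤ f (q k).1 * f (q k).2 :=
      mul_le_mul (hp _ hr) (hp _ hi) (Real.rpow_nonneg (by positivity) _) (hf0 _)
    have h5 : (L * ‖ζ k‖) ^ (-(3/2) : ℝ) * (L * ‖ζ k‖) ^ (-(3/2) : ℝ) = ((L * ‖ζ k‖) ^ 3)⁻¹ := by
      rw [← Real.rpow_add (by positivity)]
      rw [← Real.rpow_natCast, ← Real.rpow_neg (by positivity)]
      norm_num
    rw [h5] at h4
    have h6 : L ^ 3 * ((L * ‖ζ k‖) ^ 3)⁻¹ = (‖ζ k‖ ^ 3)⁻¹ := by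
      rw [mul_pow, mul_inv]
      field_simp
    rw [div_eq_mul_inv, ← h6]
    exact mul_le_mul_of_nonneg_left (mul_le_mul_of_nonneg_left h4 (by positivity)) (hx k (hJI hk))
  calc ∑ k ∈ J, x k / ‖ζ k‖ ^ 3 ≤ ∑ k ∈ J, x k * (L ^ 3 * (f (q k).1 * f (q k).2)) :=
        Finset.sum_le_sum hterm
    _ = ∑ p ∈ J.image q, ∑ k ∈ J.filter (fun k => q k = p), x k * (L ^ 3 * (f (q k).1 * f (q k).2)) :=
        (Finset.sum_fiberwise_of_maps_to (fun k hk => Finset.mem_image_of_mem q hk) _).symm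
    _ ≤ ∑ p ∈ J.image q, M * L ^ 3 * (f p.1 * f p.2) := by
        refine Finset.sum_le_sum fun p hp => ?_
        have h7 : ∑ k ∈ J.filter (fun k => q k = p), x k * (L ^ 3 * (f (q k).1 * f (q k).2))
            = (∑ k ∈ J.filter (fun k => q k = p), x k) * (L ^ 3 * (f p.1 * f p.2)) := by
          rw [Finset.sum_mul]
          refine Finset.sum_congr rfl fun k hk => ?_
          rw [(Finset.mem_filter.1 hk).2]
        rw [h7, mul_assoc]
        refine mul_le_mul_of_nonneg_right ?_ (by have := hf0 p.1; have := hf0 p.2; positivity)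
        refine hI _ ((Finset.filter_subset _ _).trans hJI) fun k hk l hl => ?_
        have h8 : q k = q l := (Finset.mem_filter.1 hk).2.trans (Finset.mem_filter.1 hl).2.symm
        have h9 := grd_cell hh0 (congrArg Prod.fst h8) (congrArg Prod.snd h8)
        linarith
    _ ≤ ∑' p : ℤ × ℤ, M * L ^ 3 * (f p.1 * f p.2) := by
        refine (hF.mul_left _).sum_le_tsum _ fun p hp => ?_
        have := hf0 p.1
        have := hf0 p.2
        positivity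

end Pool.Agent.H3.NC
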