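import Pool.Agent.H3.NC.Defs
import Pool.Agent.H3.NC.CNT
import Pool.Agent.H3.NC.GRD

/-!
# Module FRC: the bound for the far poles

PROOF. `N` from `hq.lac` with `K = 2`, `M = 2 (N + 1)`, `C` from `grd` for `η, M, ε0`. Eventually in `j`, for `I' ⊆ range (n j)` with `‖ze k - ze l‖ ≤ η` for all `k, l ∈ I'`: `cnt` with `x k = ‖be k‖ = Dk (s j) / Dk k ≤ 1` (`hq.mn`, `hq.pos`), `ε = 1`; for `N < l - k`, `k, l ∈ I'`: `2 Dk k ≤ Dk l`, so `2 ‖be l‖ ≤ ‖be k‖`.
-/

set_option autoImplicit false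

open Filter Topology Polynomial Metric Set MeasureTheory

namespace Pool.Agent.H3.NC

open Pool.Agent.H44.Fatou (rat)
open Pool.Agent.H80.AJ (Br KK)
open Pool.Agent.H61.TT Pool.Agent.H57.CP

variable {a b : Polynomial ℂ}

private theorem frc_be {v : ℂ} {s k : ℕ} : ‖be a b v s k‖ = Dk a b v s / Dk a b v k := by
  unfold be Dk
  rw [norm_div]

theorem frc {v x0 : ℂ} {η ε0 : ℝ} {n s : ℕ → ℕ} (hq : SQ a b v η x0 n s) (hε : 0 < ε0) : ∃ C : ℝ, ∀ᶠ j in atTop,
    ∑ k ∈ (Finset.range (n j)).filter (fun k => ε0 < ‖ze a b v (n j) (s j) k‖),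
      ‖be a b v (s j) k‖ / ‖ze a b v (n j) (s j) k‖ ^ 3 ≤ C := by
  obtain ⟨N, hN⟩ := hq.lac 2 (by norm_num)
  obtain ⟨C, hC⟩ := grd (η := η) (M := 2 * (N + 1)) (ε0 := ε0) hq.hη (by positivity) hε
  refine ⟨C, hN.mono fun j hj => ?_⟩
  refine hC (Finset.range (n j)) (fun k => ze a b v (n j) (s j) k)
    (fun k => ‖be a b v (s j) k‖) (fun k _ => norm_nonneg _) fun I' hI' hcl => ?_
  have h1 := cnt (I := I') (x := fun k => ‖be a b v (s j) k‖) (N := N) (ε := 1) zero_le_one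
    (fun k _ => norm_nonneg _) ?_ ?_
  · simpa using h1
  · intro k hk
    have hk' := Finset.mem_range.1 (hI' hk)
    have h2 := hq.pos j k hk'.le
    have h3 := hq.mn j k hk'
    change ‖be a b v (s j) k‖ ≤ 1
    rw [frc_be, div_le_one h2]
    exact h3
  · intro k hk l hl hkl
    have hl' := Finset.mem_range.1 (hI' hl)
    have hlt : k < l := by omega
    have h2 := hj k l hlt hl' hkl (hcl k hk l hl)
    have h3 := hq.pos j k (by omega)
    have h4 := hq.pos j l hl'.le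
    have h5 := hq.pos j (s j) (hq.lt j).le
    change 2 * ‖be a b v (s j) l‖ ≤ ‖be a b v (s j) k‖
    rw [frc_be, frc_be, ← mul_div_assoc, div_le_div_iff₀ h4 h3]
    nlinarith

end Pool.Agent.H3.NC
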