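import Pool.Agent.H79.ES.EBN

/-!
# Module KIN: integrals of the kernel `1 / (x - p)`

PROOF. `kin`: `U ⊆ (U ∩ ball p δ) ∪ (U \ ball p δ)`; on the first set `eb_ker` (H79/ES/EBN, `ENNReal.ofReal ‖x - p‖⁻¹`), on the second `‖x - p‖⁻¹ ≤ δ⁻¹`. `kin_ball`: `eb_ker` with center 0.
`kl1`: `‖β / (x - z) - c / x‖ ≤ ‖β - c‖ ‖x - z‖⁻¹ + ‖c‖ ‖(x - z)⁻¹ - x⁻¹‖`; the first term has integral at most `‖β j - c‖ 3 π r → 0`. Second: for `0 < ρ < r`: on `ball 0 ρ` at most `‖x - z‖⁻¹ + ‖x‖⁻¹`, integral at most `6 π ρ`; for `ρ ≤ ‖x‖ < r` and `‖z j‖ ≤ ρ / 2`: `‖(x - z)⁻¹ - x⁻¹‖ = ‖z‖ / (‖x‖ ‖x - z‖) ≤ 2 ‖z j‖ / ρ ^ 2`, times the area of `ball 0 r` tends to 0. So the limsup is at most `‖c‖ 6 π ρ` for every `ρ`.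
-/

set_option autoImplicit false

open MeasureTheory Metric Set Filter Topology

namespace Pool.Agent.H3.NC

private theorem kin_enorm (x p : ℂ) : ‖(x - p)⁻¹‖ₑ = ENNReal.ofReal (‖x - p‖⁻¹) := by
  rw [← norm_inv, ofReal_norm]

theorem kin {U : Set ℂ} (hU : MeasurableSet U) (p : ℂ) {δ : ℝ} (hδ : 0 < δ) :
    ∫⁻ x in U, ‖(x - p)⁻¹‖ₑ ≤ ENNReal.ofReal (3 * Real.pi * δ) + ENNReal.ofReal δ⁻¹ * volume U := by
  rw [← lintegral_inter_add_sdiff (fun x : ℂ => ‖(x - p)⁻¹‖ₑ) U (measurableSet_ball (x := p) (ε := δ))]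
  refine add_le_add ?_ ?_
  · refine (lintegral_mono_set inter_subset_right).trans ?_
    have h1 := Pool.Agent.H79.ES.eb_ker p p hδ
    refine le_trans (le_of_eq ?_) h1
    exact lintegral_congr fun x => kin_enorm x p
  · have h2 : ∫⁻ x in U \ ball p δ, ‖(x - p)⁻¹‖ₑ ≤ ∫⁻ _ in U \ ball p δ, ENNReal.ofReal δ⁻¹ := by
      refine setLIntegral_mono' (hU.diff measurableSet_ball) fun x hx => ?_
      rw [kin_enorm]
      have h3 : δ ≤ ‖x - p‖ := by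
        have := hx.2
        rw [mem_ball_iff_norm, not_lt] at this
        exact this
      exact ENNReal.ofReal_le_ofReal (inv_anti₀ hδ h3)
    refine h2.trans ?_
    rw [setLIntegral_const]
    gcongr
    exact sdiff_subset

theorem kin_ball (p : ℂ) {δ : ℝ} (hδ : 0 < δ) :
    ∫⁻ x in ball (0 : ℂ) δ, ‖(x - p)⁻¹‖ₑ ≤ ENNReal.ofReal (3 * Real.pi * δ) := by
  refine le_trans (le_of_eq ?_) (Pool.Agent.H79.ES.eb_ker 0 p hδ)
  exact lintegral_congr fun x => kin_enorm x p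

private theorem kl1_diff {r ρ : ℝ} (hρ : 0 < ρ) {z : ℂ} (hz : ‖z‖ ≤ ρ / 2) :
    ∫⁻ x in ball (0 : ℂ) r, ‖(x - z)⁻¹ - x⁻¹‖ₑ ≤ ENNReal.ofReal (6 * Real.pi * ρ) +
      ENNReal.ofReal (2 * ‖z‖ / ρ ^ 2) * volume (ball (0 : ℂ) r) := by
  rw [← lintegral_inter_add_sdiff (fun x : ℂ => ‖(x - z)⁻¹ - x⁻¹‖ₑ) (ball (0 : ℂ) r)
    (measurableSet_ball (x := (0 : ℂ)) (ε := ρ))]
  refine add_le_add ?_ ?_
  · refine (lintegral_mono_set inter_subset_right).trans ?_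
    have h1 : ∫⁻ x in ball (0 : ℂ) ρ, ‖(x - z)⁻¹ - x⁻¹‖ₑ ≤
        ∫⁻ x in ball (0 : ℂ) ρ, (‖(x - z)⁻¹‖ₑ + ‖(x - 0)⁻¹‖ₑ) := by
      refine lintegral_mono fun x => ?_
      rw [sub_zero]
      exact enorm_sub_le
    refine h1.trans ?_
    have hm : Measurable fun x : ℂ => ‖(x - z)⁻¹‖ₑ := by fun_prop
    rw [lintegral_add_left hm]
    refine (add_le_add (kin_ball z hρ) (kin_ball 0 hρ)).trans (le_of_eq ?_)
    have hpos : 0 ≤ 3 * Real.pi * ρ := by positivity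
    rw [← ENNReal.ofReal_add hpos hpos]
    congr 1
    ring
  · have h2 : ∫⁻ x in ball (0 : ℂ) r \ ball (0 : ℂ) ρ, ‖(x - z)⁻¹ - x⁻¹‖ₑ ≤
        ∫⁻ _ in ball (0 : ℂ) r \ ball (0 : ℂ) ρ, ENNReal.ofReal (2 * ‖z‖ / ρ ^ 2) := by
      refine setLIntegral_mono' (measurableSet_ball.diff measurableSet_ball) fun x hx => ?_
      have h3 : ρ ≤ ‖x‖ := by
        have := hx.2
        rw [mem_ball_zero_iff, not_lt] at this
        exact this
      have hx0 : x ≠ 0 := by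
        rw [← norm_pos_iff]
        linarith
      have h4 : ρ / 2 ≤ ‖x - z‖ := by
        have := norm_sub_norm_le x z
        linarith
      have hxz : x - z ≠ 0 := by
        rw [← norm_pos_iff]
        linarith
      have h5 : (x - z)⁻¹ - x⁻¹ = z / (x * (x - z)) := by
        field_simp
        ring
      rw [h5, ← ofReal_norm, norm_div, norm_mul]
      apply ENNReal.ofReal_le_ofReal
      have h6 : ρ ^ 2 / 2 ≤ ‖x‖ * ‖x - z‖ := by
        have := mul_le_mul h3 h4 (by positivity) (by positivity)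
        nlinarith
      have h7 : 2 * ‖z‖ / ρ ^ 2 = ‖z‖ / (ρ ^ 2 / 2) := by
        field_simp
      rw [h7]
      exact div_le_div_of_nonneg_left (norm_nonneg _) (by positivity) h6
    refine h2.trans ?_
    rw [setLIntegral_const]
    gcongr
    exact sdiff_subset

private theorem kl1_bound {r ρ : ℝ} (hr : 0 < r) (hρ : 0 < ρ) {β z c : ℂ} (hz : ‖z‖ ≤ ρ / 2) :
    ∫⁻ x in ball (0 : ℂ) r, ‖β / (x - z) - c / x‖ₑ ≤
      ENNReal.ofReal (‖β - c‖ * (3 * Real.pi * r) + ‖c‖ * (6 * Real.pi * ρ +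
        2 * ‖z‖ / ρ ^ 2 * (volume (ball (0 : ℂ) r)).toReal)) := by
  have h1 : ∫⁻ x in ball (0 : ℂ) r, ‖β / (x - z) - c / x‖ₑ ≤
      ∫⁻ x in ball (0 : ℂ) r, (‖β - c‖ₑ * ‖(x - z)⁻¹‖ₑ + ‖c‖ₑ * ‖(x - z)⁻¹ - x⁻¹‖ₑ) := by
    refine lintegral_mono fun x => ?_
    have h2 : β / (x - z) - c / x = (β - c) * (x - z)⁻¹ + c * ((x - z)⁻¹ - x⁻¹) := by
      rw [div_eq_mul_inv, div_eq_mul_inv]
      ring
    rw [h2]
    refine (enorm_add_le _ _).trans ?_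
    rw [enorm_mul, enorm_mul]
  refine h1.trans ?_
  have hm : Measurable fun x : ℂ => ‖β - c‖ₑ * ‖(x - z)⁻¹‖ₑ := by fun_prop
  have hm2 : Measurable fun x : ℂ => ‖(x - z)⁻¹‖ₑ := by fun_prop
  have hm3 : Measurable fun x : ℂ => ‖(x - z)⁻¹ - x⁻¹‖ₑ := by fun_prop
  rw [lintegral_add_left hm, lintegral_const_mul _ hm2, lintegral_const_mul _ hm3]
  have hV : volume (ball (0 : ℂ) r) = ENNReal.ofReal (volume (ball (0 : ℂ) r)).toReal :=
    (ENNReal.ofReal_toReal measure_ball_lt_top.ne).symm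
  have h3 := kin_ball z hr
  have h4 := kl1_diff (r := r) hρ hz
  rw [hV, ← ENNReal.ofReal_mul (by positivity), ← ENNReal.ofReal_add (by positivity)
    (by positivity)] at h4
  rw [ENNReal.ofReal_add (by positivity) (by positivity), ENNReal.ofReal_mul (norm_nonneg _),
    ENNReal.ofReal_mul (norm_nonneg _), ofReal_norm, ofReal_norm]
  gcongr

theorem kl1 {r : ℝ} (hr : 0 < r) {β z : ℕ → ℂ} {c : ℂ} (hβ : Tendsto β atTop (𝓝 c)) (hz : Tendsto z atTop (𝓝 0)) :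
    Tendsto (fun j => ∫⁻ x in ball (0 : ℂ) r, ‖β j / (x - z j) - c / x‖ₑ) atTop (𝓝 0) := by
  rw [ENNReal.tendsto_nhds_zero]
  intro ε hε
  rcases eq_or_ne ε ⊤ with rfl | hε'
  · exact Eventually.of_forall fun _ => le_top
  have he : 0 < ε.toReal := ENNReal.toReal_pos hε.ne' hε'
  obtain ⟨ρ, hρd⟩ : ∃ ρ : ℝ, ρ = ε.toReal / (2 * (‖c‖ + 1) * (6 * Real.pi)) := ⟨_, rfl⟩
  have hρ : 0 < ρ := by rw [hρd]; positivity
  have hlim : Tendsto (fun j => ‖β j - c‖ * (3 * Real.pi * r) + ‖c‖ * (6 * Real.pi * ρ +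
        2 * ‖z j‖ / ρ ^ 2 * (volume (ball (0 : ℂ) r)).toReal)) atTop
      (𝓝 (0 * (3 * Real.pi * r) + ‖c‖ * (6 * Real.pi * ρ +
        2 * 0 / ρ ^ 2 * (volume (ball (0 : ℂ) r)).toReal))) := by
    have h1 : Tendsto (fun j => ‖β j - c‖) atTop (𝓝 0) := by
      have := (hβ.sub_const c).norm
      rwa [sub_self, norm_zero] at this
    have h2 : Tendsto (fun j => ‖z j‖) atTop (𝓝 0) := by
      have := hz.norm
      rwa [norm_zero] at this
    exact (h1.mul_const _).add ((((h2.const_mul 2).div_const _).mul_const _).const_add _ |>.const_mul _)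
  have hval : 0 * (3 * Real.pi * r) + ‖c‖ * (6 * Real.pi * ρ +
        2 * 0 / ρ ^ 2 * (volume (ball (0 : ℂ) r)).toReal) < ε.toReal := by
    have h1 : 0 * (3 * Real.pi * r) + ‖c‖ * (6 * Real.pi * ρ +
        2 * 0 / ρ ^ 2 * (volume (ball (0 : ℂ) r)).toReal) = ‖c‖ * (6 * Real.pi * ρ) := by
      simp
    rw [h1]
    have h2 : ‖c‖ * (6 * Real.pi * ρ) ≤ (‖c‖ + 1) * (6 * Real.pi * ρ) := by
      have : 0 ≤ 6 * Real.pi * ρ := by positivity
      nlinarith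
    have h3 : (‖c‖ + 1) * (6 * Real.pi * ρ) = ε.toReal / 2 := by
      rw [hρd]
      have : (0 : ℝ) < ‖c‖ + 1 := by positivity
      field_simp
    linarith
  have hz2 : ∀ᶠ j in atTop, ‖z j‖ ≤ ρ / 2 := by
    have h2 : Tendsto (fun j => ‖z j‖) atTop (𝓝 0) := by
      have := hz.norm
      rwa [norm_zero] at this
    exact (h2.eventually_lt_const (by positivity : (0 : ℝ) < ρ / 2)).mono fun j hj => hj.le
  filter_upwards [hlim.eventually_lt_const hval, hz2] with j h1 h2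
  refine (kl1_bound hr hρ h2).trans ?_
  rw [← ENNReal.ofReal_toReal hε']
  exact ENNReal.ofReal_le_ofReal h1.le

end Pool.Agent.H3.NC
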