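import Pool.Agent.H3.NC.Defs
import Pool.Agent.H3.NC.KIN
import Pool.Agent.H3.NC.CNT

/-!
# Module L1N: the near part tends to `(∑' t, c t) / x` in `L ^ 1`

PROOF. Let `e > 0`. `N2` from `hq.lac` with `K = 2`. For `K ≥ 2`: `N ≥ K` from `hd.ne`. Eventually in `j`: the near indices `I = {k < n j, ‖ze k‖ ≤ ε0}` are `I1 = {s j + t : t ∈ T, t ≤ N}` (`hd.lz`: eventually `‖ze (s j + t)‖ ≤ ε0` for the finitely many `t ∈ T`, `t ≤ N`; `s j + t < n j` by `hq.ns`) and a set `I2` of indices `> s j + N` with `K ‖be k‖ ≤ 1`.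
`cnt` for `I2`, `x k = ‖be k‖`, `ε = 1 / K`, `N = N2`: for `k, l ∈ I2`, `N2 < l - k`: `‖ze k - ze l‖ ≤ 2 ε0 ≤ η`, so `2 Dk k ≤ Dk l`, and `‖be k‖ = Dk (s j) / Dk k` (positive, `hq.pos`): `2 ‖be l‖ ≤ ‖be k‖`. So `∑_(I2) ‖be k‖ ≤ 2 (N2 + 1) / K` and the integral of `∑_(I2) be k / (x - ze k)` over `ball 0 ε0` is at most `3 π ε0 2 (N2 + 1) / K` (`kin_ball`).
`I1`: `∑_(t ∈ T, t ≤ N) (be (s j + t) / (x - ze (s j + t)) - c t / x)` tends to 0 in `L ^ 1` (`kl1`, `hd.lb`, `hd.lz`, finitely many `t`). Tail: `∑' t, c t - ∑_(t ≤ N) c t` (terms with `t ∉ T` are 0) has norm at most `∑_(t > N) ‖c t‖`, small for large `K ≤ N`; times `3 π ε0`. So the limsup is at most `3 π ε0 (2 (N2 + 1) / K + ∑_(t > N) ‖c t‖)`, for all `K`.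
-/

set_option autoImplicit false

open Filter Topology Polynomial Metric Set MeasureTheory

namespace Pool.Agent.H3.NC

open Pool.Agent.H44.Fatou (rat)
open Pool.Agent.H80.AJ (Br KK)
open Pool.Agent.H61.TT Pool.Agent.H57.CP

variable {a b : Polynomial ℂ}

private theorem meas_ker (β z : ℂ) : Measurable fun x : ℂ => β / (x - z) := by
  fun_prop

/-- the sum of the far residues -/
private theorem far_sum {v x0 : ℂ} {η ε0 : ℝ} {n s : ℕ → ℕ} (hq : SQ a b v η x0 n s) (hε : 2 * ε0 ≤ η)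
    {j N2 N : ℕ} {K : ℝ} (hK : 0 < K)
    (h2 : ∀ k l : ℕ, k < l → l < n j → N2 < l - k →
      ‖ze a b v (n j) (s j) k - ze a b v (n j) (s j) l‖ ≤ η → 2 * Dk a b v k ≤ Dk a b v l)
    (I2 : Finset ℕ) (hI : ∀ k ∈ I2, k < n j ∧ ‖ze a b v (n j) (s j) k‖ ≤ ε0 ∧ s j + N < k ∧
      K * ‖be a b v (s j) k‖ ≤ 1) :
    ∑ k ∈ I2, ‖be a b v (s j) k‖ ≤ 2 * (N2 + 1) * (1 / K) := by
  refine cnt (by positivity) (fun k _ => norm_nonneg _) (fun k hk => ?_) (fun k hk l hl hkl => ?_)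
  · obtain ⟨-, -, -, h4⟩ := hI k hk
    rw [le_div_iff₀ hK, mul_comm]
    exact h4
  · obtain ⟨k1, k2, k3, k4⟩ := hI k hk
    obtain ⟨l1, l2, l3, l4⟩ := hI l hl
    have hkl' : k < l := by omega
    have h3 : ‖ze a b v (n j) (s j) k - ze a b v (n j) (s j) l‖ ≤ η :=
      (norm_sub_le _ _).trans (by linarith)
    have h4 := h2 k l hkl' l1 hkl h3
    have pk := hq.pos j k k1.le
    have pl := hq.pos j l l1.le
    have ps : 0 ≤ ‖tD a b (s j) v‖ := norm_nonneg _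
    unfold be
    rw [norm_div, norm_div]
    unfold Dk at h4 pk pl
    rw [← mul_div_assoc, div_le_div_iff₀ pl pk]
    nlinarith

theorem l1n {v x0 : ℂ} {η ε0 : ℝ} {n s : ℕ → ℕ} {T : Set ℕ} {c : ℕ → ℂ} (hq : SQ a b v η x0 n s) (hε : 2 * ε0 ≤ η)
    (hd : ND a b v n s ε0 T c) : Tendsto (fun j => ∫⁻ x in ball (0 : ℂ) ε0,
      ‖(∑ k ∈ (Finset.range (n j)).filter (fun k => ‖ze a b v (n j) (s j) k‖ ≤ ε0),
        be a b v (s j) k / (x - ze a b v (n j) (s j) k)) - (∑' t, c t) / x‖ₑ) atTop (𝓝 0) := by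
  classical
  obtain ⟨τ, hτ⟩ : ∃ τ : ℂ, τ = ∑' t, c t := ⟨_, rfl⟩
  have hε0 := hd.hε
  obtain ⟨C, hC⟩ : ∃ C : ℝ, C = 3 * Real.pi * ε0 := ⟨_, rfl⟩
  have hC0 : 0 < C := by
    rw [hC]
    positivity
  rw [ENNReal.tendsto_nhds_zero]
  intro e' he'
  -- a real number below
  obtain ⟨e, he, hee⟩ : ∃ e : ℝ, 0 < e ∧ ENNReal.ofReal e ≤ e' := by
    by_cases h : e' = ⊤
    · exact ⟨1, one_pos, by rw [h]; exact le_top⟩
    · exact ⟨e'.toReal, ENNReal.toReal_pos he'.ne' h, (ENNReal.ofReal_toReal h).le⟩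
  obtain ⟨N2, hN2⟩ := hq.lac 2 (by norm_num)
  -- the partial sums
  have hsum : Tendsto (fun m => ∑ i ∈ Finset.range m, c i) atTop (𝓝 τ) := by
    rw [hτ]
    exact hd.sm.of_norm.hasSum.tendsto_sum_nat
  obtain ⟨M0, hM0⟩ := Metric.tendsto_atTop.1 hsum (e / (3 * C)) (by positivity)
  obtain ⟨K, hK⟩ : ∃ K : ℝ, K = max 2 (max (M0 : ℝ) (2 * (N2 + 1) * (3 * C) / e)) := ⟨_, rfl⟩
  have hK2 : 2 ≤ K := by
    rw [hK]
    exact le_max_left _ _
  have hKM : (M0 : ℝ) ≤ K := by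
    rw [hK]
    exact (le_max_left _ _).trans (le_max_right _ _)
  have hKe : 2 * (N2 + 1) * (3 * C) / e ≤ K := by
    rw [hK]
    exact (le_max_right _ _).trans (le_max_right _ _)
  have hK0 : 0 < K := by linarith
  obtain ⟨N, hKN, hN⟩ := hd.ne K hK2
  have hM0N : M0 ≤ N := by
    have : (M0 : ℝ) ≤ N := hKM.trans hKN
    exact_mod_cast this
  obtain ⟨TN, hTN⟩ : ∃ TN : Finset ℕ, TN = (Finset.range (N + 1)).filter (· ∈ T) := ⟨_, rfl⟩
  have hTNm : ∀ t, t ∈ TN ↔ t ≤ N ∧ t ∈ T := by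
    intro t
    rw [hTN, Finset.mem_filter, Finset.mem_range, Nat.lt_succ_iff]
  have hTNsum : ∑ t ∈ TN, c t = ∑ t ∈ Finset.range (N + 1), c t := by
    rw [hTN]
    refine Finset.sum_filter_of_ne ?_
    intro t _ ht
    by_contra h
    exact ht (hd.out t h)
  have hτN : ‖∑ t ∈ TN, c t - τ‖ ≤ e / (3 * C) := by
    rw [hTNsum]
    have := hM0 (N + 1) (by omega)
    rw [dist_eq_norm] at this
    exact this.le
  -- the first part
  have hA : Tendsto (fun j => ∑ t ∈ TN, ∫⁻ x in ball (0 : ℂ) ε0,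
      ‖be a b v (s j) (s j + t) / (x - ze a b v (n j) (s j) (s j + t)) - c t / x‖ₑ) atTop (𝓝 0) := by
    have h1 : Tendsto (fun j => ∑ t ∈ TN, ∫⁻ x in ball (0 : ℂ) ε0,
        ‖be a b v (s j) (s j + t) / (x - ze a b v (n j) (s j) (s j + t)) - c t / x‖ₑ) atTop
        (𝓝 (∑ t ∈ TN, (0 : ENNReal))) := by
      refine tendsto_finsetSum _ fun t ht => ?_
      have htT := ((hTNm t).1 ht).2
      exact kl1 hε0 (hd.lb t htT) (hd.lz t htT)
    rwa [Finset.sum_const_zero] at h1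
  have hA' : ∀ᶠ j in atTop, ∑ t ∈ TN, ∫⁻ x in ball (0 : ℂ) ε0,
      ‖be a b v (s j) (s j + t) / (x - ze a b v (n j) (s j) (s j + t)) - c t / x‖ₑ ≤
        ENNReal.ofReal (e / 3) :=
    (ENNReal.tendsto_nhds_zero.1 hA) _ (ENNReal.ofReal_pos.2 (by positivity))
  -- eventually all the near poles are there
  have hB : ∀ᶠ j in atTop, ∀ t ∈ TN, ‖ze a b v (n j) (s j) (s j + t)‖ ≤ ε0 := by
    rw [Filter.eventually_all_finset]
    intro t ht
    have htT := ((hTNm t).1 ht).2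
    have h1 := (hd.lz t htT).norm
    rw [norm_zero] at h1
    exact (h1.eventually (gt_mem_nhds hε0)).mono fun j hj => hj.le
  have hns : ∀ᶠ j in atTop, N < n j - s j := hq.ns.eventually_gt_atTop N
  filter_upwards [hN2, hN, hA', hB, hns] with j j1 j2 j3 j4 j5
  refine le_trans ?_ hee
  obtain ⟨I, hI⟩ : ∃ I : Finset ℕ, I = (Finset.range (n j)).filter
    (fun k => ‖ze a b v (n j) (s j) k‖ ≤ ε0) := ⟨_, rfl⟩
  rw [← hI, ← hτ]
  have hIm : ∀ k, k ∈ I ↔ k < n j ∧ ‖ze a b v (n j) (s j) k‖ ≤ ε0 := by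
    intro k
    rw [hI, Finset.mem_filter, Finset.mem_range]
  obtain ⟨I2, hI2⟩ : ∃ I2 : Finset ℕ, I2 = I.filter (fun k => s j + N < k) := ⟨_, rfl⟩
  have hI1 : I.filter (fun k => ¬ s j + N < k) = TN.map (addLeftEmbedding (s j)) := by
    ext k
    rw [Finset.mem_filter, hIm, Finset.mem_map]
    constructor
    · rintro ⟨⟨k1, k2⟩, k3⟩
      rcases j2 k k1 k2 with ⟨t, ht, htN, rfl⟩ | ⟨h, -⟩
      · exact ⟨t, (hTNm t).2 ⟨htN, ht⟩, rfl⟩
      · exact absurd h k3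
    · rintro ⟨t, ht, rfl⟩
      have htN := ((hTNm t).1 ht).1
      refine ⟨⟨?_, j4 t ht⟩, ?_⟩
      · change s j + t < n j
        omega
      · change ¬ s j + N < s j + t
        omega
  have hI2m : ∀ k ∈ I2, k < n j ∧ ‖ze a b v (n j) (s j) k‖ ≤ ε0 ∧ s j + N < k ∧
      K * ‖be a b v (s j) k‖ ≤ 1 := by
    intro k hk
    rw [hI2, Finset.mem_filter, hIm] at hk
    obtain ⟨⟨k1, k2⟩, k3⟩ := hk
    refine ⟨k1, k2, k3, ?_⟩
    rcases j2 k k1 k2 with ⟨t, ht, htN, rfl⟩ | ⟨-, h⟩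
    · omega
    · exact h
  have hsumI2 := far_sum hq hε hK0 j1 I2 hI2m
  -- the decomposition
  have hdec : ∀ x : ℂ, (∑ k ∈ I, be a b v (s j) k / (x - ze a b v (n j) (s j) k)) - τ / x =
      (∑ t ∈ TN, (be a b v (s j) (s j + t) / (x - ze a b v (n j) (s j) (s j + t)) - c t / x)) +
        ((∑ t ∈ TN, c t - τ) * x⁻¹ +
          ∑ k ∈ I2, be a b v (s j) k * (x - ze a b v (n j) (s j) k)⁻¹) := by
    intro x
    rw [← Finset.sum_filter_add_sum_filter_not I (fun k => s j + N < k), ← hI2, hI1,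
      Finset.sum_map, Finset.sum_sub_distrib, ← Finset.sum_div]
    simp only [addLeftEmbedding_apply, div_eq_mul_inv, sub_mul]
    ring
  have hbd : ∀ x : ℂ, ‖(∑ k ∈ I, be a b v (s j) k / (x - ze a b v (n j) (s j) k)) - τ / x‖ₑ ≤
      (∑ t ∈ TN, ‖be a b v (s j) (s j + t) / (x - ze a b v (n j) (s j) (s j + t)) - c t / x‖ₑ) +
        (‖∑ t ∈ TN, c t - τ‖ₑ * ‖(x - 0)⁻¹‖ₑ +
          ∑ k ∈ I2, ‖be a b v (s j) k‖ₑ * ‖(x - ze a b v (n j) (s j) k)⁻¹‖ₑ) := by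
    intro x
    rw [hdec x]
    refine (enorm_add_le _ _).trans (add_le_add (enorm_sum_le _ _) ?_)
    refine (enorm_add_le _ _).trans (add_le_add ?_ ?_)
    · rw [enorm_mul, sub_zero]
    · refine (enorm_sum_le _ _).trans (Finset.sum_le_sum fun k _ => ?_)
      rw [enorm_mul]
  have m1 : ∀ t, Measurable fun x : ℂ =>
      ‖be a b v (s j) (s j + t) / (x - ze a b v (n j) (s j) (s j + t)) - c t / x‖ₑ := by
    intro t
    fun_prop
  have m2 : ∀ p : ℂ, Measurable fun x : ℂ => ‖(x - p)⁻¹‖ₑ := by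
    intro p
    fun_prop
  calc ∫⁻ x in ball (0 : ℂ) ε0,
        ‖(∑ k ∈ I, be a b v (s j) k / (x - ze a b v (n j) (s j) k)) - τ / x‖ₑ
      ≤ ∫⁻ x in ball (0 : ℂ) ε0, ((∑ t ∈ TN, ‖be a b v (s j) (s j + t) /
          (x - ze a b v (n j) (s j) (s j + t)) - c t / x‖ₑ) +
        (‖∑ t ∈ TN, c t - τ‖ₑ * ‖(x - 0)⁻¹‖ₑ +
          ∑ k ∈ I2, ‖be a b v (s j) k‖ₑ * ‖(x - ze a b v (n j) (s j) k)⁻¹‖ₑ)) :=
        lintegral_mono hbd
    _ = (∑ t ∈ TN, ∫⁻ x in ball (0 : ℂ) ε0, ‖be a b v (s j) (s j + t) /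
          (x - ze a b v (n j) (s j) (s j + t)) - c t / x‖ₑ) +
        (‖∑ t ∈ TN, c t - τ‖ₑ * (∫⁻ x in ball (0 : ℂ) ε0, ‖(x - 0)⁻¹‖ₑ) +
          ∑ k ∈ I2, ‖be a b v (s j) k‖ₑ * (∫⁻ x in ball (0 : ℂ) ε0,
            ‖(x - ze a b v (n j) (s j) k)⁻¹‖ₑ)) := by
        rw [lintegral_add_left (Finset.measurable_sum _ fun t _ => m1 t),
          lintegral_finsetSum _ fun t _ => m1 t,
          lintegral_add_left ((m2 0).const_mul _),
          lintegral_const_mul _ (m2 0),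
          lintegral_finsetSum _ fun k _ => (m2 _).const_mul _]
        congr 2
        refine Finset.sum_congr rfl fun k _ => ?_
        rw [lintegral_const_mul _ (m2 _)]
    _ ≤ ENNReal.ofReal (e / 3) + (ENNReal.ofReal (e / (3 * C)) * ENNReal.ofReal C +
          ENNReal.ofReal (2 * (N2 + 1) * (1 / K)) * ENNReal.ofReal C) := by
        refine add_le_add j3 (add_le_add ?_ ?_)
        · refine mul_le_mul' ?_ ?_
          · rw [← ofReal_norm]
            exact ENNReal.ofReal_le_ofReal hτN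
          · rw [hC]
            exact kin_ball 0 hε0
        · calc ∑ k ∈ I2, ‖be a b v (s j) k‖ₑ * ∫⁻ x in ball (0 : ℂ) ε0,
                ‖(x - ze a b v (n j) (s j) k)⁻¹‖ₑ
              ≤ ∑ k ∈ I2, ‖be a b v (s j) k‖ₑ * ENNReal.ofReal C := by
                refine Finset.sum_le_sum fun k _ => mul_le_mul' le_rfl ?_
                rw [hC]
                exact kin_ball _ hε0
            _ = (∑ k ∈ I2, ‖be a b v (s j) k‖ₑ) * ENNReal.ofReal C := by
                rw [Finset.sum_mul]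
            _ ≤ ENNReal.ofReal (2 * (N2 + 1) * (1 / K)) * ENNReal.ofReal C := by
                refine mul_le_mul' ?_ le_rfl
                have h1 : ∑ k ∈ I2, ‖be a b v (s j) k‖ₑ =
                    ENNReal.ofReal (∑ k ∈ I2, ‖be a b v (s j) k‖) := by
                  rw [ENNReal.ofReal_sum_of_nonneg fun k _ => norm_nonneg _]
                  refine Finset.sum_congr rfl fun k _ => ?_
                  rw [ofReal_norm]
                rw [h1]
                exact ENNReal.ofReal_le_ofReal hsumI2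
    _ ≤ ENNReal.ofReal e := by
        rw [← ENNReal.ofReal_mul (by positivity), ← ENNReal.ofReal_mul (by positivity),
          ← ENNReal.ofReal_add (by positivity) (by positivity),
          ← ENNReal.ofReal_add (by positivity) (by positivity)]
        refine ENNReal.ofReal_le_ofReal ?_
        have h1 : e / (3 * C) * C = e / 3 := by
          field_simp
        have h2 : 2 * ((N2 : ℝ) + 1) * (1 / K) * C ≤ e / 3 := by
          rw [div_le_iff₀ he] at hKe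
          have h3 : 2 * ((N2 : ℝ) + 1) * (1 / K) * C = (2 * (N2 + 1) * (3 * C)) / (3 * K) := by
            field_simp
          rw [h3, div_le_div_iff₀ (by positivity) (by norm_num)]
          nlinarith
        linarith

end Pool.Agent.H3.NC
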