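import Mathlib

/-!
# Module FAR: the far poles are an affine function plus a bounded function times `x ^ 2`

PROOF. For `a = ζ k`, `x ≠ a`, `a ≠ 0`: `1 / (x - a) = - 1 / a - x / a ^ 2 + x ^ 2 / (a ^ 2 (x - a))` (`field_simp; ring`). So `A = - ∑ β k / ζ k`, `B = - ∑ β k / ζ k ^ 2`, `R x = ∑ β k / (ζ k ^ 2 (x - ζ k))`.
For `‖x‖ < ε0 / 2`: `‖x - ζ k‖ ≥ ‖ζ k‖ - ε0 / 2 ≥ ‖ζ k‖ / 2`, so `‖R x‖ ≤ ∑ 2 ‖β k‖ / ‖ζ k‖ ^ 3 ≤ 2 C`; differentiable: the denominators are not 0.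
-/

set_option autoImplicit false

open Metric

namespace Pool.Agent.H3.NC

theorem far_exp {I : Finset ℕ} {β ζ : ℕ → ℂ} {ε0 C : ℝ} (hε : 0 < ε0) (hI : ∀ k ∈ I, ε0 < ‖ζ k‖)
    (hC : ∑ k ∈ I, ‖β k‖ / ‖ζ k‖ ^ 3 ≤ C) : ∃ (A B : ℂ) (R : ℂ → ℂ), DifferentiableOn ℂ R (ball 0 (ε0 / 2)) ∧
      (∀ x ∈ ball (0 : ℂ) (ε0 / 2), ‖R x‖ ≤ 2 * C) ∧
      ∀ x ∈ ball (0 : ℂ) (ε0 / 2), ∑ k ∈ I, β k / (x - ζ k) = A + B * x + x ^ 2 * R x := by
  have hne : ∀ k ∈ I, ζ k ≠ 0 := by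
    intro k hk h0
    have := hI k hk
    rw [h0, norm_zero] at this
    linarith
  have hlow : ∀ x ∈ ball (0 : ℂ) (ε0 / 2), ∀ k ∈ I, ‖ζ k‖ / 2 ≤ ‖x - ζ k‖ := by
    intro x hx k hk
    have h1 : ‖x‖ < ε0 / 2 := by simpa using hx
    have h2 := hI k hk
    have h3 : ‖ζ k‖ - ‖x‖ ≤ ‖ζ k - x‖ := norm_sub_norm_le _ _
    rw [norm_sub_rev] at h3
    linarith
  have hpos : ∀ k ∈ I, 0 < ‖ζ k‖ := fun k hk => norm_pos_iff.2 (hne k hk)
  have hxne : ∀ x ∈ ball (0 : ℂ) (ε0 / 2), ∀ k ∈ I, x - ζ k ≠ 0 := by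
    intro x hx k hk h0
    have := hlow x hx k hk
    rw [h0, norm_zero] at this
    linarith [hpos k hk]
  refine ⟨- ∑ k ∈ I, β k / ζ k, - ∑ k ∈ I, β k / ζ k ^ 2,
    fun x => ∑ k ∈ I, β k / (ζ k ^ 2 * (x - ζ k)), ?_, ?_, ?_⟩
  · apply DifferentiableOn.fun_sum
    intro k hk
    apply DifferentiableOn.fun_div (differentiableOn_const _)
    · exact ((differentiableOn_id.sub (differentiableOn_const _)).const_mul _)
    · intro x hx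
      exact mul_ne_zero (pow_ne_zero 2 (hne k hk)) (hxne x hx k hk)
  · intro x hx
    calc ‖∑ k ∈ I, β k / (ζ k ^ 2 * (x - ζ k))‖ ≤ ∑ k ∈ I, ‖β k / (ζ k ^ 2 * (x - ζ k))‖ := norm_sum_le _ _
      _ ≤ ∑ k ∈ I, 2 * (‖β k‖ / ‖ζ k‖ ^ 3) := by
          apply Finset.sum_le_sum
          intro k hk
          rw [norm_div, norm_mul, norm_pow]
          have h1 := hlow x hx k hk
          have h2 := hpos k hk
          have h3 : 0 < ‖x - ζ k‖ := lt_of_lt_of_le (by positivity) h1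
          rw [div_le_iff₀ (by positivity)]
          have h4 : 2 * (‖β k‖ / ‖ζ k‖ ^ 3) * (‖ζ k‖ ^ 2 * ‖x - ζ k‖) = ‖β k‖ * (2 * ‖x - ζ k‖ / ‖ζ k‖) := by
            field_simp
          rw [h4]
          have h5 : 1 ≤ 2 * ‖x - ζ k‖ / ‖ζ k‖ := by
            rw [le_div_iff₀ h2]
            linarith
          nlinarith [norm_nonneg (β k)]
      _ = 2 * ∑ k ∈ I, ‖β k‖ / ‖ζ k‖ ^ 3 := by rw [Finset.mul_sum]
      _ ≤ 2 * C := by linarith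
  · intro x hx
    have hterm : ∀ k ∈ I, β k / (x - ζ k) = -(β k / ζ k) + -(β k / ζ k ^ 2) * x + x ^ 2 * (β k / (ζ k ^ 2 * (x - ζ k))) := by
      intro k hk
      have h1 := hne k hk
      have h2 := hxne x hx k hk
      field_simp
      ring
    rw [Finset.sum_congr rfl hterm, Finset.sum_add_distrib, Finset.sum_add_distrib, Finset.sum_neg_distrib,
      ← Finset.sum_mul, Finset.sum_neg_distrib, ← Finset.mul_sum]

end Pool.Agent.H3.NC
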