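import Pool.Agent.H57.CP.BRA
import Pool.Agent.H61.TT.Lagr
import Pool.Agent.H61.TT.Area

/-!
# THEOREM NC (no conical critical value, Julia set not the sphere): definitions

`a / b` is a rational map of degree `d` in the plane (`gg a b`, derivative `dg a b`), `tD a b k z` the derivative of its `k`-th iterate (H57/CP).
`NS`: the planar setting. `J` (the Julia set) is a closed bounded forward invariant set in the plane, a neighbourhood of infinity is never mapped close to `J`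
(`bd`: all backward orbits of points of the `δ0`-neighbourhood of `J` are in `closedBall 0 R0`), high iterates are not injective on discs centred in `J` (`ni`), all cycles in `J` are repelling (`rep`),
there are wandering discs arbitrarily close to every point of `J` (`wan`). `D` is the degree of the vector fields of the family: `2 d`, or `2 d - m` in the families `R(d,m)`; `lg`: Lagrange identity.
`Lam η c n = ∑_(k ≤ n) (η / b ^ 2)(g^k c) / (g^k)'(g c)`. `Pas`: the critical point `c` is passive: the velocities `(g^n)'(v) Lam η c n` of `g^n(v)`, `v = g c`, are bounded.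
`P k = g^k v`, `Dk k = |(g^k)'(v)|`. `Cal n G`: `n` is a conical time: `G` is a branch of `g^(-n)` on `ball (P n) δ` with `G (P n) = v`.
-/

set_option autoImplicit false

open Filter Topology Polynomial Metric Set MeasureTheory

namespace Pool.Agent.H3.NC

open Pool.Agent.H44.Fatou (rat)
open Pool.Agent.H80.AJ (Br KK)
open Pool.Agent.H61.TT Pool.Agent.H57.CP

/-- the planar setting -/
structure NS (d D : ℕ) (a b : Polynomial ℂ) (J : Set ℂ) (δ0 R0 : ℝ) : Prop where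
  rt : RatD d a b
  Jc : IsClosed J
  Jn : ∀ z ∈ J, b.eval z ≠ 0
  Ji : ∀ z ∈ J, gg a b z ∈ J
  hδ0 : 0 < δ0
  bd : ∀ (n : ℕ) (x : OnePoint ℂ), (∃ y ∈ J, ∃ w ∈ ball y δ0, (rat a b)^[n] x = (w : OnePoint ℂ)) →
    ∃ z : ℂ, x = (z : OnePoint ℂ) ∧ ‖z‖ ≤ R0
  ni : ∀ y ∈ J, ∀ ρ : ℝ, 0 < ρ → ∃ N : ℕ, ∀ m : ℕ, N < m →
    ¬ InjOn (fun z : ℂ => (rat a b)^[m] (z : OnePoint ℂ)) (ball y ρ)
  rep : ∀ x ∈ J, ∀ p : ℕ, 0 < p → (gg a b)^[p] x = x → 1 < ‖tD a b p x‖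
  wan : ∀ y ∈ J, ∀ ε : ℝ, 0 < ε → ∃ (w : ℂ) (r : ℝ), 0 < r ∧ ball w r ⊆ ball y ε ∧
    ∀ m : ℕ, 0 < m → ∀ z ∈ ball w r, ∀ z' ∈ ball w r, (rat a b)^[m] (z : OnePoint ℂ) ≠ (z' : OnePoint ℂ)
  lg : ∀ x : ℂ, RegV d a b x → ∃ η : Polynomial ℂ, η.natDegree ≤ D ∧ ∀ z : ℂ, b.eval z ≠ 0 → gg a b z ≠ x →
    ∑ y ∈ fs a b x, dg a b z / ((y - z) * dg a b y ^ 2) = 1 / (x - gg a b z) + η.eval z / b.eval z ^ 2

/-- the vector field `η / b ^ 2` summed along the orbit of `c` -/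
noncomputable def Lam (a b η : Polynomial ℂ) (c : ℂ) (n : ℕ) : ℂ :=
  ∑ k ∈ Finset.range (n + 1), η.eval ((gg a b)^[k] c) / b.eval ((gg a b)^[k] c) ^ 2 / tD a b k (gg a b c)

/-- the critical point `c` is passive -/
def Pas (D : ℕ) (a b : Polynomial ℂ) (c : ℂ) : Prop :=
  ∀ η : Polynomial ℂ, η.natDegree ≤ D → ∃ C : ℝ, ∀ n : ℕ, ‖Lam a b η c n‖ * ‖tD a b n (gg a b c)‖ ≤ C

/-- a conical time of `v`, with its branch -/
def Cal (a b : Polynomial ℂ) (v : ℂ) (δ : ℝ) (n : ℕ) (G : ℂ → ℂ) : Prop :=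
  Br (rat a b) n ((gg a b)^[n] v) δ v G

/-- `|(g^k)'(v)|` -/
noncomputable def Dk (a b : Polynomial ℂ) (v : ℂ) (k : ℕ) : ℝ := ‖tD a b k v‖

/-- the residues at the time `s` -/
noncomputable def be (a b : Polynomial ℂ) (v : ℂ) (s k : ℕ) : ℂ := tD a b s v / tD a b k v

/-- the poles at the time `s` in the scale `Dk s / Dk n` -/
noncomputable def ze (a b : Polynomial ℂ) (v : ℂ) (n s k : ℕ) : ℂ :=
  ((gg a b)^[k] v - (gg a b)^[s] v) / ((Dk a b v s / Dk a b v n : ℝ) : ℂ)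

/-- the function `A_n` -/
noncomputable def An (a b : Polynomial ℂ) (v : ℂ) (n : ℕ) (x : ℂ) : ℂ :=
  ∑ k ∈ Finset.range n, (tD a b k v)⁻¹ / (x - (gg a b)^[k] v)

/-- a sequence of conical times `n j` with the record times `s j < n j` (`Dk (s j)` is minimal) -/
structure SQ (a b : Polynomial ℂ) (v : ℂ) (η : ℝ) (x0 : ℂ) (n s : ℕ → ℕ) : Prop where
  hη : 0 < η
  lt : ∀ j, s j < n j
  pos : ∀ j k, k ≤ n j → 0 < Dk a b v k
  mn : ∀ j k, k < n j → Dk a b v (s j) ≤ Dk a b v k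
  r0 : Tendsto (fun j => Dk a b v (s j) / Dk a b v (n j)) atTop (𝓝 0)
  ns : Tendsto (fun j => n j - s j) atTop atTop
  x0 : Tendsto (fun j => (gg a b)^[s j] v) atTop (𝓝 x0)
  lac : ∀ K : ℝ, 1 ≤ K → ∃ N : ℕ, ∀ᶠ j in atTop, ∀ k l : ℕ, k < l → l < n j → N < l - k →
    ‖ze a b v (n j) (s j) k - ze a b v (n j) (s j) l‖ ≤ η → K * Dk a b v k ≤ Dk a b v l

/-- the structure of the poles near `0`: `T` the offsets of the poles which remain, with limits `c t` of the residues -/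
structure ND (a b : Polynomial ℂ) (v : ℂ) (n s : ℕ → ℕ) (ε0 : ℝ) (T : Set ℕ) (c : ℕ → ℂ) : Prop where
  hε : 0 < ε0
  sm : Summable fun t => ‖c t‖
  tau : ∑' t, c t ≠ 0
  out : ∀ t, t ∉ T → c t = 0
  lb : ∀ t ∈ T, Tendsto (fun j => be a b v (s j) (s j + t)) atTop (𝓝 (c t))
  lz : ∀ t ∈ T, Tendsto (fun j => ze a b v (n j) (s j) (s j + t)) atTop (𝓝 0)
  ne : ∀ K : ℝ, 2 ≤ K → ∃ N : ℕ, K ≤ N ∧ ∀ᶠ j in atTop, ∀ k < n j, ‖ze a b v (n j) (s j) k‖ ≤ ε0 →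
    (∃ t ∈ T, t ≤ N ∧ k = s j + t) ∨ (s j + N < k ∧ K * ‖be a b v (s j) k‖ ≤ 1)

end Pool.Agent.H3.NC
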