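import Mathlib
import Pool.Agent.H44.DN.NNL

/-!
# Module LMQ: the compactness argument

PROOF. Suppose the integrals tend to `0`. `c j = max 1 (max ‖A j‖ ‖B j‖)`, `F j x = (τ + A j x + B j x ^ 2 + x ^ 3 R j x) / c j`: holomorphic on `ball 0 r`, bounded by `C' = ‖τ‖ + r + r ^ 2 + r ^ 3 C` (`C ≥ 0` may be assumed), and the integrals of `‖F j‖` over
`ball w ρ` tend to `0` (`c j ≥ 1`). The vector `(τ / c j, A j / c j, B j / c j)` has a coordinate of norm at least `min 1 ‖τ‖`; these are the first three Taylor coefficients of `F j` at `0`.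
Version without Montel: the Taylor coefficients `a j i` of `F j` satisfy `‖a j i‖ ≤ C' / r' ^ i` for every `r' < r` (Cauchy: `Complex.norm_iteratedDeriv_le_of_forall_mem_sphere_norm_le` or `DifferentiableOn.hasFPowerSeriesOnBall`, `norm_cauchyPowerSeries_le`), so `‖a j i‖ ≤ C' / r ^ i`: the sequences `a j` are in the compact product
`∏_i closedBall 0 (C' / r ^ i)` (`isCompact_univ_pi`, sequentially compact: first countable), a subsequence converges coordinatewise to `a`. `F x = ∑' a i x ^ i` is holomorphic on `ball 0 r`, `F j → F` locally uniformly (or pointwise on `ball 0 r`, by dominated convergence for sums,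
`tendsto_tsum_of_dominated_convergence`), so `∫ over ball w ρ of ‖F‖ = 0` (bounded convergence or Fatou: `lintegral_liminf_le`), `F = 0` on `ball w ρ` (continuous), so `F = 0` on `ball 0 r` (identity theorem: `AnalyticOnNhd.eqOn_of_preconnected_of_eventuallyEq`), so `a i = 0` for all `i`
(uniqueness of the power series), against the lower bound for one of `a j 0, a j 1, a j 2`. (If the library has Montel for bounded sequences on a disc, use it: `grep -rn Montel`.)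
-/

set_option autoImplicit false

open Filter Topology Metric MeasureTheory

namespace Pool.Agent.H3.NC

open Set in

/-- An affine function plus a bounded holomorphic remainder of third order, with a fixed nonzero constant term, is not small in the mean on a disc: quantitative form. -/
private theorem end_lower {R C : ℝ} (hR : 0 < R) {τ z1 : ℂ} {ρ : ℝ} (hρ : 0 < ρ) (hτ : τ ≠ 0)
    (hS : ball z1 ρ ⊆ ball 0 R) :
    ∃ ε : ℝ, 0 < ε ∧ ∀ (a b : ℂ) (f : ℂ → ℂ), DifferentiableOn ℂ f (ball 0 R) →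
      (∀ z ∈ ball (0:ℂ) R, ‖f z‖ ≤ C) →
      ε ≤ ∫ z in ball z1 ρ, ‖τ + a * z + b * z ^ 2 + z ^ 3 * f z‖ := by
  by_contra hcon
  push Not at hcon
  have h1 : ∀ k : ℕ, ∃ (a b : ℂ) (f : ℂ → ℂ), DifferentiableOn ℂ f (ball 0 R) ∧
      (∀ z ∈ ball (0:ℂ) R, ‖f z‖ ≤ C) ∧
      (∫ z in ball z1 ρ, ‖τ + a * z + b * z ^ 2 + z ^ 3 * f z‖) < 1 / ((k:ℝ) + 1) := by
    intro k
    exact hcon (1 / ((k:ℝ) + 1)) (by positivity)
  choose a b f hf hfC hint using h1
  have hC0 : 0 ≤ C := le_trans (norm_nonneg _) (hfC 0 0 (mem_ball_self hR))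
  set M : ℕ → ℝ := fun k => max 1 (max ‖a k‖ ‖b k‖) with hM
  have hM1 : ∀ k, 1 ≤ M k := fun k => le_max_left _ _
  have hMa : ∀ k, ‖a k‖ ≤ M k := fun k => (le_max_left _ _).trans (le_max_right _ _)
  have hMb : ∀ k, ‖b k‖ ≤ M k := fun k => (le_max_right _ _).trans (le_max_right _ _)
  have hMpos : ∀ k, 0 < M k := fun k => lt_of_lt_of_le one_pos (hM1 k)
  have hMi : ∀ k, (M k)⁻¹ ≤ 1 := fun k => inv_le_one_of_one_le₀ (hM1 k)
  have hMi0 : ∀ k, 0 ≤ (M k)⁻¹ := fun k => (inv_pos.2 (hMpos k)).le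
  set u : ℕ → ℝ × ℂ × ℂ := fun k => ((M k)⁻¹, a k * ((M k)⁻¹ : ℝ), b k * ((M k)⁻¹ : ℝ)) with hu
  have hnr : ∀ k, ∀ w : ℂ, ‖w * ((M k)⁻¹ : ℝ)‖ = ‖w‖ * (M k)⁻¹ := by
    intro k w
    rw [norm_mul, Complex.norm_real, Real.norm_eq_abs, abs_of_nonneg (hMi0 k)]
  -- a radius which contains a subdisc of `ball z1 ρ` and the origin
  have hz1 : z1 ∈ ball (0:ℂ) R := hS (mem_ball_self hρ)
  rw [mem_ball_zero_iff] at hz1
  obtain ⟨R', hR'0, hR'R, ρ2, hρ2, hsub1, hsub2⟩ : ∃ R' : ℝ, 0 < R' ∧ R' < R ∧ ∃ ρ2 : ℝ,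
      0 < ρ2 ∧ ball z1 ρ2 ⊆ ball z1 ρ ∧ ball z1 ρ2 ⊆ ball 0 R' := by
    refine ⟨(R + ‖z1‖) / 2, by have := norm_nonneg z1; linarith, by linarith,
      min (ρ / 2) ((R - ‖z1‖) / 4), lt_min (by linarith) (by linarith), ?_, ?_⟩
    · refine ball_subset_ball ((min_le_left _ _).trans (by linarith))
    · intro w hw
      rw [mem_ball] at hw
      rw [mem_ball_zero_iff]
      have h2 : dist w z1 < (R - ‖z1‖) / 4 := lt_of_lt_of_le hw (min_le_right _ _)
      have h3 : ‖w‖ ≤ dist w z1 + ‖z1‖ := by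
        rw [dist_eq_norm]
        calc ‖w‖ = ‖(w - z1) + z1‖ := by ring_nf
          _ ≤ _ := norm_add_le _ _
      linarith
  set F : ℕ → ℂ → ℂ := fun k z => f k z * ((M k)⁻¹ : ℝ) with hF
  obtain ⟨σ, g, hσ, hgd, hlim⟩ := Pool.Agent.H44.DN.montel1 (F := F) (x := 0) (ρ := R) (ρ' := R')
    (B := C) hR'0 hR'R (fun k => (hf k).mul_const _) (by
      intro k z hz
      rw [hF]
      simp only
      rw [hnr]
      calc ‖f k z‖ * (M k)⁻¹ ≤ C * 1 := mul_le_mul (hfC k z hz) (hMi k) (hMi0 k) hC0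
        _ = C := mul_one _)
  have hK : IsCompact (Icc (0:ℝ) 1 ×ˢ (closedBall (0:ℂ) 1 ×ˢ closedBall (0:ℂ) 1)) :=
    isCompact_Icc.prod ((isCompact_closedBall _ _).prod (isCompact_closedBall _ _))
  have huK : ∀ k, u (σ k) ∈ Icc (0:ℝ) 1 ×ˢ (closedBall (0:ℂ) 1 ×ˢ closedBall (0:ℂ) 1) := by
    intro k
    refine ⟨⟨hMi0 _, hMi _⟩, ?_, ?_⟩
    · rw [mem_closedBall_zero_iff]
      change ‖a (σ k) * ((M (σ k))⁻¹ : ℝ)‖ ≤ 1
      rw [hnr, ← div_eq_mul_inv, div_le_one (hMpos _)]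
      exact hMa _
    · rw [mem_closedBall_zero_iff]
      change ‖b (σ k) * ((M (σ k))⁻¹ : ℝ)‖ ≤ 1
      rw [hnr, ← div_eq_mul_inv, div_le_one (hMpos _)]
      exact hMb _
  obtain ⟨⟨m, a0, b0⟩, -, φ, hφ, hφlim⟩ := hK.tendsto_subseq huK
  set s : ℕ → ℕ := fun k => σ (φ k) with hs
  have hsm : StrictMono s := hσ.comp hφ
  have hm : Tendsto (fun k => (M (s k))⁻¹) atTop (𝓝 m) := (continuous_fst.tendsto _).comp hφlim
  have ha : Tendsto (fun k => a (s k) * ((M (s k))⁻¹ : ℝ)) atTop (𝓝 a0) :=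
    ((continuous_fst.comp continuous_snd).tendsto _).comp hφlim
  have hb : Tendsto (fun k => b (s k) * ((M (s k))⁻¹ : ℝ)) atTop (𝓝 b0) :=
    ((continuous_snd.comp continuous_snd).tendsto _).comp hφlim
  have hg : ∀ z ∈ ball (0:ℂ) R', Tendsto (fun k => F (s k) z) atTop (𝓝 (g z)) := by
    intro z hz
    have h2 : Tendsto (fun k : ℕ => ((φ k, z) : ℕ × ℂ)) atTop (atTop ×ˢ 𝓝 z) :=
      hφ.tendsto_atTop.prodMk tendsto_const_nhds
    exact (hlim z hz).comp h2
  set T : ℂ → ℂ := fun z => τ * m + a0 * z + b0 * z ^ 2 + z ^ 3 * g z with hT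
  set G : ℕ → ℂ → ℂ := fun k z => τ * ((M (s k))⁻¹ : ℝ) + (a (s k) * ((M (s k))⁻¹ : ℝ)) * z
    + (b (s k) * ((M (s k))⁻¹ : ℝ)) * z ^ 2 + z ^ 3 * F (s k) z with hG
  have hGe : ∀ k z, G k z = (τ + a (s k) * z + b (s k) * z ^ 2 + z ^ 3 * f (s k) z) * ((M (s k))⁻¹ : ℝ) := by
    intro k z
    rw [hG, hF]
    simp only
    ring
  have hTd : DifferentiableOn ℂ T (ball 0 R') := by
    have h2 : DifferentiableOn ℂ (fun z : ℂ => τ * m + a0 * z + b0 * z ^ 2) (ball 0 R') := by fun_prop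
    exact h2.add (DifferentiableOn.mul (by fun_prop) hgd)
  have hcont : ∀ k, ContinuousOn (fun z : ℂ => ‖τ + a k * z + b k * z ^ 2 + z ^ 3 * f k z‖) (ball 0 R) := by
    intro k
    refine ContinuousOn.norm ?_
    refine ContinuousOn.add (by fun_prop) (ContinuousOn.mul (by fun_prop) (hf k).continuousOn)
  have hbd : ∀ k, ∀ z ∈ ball (0:ℂ) R, ‖τ + a k * z + b k * z ^ 2 + z ^ 3 * f k z‖
      ≤ M k * (‖τ‖ + R + R ^ 2 + R ^ 3 * C) := by
    intro k z hz
    have hzR : ‖z‖ ≤ R := by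
      rw [mem_ball_zero_iff] at hz
      exact hz.le
    have e1 : ‖τ + a k * z + b k * z ^ 2 + z ^ 3 * f k z‖ ≤ ‖τ‖ + ‖a k‖ * ‖z‖ + ‖b k‖ * ‖z‖ ^ 2 + ‖z‖ ^ 3 * ‖f k z‖ := by
      refine (norm_add_le _ _).trans ?_
      refine add_le_add ((norm_add_le _ _).trans (add_le_add ((norm_add_le _ _).trans (add_le_add le_rfl ?_)) ?_)) ?_
      · rw [norm_mul]
      · rw [norm_mul, norm_pow]
      · rw [norm_mul, norm_pow]
    refine e1.trans ?_
    have e2 : ‖a k‖ * ‖z‖ ≤ M k * R := mul_le_mul (hMa k) hzR (norm_nonneg _) (hMpos k).le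
    have e3 : ‖b k‖ * ‖z‖ ^ 2 ≤ M k * R ^ 2 :=
      mul_le_mul (hMb k) (pow_le_pow_left₀ (norm_nonneg _) hzR 2) (by positivity) (hMpos k).le
    have e4 : ‖z‖ ^ 3 * ‖f k z‖ ≤ R ^ 3 * C :=
      mul_le_mul (pow_le_pow_left₀ (norm_nonneg _) hzR 3) (hfC k z hz) (norm_nonneg _) (by positivity)
    have e5 : R ^ 3 * C ≤ M k * (R ^ 3 * C) := by
      have : 0 ≤ R ^ 3 * C := by positivity
      nlinarith [hM1 k]
    have e6 : ‖τ‖ ≤ M k * ‖τ‖ := by nlinarith [hM1 k, norm_nonneg τ]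
    nlinarith
  set B : ℝ := ‖τ‖ + R + R ^ 2 + R ^ 3 * C with hB
  have hGB : ∀ k, ∀ z ∈ ball (0:ℂ) R, ‖G k z‖ ≤ B := by
    intro k z hz
    rw [hGe, hnr, ← div_eq_mul_inv, div_le_iff₀ (hMpos _), mul_comm B]
    exact hbd _ z hz
  have hfin : volume (ball z1 ρ2) < ⊤ := measure_ball_lt_top
  have hfin' : volume (ball z1 ρ) < ⊤ := measure_ball_lt_top
  -- the integrals tend to zero
  have hI0 : Tendsto (fun k => ∫ z in ball z1 ρ2, ‖G k z‖) atTop (𝓝 0) := by
    refine squeeze_zero (fun k => integral_nonneg fun z => norm_nonneg _) (fun k => ?_)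
      (tendsto_one_div_add_atTop_nhds_zero_nat (𝕜 := ℝ))
    have hint2 : IntegrableOn (fun z : ℂ => ‖τ + a (s k) * z + b (s k) * z ^ 2 + z ^ 3 * f (s k) z‖)
        (ball z1 ρ) := by
      refine IntegrableOn.of_bound hfin'
        (((hcont (s k)).mono hS).aestronglyMeasurable measurableSet_ball) (M (s k) * B) ?_
      refine (ae_restrict_iff' measurableSet_ball).2 (Eventually.of_forall fun z hz => ?_)
      rw [norm_norm]
      exact hbd _ z (hS hz)
    calc (∫ z in ball z1 ρ2, ‖G k z‖)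
        ≤ ∫ z in ball z1 ρ2, ‖τ + a (s k) * z + b (s k) * z ^ 2 + z ^ 3 * f (s k) z‖ := by
          refine integral_mono_of_nonneg (Eventually.of_forall fun z => norm_nonneg _)
            (hint2.mono_set hsub1) (Eventually.of_forall fun z => ?_)
          change ‖G k z‖ ≤ _
          rw [hGe, hnr]
          calc _ ≤ ‖τ + a (s k) * z + b (s k) * z ^ 2 + z ^ 3 * f (s k) z‖ * 1 :=
              mul_le_mul_of_nonneg_left (hMi _) (norm_nonneg _)
            _ = _ := mul_one _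
      _ ≤ ∫ z in ball z1 ρ, ‖τ + a (s k) * z + b (s k) * z ^ 2 + z ^ 3 * f (s k) z‖ :=
          setIntegral_mono_set hint2 (Eventually.of_forall fun z => norm_nonneg _)
            (LE.le.eventuallyLE hsub1)
      _ ≤ 1 / (((s k : ℕ) : ℝ) + 1) := (hint (s k)).le
      _ ≤ 1 / ((k:ℝ) + 1) := by
          have h3 : (k:ℝ) ≤ ((s k : ℕ) : ℝ) := by exact_mod_cast hsm.id_le k
          gcongr
  have hIT : Tendsto (fun k => ∫ z in ball z1 ρ2, ‖G k z‖) atTop (𝓝 (∫ z in ball z1 ρ2, ‖T z‖)) := by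
    refine tendsto_integral_of_dominated_convergence (fun _ => B) ?_ ?_ ?_ ?_
    · intro k
      have h4 : ContinuousOn (fun z => ‖G k z‖) (ball z1 ρ2) := by
        have h5 : ContinuousOn (fun z => ‖τ + a (s k) * z + b (s k) * z ^ 2 + z ^ 3 * f (s k) z‖ * (M (s k))⁻¹)
            (ball z1 ρ2) := (((hcont (s k)).mono hS).mono hsub1).mul continuousOn_const
        refine h5.congr fun z hz => ?_
        simp only
        rw [hGe, hnr]
      exact h4.aestronglyMeasurable measurableSet_ball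
    · exact integrableOn_const hfin.ne
    · intro k
      refine (ae_restrict_iff' measurableSet_ball).2 (Eventually.of_forall fun z hz => ?_)
      rw [norm_norm]
      exact hGB k z (hS (hsub1 hz))
    · refine (ae_restrict_iff' measurableSet_ball).2 (Eventually.of_forall fun z hz => ?_)
      have hz' : z ∈ ball (0:ℂ) R' := hsub2 hz
      have hm' : Tendsto (fun k => (((M (s k))⁻¹ : ℝ) : ℂ)) atTop (𝓝 (m : ℂ)) :=
        (Complex.continuous_ofReal.tendsto _).comp hm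
      exact ((((tendsto_const_nhds.mul hm').add (ha.mul tendsto_const_nhds)).add
        (hb.mul tendsto_const_nhds)).add (tendsto_const_nhds.mul (hg z hz'))).norm
  have hT0 : (∫ z in ball z1 ρ2, ‖T z‖) = 0 := tendsto_nhds_unique hIT hI0
  have hTc : ContinuousOn T (ball z1 ρ2) := hTd.continuousOn.mono hsub2
  have hTint : IntegrableOn (fun z => ‖T z‖) (ball z1 ρ2) := by
    refine IntegrableOn.of_bound hfin
      (hTc.norm.aestronglyMeasurable measurableSet_ball) B ?_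
    refine (ae_restrict_iff' measurableSet_ball).2 (Eventually.of_forall fun z hz => ?_)
    rw [norm_norm]
    have hz' : z ∈ ball (0:ℂ) R' := hsub2 hz
    have hm' : Tendsto (fun k => (((M (s k))⁻¹ : ℝ) : ℂ)) atTop (𝓝 (m : ℂ)) :=
      (Complex.continuous_ofReal.tendsto _).comp hm
    have h6 : Tendsto (fun k => ‖G k z‖) atTop (𝓝 ‖T z‖) :=
      ((((tendsto_const_nhds.mul hm').add (ha.mul tendsto_const_nhds)).add
        (hb.mul tendsto_const_nhds)).add (tendsto_const_nhds.mul (hg z hz'))).norm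
    exact le_of_tendsto h6 (Eventually.of_forall fun k => hGB k z (hS (hsub1 hz)))
  have hTz : ∀ z ∈ ball z1 ρ2, T z = 0 := by
    have h7 : (fun z => ‖T z‖) =ᵐ[volume.restrict (ball z1 ρ2)] 0 :=
      (setIntegral_eq_zero_iff_of_nonneg_ae (Eventually.of_forall fun z => norm_nonneg _) hTint).1 hT0
    have h8 : T =ᵐ[volume.restrict (ball z1 ρ2)] (fun _ => (0:ℂ)) := by
      filter_upwards [h7] with z hz
      simpa using hz
    exact Measure.eqOn_open_of_ae_eq h8 isOpen_ball hTc continuousOn_const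
  have hTall : EqOn T 0 (ball 0 R') := by
    have han : AnalyticOnNhd ℂ T (ball 0 R') := hTd.analyticOnNhd isOpen_ball
    refine han.eqOn_zero_of_preconnected_of_eventuallyEq_zero (z₀ := z1)
      (convex_ball _ _).isPreconnected (hsub2 (mem_ball_self hρ2)) ?_
    filter_upwards [ball_mem_nhds z1 hρ2] with z hz
    exact hTz z hz
  -- the coefficients
  have h00 : (0:ℂ) ∈ ball (0:ℂ) R' := mem_ball_self hR'0
  have hτm : τ * m = 0 := by
    have := hTall h00
    simpa [hT] using this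
  have hm0 : m = 0 := by
    have := (mul_eq_zero.1 hτm).resolve_left hτ
    exact_mod_cast this
  have hgc : ContinuousAt g 0 := (hgd.continuousOn).continuousAt (ball_mem_nhds _ hR'0)
  have ha0 : a0 = 0 := by
    have h9 : ContinuousAt (fun z : ℂ => a0 + b0 * z + z ^ 2 * g z) 0 :=
      (by fun_prop : ContinuousAt (fun z : ℂ => a0 + b0 * z) 0).add
        ((by fun_prop : ContinuousAt (fun z : ℂ => z ^ 2) 0).mul hgc)
    have h10 : Tendsto (fun z : ℂ => a0 + b0 * z + z ^ 2 * g z) (𝓝[≠] 0) (𝓝 a0) := by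
      have := h9.tendsto.mono_left (nhdsWithin_le_nhds (s := {(0:ℂ)}ᶜ))
      simpa using this
    refine tendsto_nhds_unique h10 ?_
    refine tendsto_const_nhds.congr' ?_
    filter_upwards [self_mem_nhdsWithin, nhdsWithin_le_nhds (ball_mem_nhds (0:ℂ) hR'0)] with z hz hz2
    have h11 := hTall hz2
    rw [hT] at h11
    simp only [hτm, Pi.zero_apply, zero_add] at h11
    have h12 : z * (a0 + b0 * z + z ^ 2 * g z) = 0 := by linear_combination h11
    exact ((mul_eq_zero.1 h12).resolve_left hz).symm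
  have hb0 : b0 = 0 := by
    have h9 : ContinuousAt (fun z : ℂ => b0 + z * g z) 0 :=
      continuousAt_const.add (continuousAt_id.mul hgc)
    have h10 : Tendsto (fun z : ℂ => b0 + z * g z) (𝓝[≠] 0) (𝓝 b0) := by
      have := h9.tendsto.mono_left (nhdsWithin_le_nhds (s := {(0:ℂ)}ᶜ))
      simpa using this
    refine tendsto_nhds_unique h10 ?_
    refine tendsto_const_nhds.congr' ?_
    filter_upwards [self_mem_nhdsWithin, nhdsWithin_le_nhds (ball_mem_nhds (0:ℂ) hR'0)] with z hz hz2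
    have h11 := hTall hz2
    rw [hT] at h11
    simp only [hτm, ha0, Pi.zero_apply, zero_add, zero_mul] at h11
    have h12 : z ^ 2 * (b0 + z * g z) = 0 := by linear_combination h11
    exact ((mul_eq_zero.1 h12).resolve_left (pow_ne_zero 2 hz)).symm
  subst hm0
  subst ha0
  subst hb0
  have h13 : Tendsto (fun k => max (M (s k))⁻¹ (max ‖a (s k) * ((M (s k))⁻¹ : ℝ)‖
      ‖b (s k) * ((M (s k))⁻¹ : ℝ)‖)) atTop (𝓝 (max 0 (max ‖(0:ℂ)‖ ‖(0:ℂ)‖))) :=
    hm.max (ha.norm.max hb.norm)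
  have h14 : ∀ k, max (M (s k))⁻¹ (max ‖a (s k) * ((M (s k))⁻¹ : ℝ)‖
      ‖b (s k) * ((M (s k))⁻¹ : ℝ)‖) = 1 := by
    intro k
    rw [hnr, hnr, ← max_mul_of_nonneg _ _ (hMi0 _)]
    have h15 : (M (s k))⁻¹ = 1 * (M (s k))⁻¹ := (one_mul _).symm
    calc max (M (s k))⁻¹ (max ‖a (s k)‖ ‖b (s k)‖ * (M (s k))⁻¹)
        = max (1 * (M (s k))⁻¹) (max ‖a (s k)‖ ‖b (s k)‖ * (M (s k))⁻¹) := by rw [one_mul]
      _ = M (s k) * (M (s k))⁻¹ := (max_mul_of_nonneg _ _ (hMi0 _)).symm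
      _ = 1 := mul_inv_cancel₀ (hMpos _).ne'
  have h16 := tendsto_nhds_unique h13 (tendsto_const_nhds.congr fun k => (h14 k).symm)
  simp at h16

theorem lmq {r ρ C : ℝ} {w τ : ℂ} (hr : 0 < r) (hρ : 0 < ρ) (hw : ball w ρ ⊆ ball 0 r) (hτ : τ ≠ 0)
    (A B : ℕ → ℂ) (R : ℕ → ℂ → ℂ) (hR : ∀ j, DifferentiableOn ℂ (R j) (ball 0 r))
    (hC : ∀ j, ∀ x ∈ ball (0 : ℂ) r, ‖R j x‖ ≤ C) :
    ¬ Tendsto (fun j => ∫⁻ x in ball w ρ, ‖τ + A j * x + B j * x ^ 2 + x ^ 3 * R j x‖ₑ) atTop (𝓝 0) := by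
  intro hlim
  obtain ⟨ε, hε, hlow⟩ := end_lower (C := C) hr hρ hτ hw
  have h1 : ∀ j, ENNReal.ofReal ε ≤ ∫⁻ x in ball w ρ, ‖τ + A j * x + B j * x ^ 2 + x ^ 3 * R j x‖ₑ := by
    intro j
    have hc : ContinuousOn (fun x : ℂ => τ + A j * x + B j * x ^ 2 + x ^ 3 * R j x) (ball w ρ) := by
      refine ContinuousOn.add (by fun_prop) (ContinuousOn.mul (by fun_prop) ((hR j).continuousOn.mono hw))
    have h2 := hlow (A j) (B j) (R j) (hR j) (hC j)
    rw [integral_norm_eq_lintegral_enorm (hc.aestronglyMeasurable measurableSet_ball)] at h2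
    exact ENNReal.ofReal_le_of_le_toReal h2
  have h3 : ENNReal.ofReal ε ≤ 0 := ge_of_tendsto hlim (Eventually.of_forall h1)
  have h4 : ENNReal.ofReal ε ≠ 0 := by
    rw [ne_eq, ENNReal.ofReal_eq_zero, not_le]
    exact hε
  exact h4 (le_antisymm h3 zero_le)

end Pool.Agent.H3.NC
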