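import Pool.Agent.H3.NC.FAR
import Pool.Agent.H3.NC.LMQ

/-!
# Module ABC: the abstract contradiction

PROOF. Drop finitely many `j` (shift the sequences by `j0`): `far` holds for all `j`. `far_exp` for `I = (range (n j)).filter (ε0 < ‖ζ j k‖)`: `A j`, `B j`, `R j` (choose). `r = ε0 / 2`, constant `2 C`. For `x ∈ ball 0 (ε0 / 2)`, `x ≠ 0`:
`τ + A j x + B j x ^ 2 + x ^ 3 R j x = x (τ / x + ∑_(far) β / (x - ζ)) = x (∑_(k < n j) β / (x - ζ) - (∑_(near) β / (x - ζ) - τ / x))` (`Finset.sum_filter_add_sum_filter_not`), and `‖x‖ ≤ ε0`, so the integral over `ball w ρ` is at most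
`ε0 (small integral + near integral)` (`ball w ρ ⊆ ball 0 ε0`; the point `x = 0` has measure 0): it tends to `0`, against `lmq`.
-/

set_option autoImplicit false

open Filter Topology Metric MeasureTheory

namespace Pool.Agent.H3.NC

theorem abc (n : ℕ → ℕ) (β ζ : ℕ → ℕ → ℂ) {ε0 C ρ : ℝ} {w τ : ℂ} (hε : 0 < ε0) (hτ : τ ≠ 0) (hρ : 0 < ρ)
    (hw : ball w ρ ⊆ ball 0 (ε0 / 2))
    (near : Tendsto (fun j => ∫⁻ x in ball (0 : ℂ) ε0,
      ‖(∑ k ∈ (Finset.range (n j)).filter (fun k => ‖ζ j k‖ ≤ ε0), β j k / (x - ζ j k)) - τ / x‖ₑ) atTop (𝓝 0))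
    (far : ∀ᶠ j in atTop, ∑ k ∈ (Finset.range (n j)).filter (fun k => ε0 < ‖ζ j k‖), ‖β j k‖ / ‖ζ j k‖ ^ 3 ≤ C)
    (small : Tendsto (fun j => ∫⁻ x in ball w ρ, ‖∑ k ∈ Finset.range (n j), β j k / (x - ζ j k)‖ₑ) atTop (𝓝 0)) :
    False := by
  obtain ⟨j0, hj0⟩ := eventually_atTop.1 far
  have h1 := fun j : ℕ => far_exp (I := (Finset.range (n (j + j0))).filter (fun k => ε0 < ‖ζ (j + j0) k‖))
    (β := β (j + j0)) (ζ := ζ (j + j0)) hε (fun k hk => (Finset.mem_filter.1 hk).2)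
    (hj0 (j + j0) (Nat.le_add_left _ _))
  choose A B R hR hRC hsum using h1
  refine lmq (r := ε0 / 2) (C := 2 * C) (by positivity) hρ hw hτ A B R hR hRC ?_
  have hae : ∀ᵐ x ∂((volume : Measure ℂ).restrict (ball w ρ)), x ≠ 0 := by
    refine ae_restrict_of_ae ?_
    rw [ae_iff]
    simp
  have hpt : ∀ j, ∀ x ∈ ball w ρ, x ≠ 0 → ‖τ + A j * x + B j * x ^ 2 + x ^ 3 * R j x‖ₑ
      ≤ ENNReal.ofReal ε0 * (‖∑ k ∈ Finset.range (n (j + j0)), β (j + j0) k / (x - ζ (j + j0) k)‖ₑ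
        + ‖(∑ k ∈ (Finset.range (n (j + j0))).filter (fun k => ‖ζ (j + j0) k‖ ≤ ε0),
          β (j + j0) k / (x - ζ (j + j0) k)) - τ / x‖ₑ) := by
    intro j x hx hx0
    have e1 := hsum j x (hw hx)
    have e2 : (∑ k ∈ (Finset.range (n (j + j0))).filter (fun k => ‖ζ (j + j0) k‖ ≤ ε0),
        β (j + j0) k / (x - ζ (j + j0) k)) + (A j + B j * x + x ^ 2 * R j x)
        = ∑ k ∈ Finset.range (n (j + j0)), β (j + j0) k / (x - ζ (j + j0) k) := by
      rw [← e1, ← Finset.sum_filter_add_sum_filter_not (Finset.range (n (j + j0)))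
        (fun k => ‖ζ (j + j0) k‖ ≤ ε0)]
      congr 1
      refine Finset.sum_congr ?_ (fun _ _ => rfl)
      ext k
      simp
    have e3 : τ + A j * x + B j * x ^ 2 + x ^ 3 * R j x
        = x * ((∑ k ∈ Finset.range (n (j + j0)), β (j + j0) k / (x - ζ (j + j0) k))
          - ((∑ k ∈ (Finset.range (n (j + j0))).filter (fun k => ‖ζ (j + j0) k‖ ≤ ε0),
            β (j + j0) k / (x - ζ (j + j0) k)) - τ / x)) := by
      rw [← e2]
      have : x * (τ / x) = τ := by field_simp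
      linear_combination -this
    rw [e3, enorm_mul]
    refine mul_le_mul' ?_ (enorm_sub_le)
    rw [← ofReal_norm_eq_enorm]
    refine ENNReal.ofReal_le_ofReal ?_
    have := hw hx
    rw [mem_ball_zero_iff] at this
    linarith
  have hint : ∀ j, ∫⁻ x in ball w ρ, ‖τ + A j * x + B j * x ^ 2 + x ^ 3 * R j x‖ₑ
      ≤ ENNReal.ofReal ε0 * ((∫⁻ x in ball w ρ, ‖∑ k ∈ Finset.range (n (j + j0)), β (j + j0) k / (x - ζ (j + j0) k)‖ₑ)
        + ∫⁻ x in ball (0 : ℂ) ε0, ‖(∑ k ∈ (Finset.range (n (j + j0))).filter (fun k => ‖ζ (j + j0) k‖ ≤ ε0),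
          β (j + j0) k / (x - ζ (j + j0) k)) - τ / x‖ₑ) := by
    intro j
    have hm : Measurable (fun x : ℂ => ‖∑ k ∈ Finset.range (n (j + j0)), β (j + j0) k / (x - ζ (j + j0) k)‖ₑ) := by
      refine Measurable.enorm ?_
      refine Finset.measurable_fun_sum _ (fun k _ => ?_)
      exact measurable_const.div (measurable_id.sub_const _)
    calc ∫⁻ x in ball w ρ, ‖τ + A j * x + B j * x ^ 2 + x ^ 3 * R j x‖ₑ
        ≤ ∫⁻ x in ball w ρ, ENNReal.ofReal ε0 * (‖∑ k ∈ Finset.range (n (j + j0)), β (j + j0) k / (x - ζ (j + j0) k)‖ₑ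
          + ‖(∑ k ∈ (Finset.range (n (j + j0))).filter (fun k => ‖ζ (j + j0) k‖ ≤ ε0),
          β (j + j0) k / (x - ζ (j + j0) k)) - τ / x‖ₑ) := by
          refine lintegral_mono_ae ?_
          filter_upwards [hae, ae_restrict_mem measurableSet_ball] with x hx0 hx
          exact hpt j x hx hx0
      _ = ENNReal.ofReal ε0 * ((∫⁻ x in ball w ρ, ‖∑ k ∈ Finset.range (n (j + j0)), β (j + j0) k / (x - ζ (j + j0) k)‖ₑ)
        + ∫⁻ x in ball w ρ, ‖(∑ k ∈ (Finset.range (n (j + j0))).filter (fun k => ‖ζ (j + j0) k‖ ≤ ε0),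
          β (j + j0) k / (x - ζ (j + j0) k)) - τ / x‖ₑ) := by
          rw [lintegral_const_mul' _ _ ENNReal.ofReal_ne_top, lintegral_add_left hm]
      _ ≤ _ := by
          refine mul_le_mul' le_rfl (add_le_add le_rfl ?_)
          refine lintegral_mono_set (hw.trans (ball_subset_ball ?_))
          linarith
  have hlim : Tendsto (fun j => ENNReal.ofReal ε0 * ((∫⁻ x in ball w ρ, ‖∑ k ∈ Finset.range (n (j + j0)), β (j + j0) k / (x - ζ (j + j0) k)‖ₑ)
        + ∫⁻ x in ball (0 : ℂ) ε0, ‖(∑ k ∈ (Finset.range (n (j + j0))).filter (fun k => ‖ζ (j + j0) k‖ ≤ ε0),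
          β (j + j0) k / (x - ζ (j + j0) k)) - τ / x‖ₑ)) atTop (𝓝 0) := by
    have hs := small.comp (tendsto_add_atTop_nat j0)
    have hn := near.comp (tendsto_add_atTop_nat j0)
    have h2 := ENNReal.Tendsto.const_mul (a := ENNReal.ofReal ε0) (hs.add hn) (Or.inr ENNReal.ofReal_ne_top)
    simpa using h2
  exact tendsto_of_tendsto_of_tendsto_of_le_of_le tendsto_const_nhds hlim (fun _ => zero_le) hint

end Pool.Agent.H3.NC
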