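import Pool.Agent.H3.NC.LAC

/-!
# Module SEL: the sequence of conical times and record times

PROOF. `sub`: compose (a strictly monotone map tends to `atTop`). `din`: otherwise `Dk n ≤ M` for arbitrarily large conical `n`; `kbe2` with `k = 0` (`Dk 0 = 1`): `ball v (δ / (16 M)) ⊆ ball v (δ / (16 Dk n)) ⊆ G '' ball (P n) δ`, on which `(rat a b)^[n]` is injective: against `ni` at `v`.
`sel`: `J` is compact (closed, bounded by `bd` with `n = 0`), so there are conical times `n j`, strictly increasing, `n j ≥ 1`, branches `G j`, with `P (n j) → y ∈ J`; `s j < n j` with `Dk (s j)` minimal among `k < n j` (`Finset.exists_min_image`); after a subsequence `P (s j) → x0 ∈ J` (`itJ`).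
`pos`: `brn`. `mn`: choice. `r0`: `Dk (s j) ≤ Dk 0 = 1` (`0 < n j`) and `Dk (n j) → ∞` (`din`). `ns`: `‖dg a b z‖ ≤ L` on `J` (compact, continuous as `b ≠ 0` on `J`), `L ≥ 1`, `Dk n = Dk s * ‖tD a b (n - s) (P s)‖ ≤ Dk s * L ^ (n - s)` (`tD_add`), so `1 ≤ (Dk s / Dk n) L ^ (n - s)`: as `Dk s / Dk n → 0`, `n - s → ∞`.
`lac`: for `K` take `N, ρ` from module LAC at `y`; eventually `‖P (n j) - y‖ < ρ`; `‖ze k - ze l‖ ≤ δ / 32` means `‖P k - P l‖ ≤ (δ / 32) (Dk s / Dk n) ≤ (δ / 32) (Dk k / Dk n)` (`mn`, `k < n j`).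
-/

set_option autoImplicit false

open Filter Topology Polynomial Metric Set MeasureTheory

namespace Pool.Agent.H3.NC

open Pool.Agent.H44.Fatou (rat)
open Pool.Agent.H80.AJ (Br KK)
open Pool.Agent.H61.TT Pool.Agent.H57.CP

variable {d D : ℕ} {a b : Polynomial ℂ} {J : Set ℂ} {δ0 R0 : ℝ}

theorem SQ.sub {v x0 : ℂ} {η : ℝ} {n s : ℕ → ℕ} (h : SQ a b v η x0 n s) {φ : ℕ → ℕ} (hφ : StrictMono φ) :
    SQ a b v η x0 (n ∘ φ) (s ∘ φ) where
  hη := h.hη
  lt := fun j => h.lt (φ j)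
  pos := fun j k hk => h.pos (φ j) k hk
  mn := fun j k hk => h.mn (φ j) k hk
  r0 := h.r0.comp hφ.tendsto_atTop
  ns := h.ns.comp hφ.tendsto_atTop
  x0 := h.x0.comp hφ.tendsto_atTop
  lac := fun K hK => by
    obtain ⟨N, hN⟩ := h.lac K hK
    exact ⟨N, hφ.tendsto_atTop.eventually hN⟩

theorem sel_Dk0 (v : ℂ) : Dk a b v 0 = 1 := by
  simp [Dk, tD]

theorem din (h : NS d D a b J δ0 R0) {v : ℂ} (hv : v ∈ J) {δ : ℝ} (hδ : 0 < δ) (hδ0 : δ ≤ δ0) (M : ℝ) :
    ∃ N : ℕ, ∀ n : ℕ, N ≤ n → ∀ G : ℂ → ℂ, Cal a b v δ n G → M < Dk a b v n := by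
  set M' : ℝ := max M 1 with hM'
  have hM1 : 1 ≤ M' := le_max_right _ _
  have hM0 : 0 < M' := by linarith
  obtain ⟨N, hN⟩ := h.ni v hv (δ / (16 * M')) (by positivity)
  refine ⟨N + 1, fun n hn G hG => ?_⟩
  by_contra hcon
  push Not at hcon
  obtain ⟨-, -, hDn, -, -⟩ := brn h hv hδ hδ0 hG (Nat.zero_le n)
  have hDM : Dk a b v n ≤ M' := hcon.trans (le_max_left _ _)
  have hk := kbe2 h hv hδ hδ0 hG (Nat.zero_le n)
  rw [sel_Dk0] at hk
  apply hN n (by omega)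
  have hsub : ∀ z ∈ ball v (δ / (16 * M')), ∃ u ∈ ball ((gg a b)^[n] v) δ, G u = z := by
    intro z hz
    have h1 : z ∈ ball ((gg a b)^[0] v) (δ * (1 / Dk a b v n) / 16) := by
      rw [mem_ball] at hz ⊢
      refine lt_of_lt_of_le hz ?_
      rw [mul_one_div, div_div, mul_comm (Dk a b v n) 16]
      gcongr
    obtain ⟨u, hu, hu2⟩ := hk h1
    exact ⟨u, hu, hu2⟩
  intro z hz z' hz' heq
  obtain ⟨u, hu, rfl⟩ := hsub z hz
  obtain ⟨u', hu', rfl⟩ := hsub z' hz'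
  have h1 := hG.inv u hu
  have h2 := hG.inv u' hu'
  have h3 : (u : OnePoint ℂ) = (u' : OnePoint ℂ) := by
    rw [← h1, ← h2]
    exact heq
  rw [OnePoint.coe_injective h3]

theorem sel_compact (h : NS d D a b J δ0 R0) : IsCompact J := by
  apply Metric.isCompact_of_isClosed_isBounded h.Jc
  rw [Metric.isBounded_iff_subset_closedBall 0]
  refine ⟨R0, fun y hy => ?_⟩
  obtain ⟨z, hz, hz2⟩ := h.bd 0 (y : OnePoint ℂ) ⟨y, hy, y, mem_ball_self h.hδ0, rfl⟩
  have : y = z := OnePoint.coe_injective hz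
  rw [mem_closedBall_zero_iff, this]
  exact hz2

theorem sel (h : NS d D a b J δ0 R0) {v : ℂ} (hv : v ∈ J) {δ : ℝ} (hδ : 0 < δ) (hδ0 : δ ≤ δ0)
    (hinf : ∀ N : ℕ, ∃ n, N ≤ n ∧ ∃ G : ℂ → ℂ, Cal a b v δ n G) :
    ∃ (y x0 : ℂ) (n s : ℕ → ℕ) (G : ℕ → ℂ → ℂ), y ∈ J ∧ x0 ∈ J ∧ SQ a b v (δ / 32) x0 n s ∧
      (∀ j, Cal a b v δ (n j) (G j)) ∧ Tendsto (fun j => (gg a b)^[n j] v) atTop (𝓝 y) := by
  have hJ := sel_compact h
  have hfr : ∃ᶠ n in atTop, 1 ≤ n ∧ ∃ G : ℂ → ℂ, Cal a b v δ n G := by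
    rw [Filter.frequently_atTop]
    intro N
    obtain ⟨n, hn, hG⟩ := hinf (N + 1)
    exact ⟨n, by omega, by omega, hG⟩
  obtain ⟨φ, hφ, hφ2⟩ := Filter.extraction_of_frequently_atTop hfr
  choose hφ1 G0 hG0 using hφ2
  obtain ⟨y, hy, ψ, hψ, hψ2⟩ := hJ.tendsto_subseq (x := fun j => (gg a b)^[φ j] v) (fun j => itJ h hv _)
  have hmin : ∀ j, ∃ s ∈ Finset.range (φ (ψ j)), ∀ k ∈ Finset.range (φ (ψ j)), Dk a b v s ≤ Dk a b v k := fun j =>
    Finset.exists_min_image _ _ ⟨0, Finset.mem_range.2 (hφ1 (ψ j))⟩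
  choose s1 hs1 hs2 using hmin
  obtain ⟨x0, hx0, χ, hχ, hχ2⟩ := hJ.tendsto_subseq (x := fun j => (gg a b)^[s1 j] v) (fun j => itJ h hv _)
  set n : ℕ → ℕ := fun j => φ (ψ (χ j)) with hn
  set s : ℕ → ℕ := fun j => s1 (χ j) with hs
  set G : ℕ → ℂ → ℂ := fun j => G0 (ψ (χ j)) with hG
  have hnm : StrictMono n := hφ.comp (hψ.comp hχ)
  have hGC : ∀ j, Cal a b v δ (n j) (G j) := fun j => hG0 _
  have hlt : ∀ j, s j < n j := fun j => Finset.mem_range.1 (hs1 (χ j))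
  have hmn : ∀ j k, k < n j → Dk a b v (s j) ≤ Dk a b v k := fun j k hk => hs2 (χ j) k (Finset.mem_range.2 hk)
  have hpos : ∀ j k, k ≤ n j → 0 < Dk a b v k := fun j k hk => (brn h hv hδ hδ0 (hGC j) hk).2.2.2.1
  have hyl : Tendsto (fun j => (gg a b)^[n j] v) atTop (𝓝 y) := hψ2.comp hχ.tendsto_atTop
  have hinfD : Tendsto (fun j => Dk a b v (n j)) atTop atTop := by
    rw [Filter.tendsto_atTop]
    intro M
    obtain ⟨N, hN⟩ := din h hv hδ hδ0 M
    filter_upwards [hnm.tendsto_atTop.eventually_ge_atTop N] with j hj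
    exact (hN (n j) hj (G j) (hGC j)).le
  have hr0 : Tendsto (fun j => Dk a b v (s j) / Dk a b v (n j)) atTop (𝓝 0) := by
    refine squeeze_zero (g := fun j => (Dk a b v (n j))⁻¹) (fun j => ?_) (fun j => ?_) hinfD.inv_tendsto_atTop
    · have h1 := hpos j (s j) (hlt j).le
      have h2 := hpos j (n j) le_rfl
      positivity
    · have h2 := hpos j (n j) le_rfl
      have h3 : Dk a b v (s j) ≤ 1 := by
        rw [← sel_Dk0 (a := a) (b := b) v]
        exact hmn j 0 (lt_of_le_of_lt (Nat.zero_le _) (hlt j))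
      rw [inv_eq_one_div]
      gcongr
  refine ⟨y, x0, n, s, G, hy, hx0, ?_, hGC, hyl⟩
  refine ⟨by positivity, hlt, hpos, hmn, hr0, ?_, hχ2, ?_⟩
  · have hcont : ContinuousOn (dg a b) J := by
      unfold dg
      apply ContinuousOn.div (Polynomial.continuous _).continuousOn
        ((Polynomial.continuous _).pow 2).continuousOn
      intro z hz
      exact pow_ne_zero 2 (h.Jn z hz)
    obtain ⟨L0, hL0⟩ := hJ.exists_bound_of_continuousOn hcont
    set L : ℝ := max L0 1 with hL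
    have hL1 : 1 ≤ L := le_max_right _ _
    have hLb : ∀ z ∈ J, ‖dg a b z‖ ≤ L := fun z hz => (hL0 z hz).trans (le_max_left _ _)
    have htD : ∀ m : ℕ, ∀ z ∈ J, ‖tD a b m z‖ ≤ L ^ m := by
      intro m z hz
      unfold tD
      rw [norm_prod]
      calc ∏ i ∈ Finset.range m, ‖dg a b ((gg a b)^[i] z)‖ ≤ ∏ _i ∈ Finset.range m, L :=
            Finset.prod_le_prod (fun i _ => norm_nonneg _) (fun i _ => hLb _ (itJ h hz i))
        _ = L ^ m := by rw [Finset.prod_const, Finset.card_range]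
    rw [Filter.tendsto_atTop]
    intro m
    have hev : ∀ᶠ j in atTop, Dk a b v (s j) / Dk a b v (n j) < 1 / L ^ m :=
      hr0.eventually (gt_mem_nhds (by positivity))
    filter_upwards [hev] with j hj
    by_contra hcon
    push Not at hcon
    have h1 : Dk a b v (n j) = Dk a b v (s j) * ‖tD a b (n j - s j) ((gg a b)^[s j] v)‖ := by
      unfold Dk
      rw [← norm_mul, ← tD_add]
      congr 2
      have := hlt j
      omega
    have h2 := htD (n j - s j) _ (itJ h hv (s j))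
    have h3 : L ^ (n j - s j) ≤ L ^ m := pow_le_pow_right₀ hL1 (by omega)
    have h4 := hpos j (s j) (hlt j).le
    have h5 := hpos j (n j) le_rfl
    rw [div_lt_div_iff₀ h5 (by positivity), one_mul] at hj
    have h6 : Dk a b v (n j) ≤ Dk a b v (s j) * L ^ m := by
      rw [h1]
      have := h2.trans h3
      gcongr
    linarith
  · intro K hK
    obtain ⟨N, ρ, hρ, hlac⟩ := lac h hv hδ hδ0 hy hK
    refine ⟨N, ?_⟩
    have hev : ∀ᶠ j in atTop, (gg a b)^[n j] v ∈ ball y ρ := hyl.eventually (ball_mem_nhds y hρ)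
    filter_upwards [hev] with j hj k l hkl hln hNl hze
    have hj' : ‖(gg a b)^[n j] v - y‖ < ρ := by simpa [dist_eq_norm] using hj
    refine hlac (n j) (G j) (hGC j) hj' k l hkl hln hNl ?_
    have h1 := hpos j (s j) (hlt j).le
    have h2 := hpos j (n j) le_rfl
    have h3 : 0 < Dk a b v (s j) / Dk a b v (n j) := by positivity
    have h4 : ze a b v (n j) (s j) k - ze a b v (n j) (s j) l =
        ((gg a b)^[k] v - (gg a b)^[l] v) / ((Dk a b v (s j) / Dk a b v (n j) : ℝ) : ℂ) := by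
      unfold ze
      rw [← sub_div]
      congr 1
      ring
    rw [h4, norm_div, Complex.norm_real, Real.norm_of_nonneg h3.le, div_le_iff₀ h3] at hze
    refine hze.trans ?_
    have h5 := hmn j k (by omega)
    gcongr

end Pool.Agent.H3.NC
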