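import Pool.Agent.H3.NC.PRL
import Pool.Agent.H3.NC.SEL

/-!
# Module NER: the structure of the poles near the record pole

PROOF. `r j = Dk (s j) / Dk (n j) → 0`, `P k = gg^[k] v`. `ε0 ≤ η / 2` everywhere, so `‖ze k‖ ≤ ε0` gives `‖P k - P (s j)‖ ≤ ε0 r j → 0` and `‖ze k - ze (s j)‖ ≤ η` (`ze (s j) = 0`).
(L) `left`: eventually in `j`, for all `k < s j`, `η < ‖ze k‖`. Let `N` be from `lac` with `K = 2`. If `N < s j - k`: `2 Dk k ≤ Dk (s j) ≤ Dk k` (`mn`), impossible (`pos`). For `q = s j - k ∈ [1, N]` (finitely many `q`): `ε` from `rp1`; eventually `‖P (s j) - x0‖ < ε / 2`, `η r j < ε / 2`, so with `z = P k`: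
`‖z - x0‖ < ε`, `gg^[q] z = P (s j)`, so `1 < ‖tD q z‖`, `Dk (s j) = Dk k * ‖tD q z‖ > Dk k` (`tD_add`), against `mn`.
(R) for `s j < k < n j` with `K ≤ ` anything and `N(K)` from `lac`: `k - s j > N(K)` and `‖ze k‖ ≤ η` give `K Dk (s j) ≤ Dk k`, i.e. `K ‖be k‖ ≤ 1`.
(O) if `gg^[q] x0 ≠ x0` then eventually `η < ‖ze (s j + q)‖`: `np1` with `z = P (s j)`.
CASE A: `x0` is not periodic, or there are `c0 > 0` and infinitely many `j` with `c0 r j ≤ ‖x0 - P (s j)‖`. Pass to a subsequence `φ` (`φ = id` if `x0` is not periodic) where this holds for all `j`. `κ` from `pr1`, `ε0 = min (η / 2) (κ c0 / 2)` (`η / 2` if `x0` is not periodic). If `gg^[q] x0 = x0`, `q ≥ 1`: eventually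
`‖ze (s j + q)‖ r j = ‖P (s j + q) - P (s j)‖ ≥ (1 + κ) ‖P (s j) - x0‖ - ‖P (s j) - x0‖ ≥ κ c0 r j`, so `ε0 < ‖ze (s j + q)‖`. So with `T = {0}`, `c = Pi.single 0 1` (`tau = 1`): `ne`: `N = max (N(K)) ⌈K⌉`: for `‖ze k‖ ≤ ε0`: `k < s j` impossible (L), `k = s j`: first alternative with `t = 0`, `1 ≤ k - s j ≤ N`: excluded eventually by (O) or the above (finitely many `q`), `k > s j + N`: (R).
CASE B: `x0` is periodic and `‖x0 - P (s j)‖ / r j → 0` (negation of A; `φ = id`). `ε0 = η / 2`, `T = {t | gg^[t] x0 = x0}`, `c t = if gg^[t] x0 = x0 then (tD t x0)⁻¹ else 0`: `sm`, `tau`: `geo`. `lb`: `be (s j + t) = tD (s j) v / tD (s j + t) v = (tD t (P (s j)))⁻¹ → (tD t x0)⁻¹` (`tD_add`, `cont_it`; `tD t x0 ≠ 0` by `rep`, for `t = 0` it is 1; `tD (s j) v ≠ 0`: `pos`).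
`lz`: `‖P (s j + t) - P (s j)‖ ≤ ‖gg^[t] (P (s j)) - x0‖ + ‖x0 - P (s j)‖ ≤ (‖tD t x0‖ + 2) ‖x0 - P (s j)‖` eventually (strict derivative), divided by `r j` it tends to 0. `ne`: as in case A, where for `k - s j = q ∈ [1, N]`: `q ∈ T` is the first alternative, `q ∉ T` is excluded by (O).
-/

set_option autoImplicit false

open Filter Topology Polynomial Metric Set MeasureTheory

namespace Pool.Agent.H3.NC

open Pool.Agent.H44.Fatou (rat)
open Pool.Agent.H80.AJ (Br KK)
open Pool.Agent.H61.TT Pool.Agent.H57.CP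

variable {d D : ℕ} {a b : Polynomial ℂ} {J : Set ℂ} {δ0 R0 : ℝ}

private theorem ner_r {v x0 : ℂ} {η : ℝ} {n s : ℕ → ℕ} (hq : SQ a b v η x0 n s) (j : ℕ) :
    0 < Dk a b v (s j) / Dk a b v (n j) :=
  div_pos (hq.pos j _ (hq.lt j).le) (hq.pos j _ le_rfl)

private theorem ner_ze {v x0 : ℂ} {η : ℝ} {n s : ℕ → ℕ} (hq : SQ a b v η x0 n s) (j k : ℕ) :
    ‖(gg a b)^[k] v - (gg a b)^[s j] v‖ =
      ‖ze a b v (n j) (s j) k‖ * (Dk a b v (s j) / Dk a b v (n j)) := by
  have hr := ner_r hq j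
  unfold ze
  rw [norm_div, Complex.norm_real, Real.norm_eq_abs, abs_of_pos hr, div_mul_cancel₀ _ hr.ne']

private theorem ner_ze0 {v : ℂ} {n s : ℕ} : ze a b v n s s = 0 := by
  unfold ze
  rw [sub_self, zero_div]

private theorem ner_ev {v x0 : ℂ} {η : ℝ} {n s : ℕ → ℕ} (hq : SQ a b v η x0 n s) {ε : ℝ} (hε : 0 < ε) :
    ∀ᶠ j in atTop, ‖(gg a b)^[s j] v - x0‖ < ε / 2 ∧ η * (Dk a b v (s j) / Dk a b v (n j)) < ε / 2 := by
  have h1 : ∀ᶠ j in atTop, ‖(gg a b)^[s j] v - x0‖ < ε / 2 := by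
    have h := (Metric.tendsto_nhds.1 hq.x0) (ε / 2) (by linarith)
    filter_upwards [h] with j hj
    rwa [dist_eq_norm] at hj
  have h2 : ∀ᶠ j in atTop, η * (Dk a b v (s j) / Dk a b v (n j)) < ε / 2 := by
    have h : Tendsto (fun j => η * (Dk a b v (s j) / Dk a b v (n j))) atTop (𝓝 (η * 0)) := hq.r0.const_mul η
    rw [mul_zero] at h
    exact h.eventually (gt_mem_nhds (by linarith))
  exact h1.and h2

private theorem ner_Dk {v : ℂ} (k q : ℕ) :
    Dk a b v (k + q) = Dk a b v k * ‖tD a b q ((gg a b)^[k] v)‖ := by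
  unfold Dk
  rw [tD_add, norm_mul]

private theorem ner_it {v : ℂ} (k q : ℕ) : (gg a b)^[k + q] v = (gg a b)^[q] ((gg a b)^[k] v) := by
  rw [add_comm, Function.iterate_add_apply]

theorem left (h : NS d D a b J δ0 R0) {v x0 : ℂ} (hx : x0 ∈ J) {η : ℝ} {n s : ℕ → ℕ} (hq : SQ a b v η x0 n s) :
    ∀ᶠ j in atTop, ∀ k < s j, η < ‖ze a b v (n j) (s j) k‖ := by
  obtain ⟨N, hN⟩ := hq.lac 2 (by norm_num)
  have hfin : ∀ᶠ j in atTop, ∀ q ∈ Finset.range (N + 1), 0 < q → ∀ k, k + q = s j →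
      η < ‖ze a b v (n j) (s j) k‖ := by
    rw [Filter.eventually_all_finset]
    intro q _
    rcases Nat.eq_zero_or_pos q with h0 | h0
    · exact Eventually.of_forall fun j hq0 => absurd h0 hq0.ne'
    · obtain ⟨ε, hε, h1⟩ := rp1 h hx h0
      filter_upwards [ner_ev hq hε] with j hj _ k hk
      by_contra hc
      rw [not_lt] at hc
      have hr := ner_r hq j
      have e1 := ner_ze hq j k
      have e2 : ‖(gg a b)^[k] v - (gg a b)^[s j] v‖ < ε / 2 := by
        rw [e1]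
        exact lt_of_le_of_lt (mul_le_mul_of_nonneg_right hc hr.le) hj.2
      have e3 : ‖(gg a b)^[k] v - x0‖ < ε := by
        have : (gg a b)^[k] v - x0 = ((gg a b)^[k] v - (gg a b)^[s j] v) + ((gg a b)^[s j] v - x0) := by ring
        rw [this]
        exact lt_of_le_of_lt (norm_add_le _ _) (by linarith [hj.1])
      have e4 : (gg a b)^[q] ((gg a b)^[k] v) = (gg a b)^[s j] v := by
        rw [← ner_it, hk]
      have e5 := h1 _ e3 (by rw [e4]; linarith [hj.1])
      have e6 : Dk a b v (s j) = Dk a b v k * ‖tD a b q ((gg a b)^[k] v)‖ := by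
        rw [← ner_Dk, hk]
      have hkn : k < n j := lt_of_lt_of_le (by omega) (hq.lt j).le
      have e7 := hq.mn j k hkn
      have e8 := hq.pos j k hkn.le
      nlinarith
  filter_upwards [hN, hfin] with j hj1 hj2 k hk
  by_contra hc
  rw [not_lt] at hc
  by_cases hNk : N < s j - k
  · have h1 := hj1 k (s j) hk (hq.lt j) hNk (by rw [ner_ze0, sub_zero]; exact hc)
    have hkn : k < n j := hk.trans (hq.lt j)
    have h2 := hq.mn j k hkn
    have h3 := hq.pos j k hkn.le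
    linarith
  · have h1 := hj2 (s j - k) (Finset.mem_range.2 (by omega)) (by omega) k (by omega)
    exact absurd h1 (not_lt.2 hc)

theorem away (h : NS d D a b J δ0 R0) {v x0 : ℂ} (hx : x0 ∈ J) {η : ℝ} {n s : ℕ → ℕ} (hq : SQ a b v η x0 n s)
    {q : ℕ} (hne : (gg a b)^[q] x0 ≠ x0) : ∀ᶠ j in atTop, η < ‖ze a b v (n j) (s j) (s j + q)‖ := by
  obtain ⟨ε, hε, h1⟩ := np1 h hx hne
  filter_upwards [ner_ev hq hε] with j hj
  have hr := ner_r hq j
  have e1 := ner_ze hq j (s j + q)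
  have e2 := h1 ((gg a b)^[s j] v) (by linarith [hj.1])
  rw [← ner_it] at e2
  have e3 : ‖(gg a b)^[s j + q] v - x0‖ ≤ ‖(gg a b)^[s j + q] v - (gg a b)^[s j] v‖ + ‖(gg a b)^[s j] v - x0‖ := by
    have : (gg a b)^[s j + q] v - x0 = ((gg a b)^[s j + q] v - (gg a b)^[s j] v) + ((gg a b)^[s j] v - x0) := by
      ring
    rw [this]
    exact norm_add_le _ _
  have e4 : η * (Dk a b v (s j) / Dk a b v (n j)) <
      ‖ze a b v (n j) (s j) (s j + q)‖ * (Dk a b v (s j) / Dk a b v (n j)) := by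
    rw [← e1]
    linarith [hj.1, hj.2]
  exact lt_of_mul_lt_mul_right e4 hr.le

private theorem mkND (h : NS d D a b J δ0 R0) {v x0 : ℂ} (hx : x0 ∈ J) {η : ℝ} {n s : ℕ → ℕ}
    (hq : SQ a b v η x0 n s) {ε0 : ℝ} (hε : 0 < ε0) (hεη : ε0 ≤ η) {T : Set ℕ} {c : ℕ → ℂ}
    (sm : Summable fun t => ‖c t‖) (tau : ∑' t, c t ≠ 0) (out : ∀ t, t ∉ T → c t = 0)
    (lb : ∀ t ∈ T, Tendsto (fun j => be a b v (s j) (s j + t)) atTop (𝓝 (c t)))
    (lz : ∀ t ∈ T, Tendsto (fun j => ze a b v (n j) (s j) (s j + t)) atTop (𝓝 0))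
    (hT : ∀ q, q ∉ T → ∀ᶠ j in atTop, ε0 < ‖ze a b v (n j) (s j) (s j + q)‖) :
    ND a b v n s ε0 T c := by
  refine ⟨hε, sm, tau, out, lb, lz, fun K hK => ?_⟩
  obtain ⟨N0, hN0⟩ := hq.lac K (by linarith)
  refine ⟨max N0 ⌈K⌉₊, ?_, ?_⟩
  · refine (Nat.le_ceil K).trans ?_
    exact_mod_cast le_max_right N0 ⌈K⌉₊
  · have hfin : ∀ᶠ j in atTop, ∀ q ∈ Finset.range (max N0 ⌈K⌉₊ + 1), q ∉ T →
        ε0 < ‖ze a b v (n j) (s j) (s j + q)‖ := by
      rw [Filter.eventually_all_finset]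
      intro q _
      by_cases hqT : q ∈ T
      · exact Eventually.of_forall fun j hc => absurd hqT hc
      · filter_upwards [hT q hqT] with j hj _
        exact hj
    filter_upwards [hN0, left h hx hq, hfin] with j hj1 hj2 hj3 k hk hz
    by_cases hks : k < s j
    · exact absurd (hj2 k hks) (not_lt.2 (hz.trans hεη))
    · rw [not_lt] at hks
      obtain ⟨q, rfl⟩ := Nat.exists_eq_add_of_le hks
      by_cases hqN : q ≤ max N0 ⌈K⌉₊
      · by_cases hqT : q ∈ T
        · exact Or.inl ⟨q, hqT, hqN, rfl⟩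
        · exact absurd (hj3 q (Finset.mem_range.2 (by omega)) hqT) (not_lt.2 hz)
      · rw [not_le] at hqN
        refine Or.inr ⟨by omega, ?_⟩
        have hN0q : N0 < q := lt_of_le_of_lt (le_max_left _ _) hqN
        have h1 := hj1 (s j) (s j + q) (by omega) hk (by omega) (by
          rw [ner_ze0, zero_sub, norm_neg]
          exact hz.trans hεη)
        have h2 : 0 < ‖tD a b (s j + q) v‖ := hq.pos j (s j + q) hk.le
        unfold be
        rw [norm_div, ← mul_div_assoc, div_le_one₀ h2]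
        exact h1

private theorem ner_ne {v x0 : ℂ} {η : ℝ} {n s : ℕ → ℕ} (hq : SQ a b v η x0 n s) (j : ℕ) :
    tD a b (s j) v ≠ 0 := by
  have h := hq.pos j (s j) (hq.lt j).le
  exact norm_pos_iff.1 h

private theorem caseA (h : NS d D a b J δ0 R0) {v x0 : ℂ} (hx : x0 ∈ J) {η : ℝ} {n s : ℕ → ℕ}
    (hq : SQ a b v η x0 n s) {ε0 : ℝ} (hε : 0 < ε0) (hεη : ε0 ≤ η)
    (hT : ∀ q, 0 < q → ∀ᶠ j in atTop, ε0 < ‖ze a b v (n j) (s j) (s j + q)‖) :
    ∃ (T : Set ℕ) (c : ℕ → ℂ), ND a b v n s ε0 T c := by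
  refine ⟨{0}, fun t => if t = 0 then 1 else 0, mkND h hx hq hε hεη ?_ ?_ ?_ ?_ ?_ ?_⟩
  · refine summable_of_ne_finset_zero (s := {0}) fun t ht => ?_
    rw [if_neg (by simpa using ht), norm_zero]
  · rw [tsum_ite_eq]
    exact one_ne_zero
  · intro t ht
    exact if_neg ht
  · rintro t rfl
    rw [if_pos rfl]
    refine tendsto_const_nhds.congr fun j => ?_
    unfold be
    rw [add_zero, div_self (ner_ne hq j)]
  · rintro t rfl
    refine tendsto_const_nhds.congr fun j => ?_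
    rw [add_zero, ner_ze0]
  · intro q hqT
    exact hT q (Nat.pos_of_ne_zero hqT)

theorem near_data (h : NS d D a b J δ0 R0) {v x0 : ℂ} (hv : v ∈ J) (hx : x0 ∈ J) {η : ℝ} {n s : ℕ → ℕ}
    (hq : SQ a b v η x0 n s) : ∃ (φ : ℕ → ℕ) (ε0 : ℝ) (T : Set ℕ) (c : ℕ → ℂ), StrictMono φ ∧ 2 * ε0 ≤ η ∧
      ND a b v (n ∘ φ) (s ∘ φ) ε0 T c := by
  have hη := hq.hη
  by_cases hp : ∃ p : ℕ, 0 < p ∧ (gg a b)^[p] x0 = x0
  · by_cases hA : ∃ c0 : ℝ, 0 < c0 ∧ ∃ᶠ j in atTop,
        c0 * (Dk a b v (s j) / Dk a b v (n j)) ≤ ‖(gg a b)^[s j] v - x0‖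
    · obtain ⟨c0, hc0, hfr⟩ := hA
      obtain ⟨φ, hφ, hφ2⟩ := extraction_of_frequently_atTop hfr
      obtain ⟨κ, hκ, hκ2⟩ := pr1 h hx
      have hq' := hq.sub hφ
      have hε : 0 < min (η / 2) (κ * c0 / 2) := lt_min (by linarith) (by positivity)
      have hle : min (η / 2) (κ * c0 / 2) ≤ η / 2 := min_le_left _ _
      have hle2 : min (η / 2) (κ * c0 / 2) ≤ κ * c0 / 2 := min_le_right _ _
      obtain ⟨T, c, hND⟩ := caseA h hx hq' hε (by linarith) (fun q hq0 => by
        by_cases hqx : (gg a b)^[q] x0 = x0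
        · obtain ⟨ε, hε1, h1⟩ := hκ2 q hq0 hqx
          filter_upwards [ner_ev hq' hε1] with j hj
          have hr := ner_r hq' j
          have e1 := ner_ze hq' j ((s ∘ φ) j + q)
          have e2 := h1 ((gg a b)^[(s ∘ φ) j] v) (by linarith [hj.1])
          rw [← ner_it] at e2
          have e3 : ‖(gg a b)^[(s ∘ φ) j + q] v - x0‖ ≤
              ‖(gg a b)^[(s ∘ φ) j + q] v - (gg a b)^[(s ∘ φ) j] v‖ + ‖(gg a b)^[(s ∘ φ) j] v - x0‖ := by
            have : (gg a b)^[(s ∘ φ) j + q] v - x0 =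
                ((gg a b)^[(s ∘ φ) j + q] v - (gg a b)^[(s ∘ φ) j] v) + ((gg a b)^[(s ∘ φ) j] v - x0) := by
              ring
            rw [this]
            exact norm_add_le _ _
          have e5 : c0 * (Dk a b v ((s ∘ φ) j) / Dk a b v ((n ∘ φ) j)) ≤
              ‖(gg a b)^[(s ∘ φ) j] v - x0‖ := hφ2 j
          have e4 : κ * c0 / 2 * (Dk a b v ((s ∘ φ) j) / Dk a b v ((n ∘ φ) j)) <
              ‖ze a b v ((n ∘ φ) j) ((s ∘ φ) j) ((s ∘ φ) j + q)‖ *
                (Dk a b v ((s ∘ φ) j) / Dk a b v ((n ∘ φ) j)) := by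
            rw [← e1]
            have e6 : κ * (c0 * (Dk a b v ((s ∘ φ) j) / Dk a b v ((n ∘ φ) j))) ≤
                κ * ‖(gg a b)^[(s ∘ φ) j] v - x0‖ := mul_le_mul_of_nonneg_left e5 hκ.le
            have e7 : 0 < κ * (c0 * (Dk a b v ((s ∘ φ) j) / Dk a b v ((n ∘ φ) j))) := by positivity
            nlinarith
          exact lt_of_le_of_lt hle2 (lt_of_mul_lt_mul_right e4 hr.le)
        · filter_upwards [away h hx hq' hqx] with j hj
          linarith)
      exact ⟨φ, _, T, c, hφ, by linarith, hND⟩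
    · push Not at hA
      classical
      refine ⟨id, η / 2, {t | (gg a b)^[t] x0 = x0},
        fun t => if (gg a b)^[t] x0 = x0 then (tD a b t x0)⁻¹ else 0, strictMono_id, by linarith, ?_⟩
      obtain ⟨g1, g2⟩ := geo h hx hp
      rw [Function.comp_id, Function.comp_id]
      refine mkND h hx hq (by linarith) (by linarith) ?_ ?_ ?_ ?_ ?_ ?_
      · convert g1
      · convert g2
      · intro t ht
        exact if_neg ht
      · intro t ht
        have ht' : (gg a b)^[t] x0 = x0 := ht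
        rw [if_pos ht']
        have hne : tD a b t x0 ≠ 0 := by
          rcases Nat.eq_zero_or_pos t with h0 | h0
          · subst h0
            unfold tD
            simp
          · have h1 := h.rep x0 hx t h0 ht'
            exact norm_pos_iff.1 (by linarith)
        have h1 : Tendsto (fun j => tD a b t ((gg a b)^[s j] v)) atTop (𝓝 (tD a b t x0)) :=
          (cont_it h hx t).2.tendsto.comp hq.x0
        refine (h1.inv₀ hne).congr fun j => ?_
        unfold be
        have h2 := ner_ne hq j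
        rw [tD_add, div_mul_eq_div_div, div_self h2, one_div]
      · intro t ht
        have ht' : (gg a b)^[t] x0 = x0 := ht
        have h2 := (cont_it h hx t).1.hasDerivAt
        rw [hasDerivAt_iff_isLittleO] at h2
        have h3 := h2.def (c := 1) one_pos
        have h4 : ∀ᶠ j in atTop, ‖(gg a b)^[t] ((gg a b)^[s j] v) - (gg a b)^[t] x0 -
            ((gg a b)^[s j] v - x0) • tD a b t x0‖ ≤ 1 * ‖(gg a b)^[s j] v - x0‖ := hq.x0.eventually h3
        rw [Metric.tendsto_nhds]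
        intro ε hε
        have hC : 0 < ‖tD a b t x0‖ + 2 := by positivity
        have h5 : ∀ᶠ j in atTop, ‖(gg a b)^[s j] v - x0‖ <
            ε / (‖tD a b t x0‖ + 2) * (Dk a b v (s j) / Dk a b v (n j)) := by
          have := hA (ε / (‖tD a b t x0‖ + 2)) (by positivity)
          simpa [Filter.not_frequently] using this
        filter_upwards [h4, h5] with j hj4 hj5
        have hr := ner_r hq j
        rw [ht', smul_eq_mul, ← ner_it] at hj4
        have e1 := ner_ze hq j (s j + t)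
        have e2 : ‖(gg a b)^[s j + t] v - (gg a b)^[s j] v‖ ≤
            (‖tD a b t x0‖ + 2) * ‖(gg a b)^[s j] v - x0‖ := by
          have e : (gg a b)^[s j + t] v - (gg a b)^[s j] v =
              ((gg a b)^[s j + t] v - x0 - ((gg a b)^[s j] v - x0) * tD a b t x0) +
                (((gg a b)^[s j] v - x0) * tD a b t x0 - ((gg a b)^[s j] v - x0)) := by ring
          rw [e]
          refine (norm_add_le _ _).trans ?_
          have e' : ‖((gg a b)^[s j] v - x0) * tD a b t x0 - ((gg a b)^[s j] v - x0)‖ ≤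
              ‖(gg a b)^[s j] v - x0‖ * ‖tD a b t x0‖ + ‖(gg a b)^[s j] v - x0‖ := by
            rw [← norm_mul]
            exact norm_sub_le _ _
          nlinarith
        rw [dist_zero_right]
        have e3 : ‖ze a b v (n j) (s j) (s j + t)‖ * (Dk a b v (s j) / Dk a b v (n j)) <
            ε * (Dk a b v (s j) / Dk a b v (n j)) := by
          rw [← e1]
          refine lt_of_le_of_lt e2 ?_
          have e4 := mul_lt_mul_of_pos_left hj5 hC
          have e5 : (‖tD a b t x0‖ + 2) * (ε / (‖tD a b t x0‖ + 2) * (Dk a b v (s j) / Dk a b v (n j))) =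
              ε * (Dk a b v (s j) / Dk a b v (n j)) := by
            field_simp
          linarith
        exact lt_of_mul_lt_mul_right e3 hr.le
      · intro q hqT
        filter_upwards [away h hx hq hqT] with j hj
        linarith
  · obtain ⟨T, c, hND⟩ := caseA h hx hq (ε0 := η / 2) (by linarith) (by linarith) (fun q hq0 => by
      filter_upwards [away h hx hq (fun hc => hp ⟨q, hq0, hc⟩)] with j hj
      linarith)
    exact ⟨id, η / 2, T, c, strictMono_id, by linarith, hND⟩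

end Pool.Agent.H3.NC
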