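import Pool.Agent.H3.NC.Defs

/-!
# Module SCA: scaling

PROOF. `r = Dk s / Dk n > 0`. `x - ze k = (P s + r x - P k) / r`, so `∑ be k / (x - ze k) = tD s v * r * An (P s + r x)`, of norm `Dk s r ‖An (P s + r x)‖`. Change of variables `z = P s + r x` in the real plane (`MeasurableEquiv`, `Measure.map_addHaar_smul` / `lintegral_comp_smul`, `Complex.finrank_real_complex`, or `lintegral_image_eq_lintegral_abs_det_fderiv_mul` with `abs_det_smulRight` of H61/TT/Area): `∫⁻ x in ball ω ρ, f (P s + r x) = r⁻² ∫⁻ z in ball (P s + r ω) (r ρ), f z`.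
Factor: `Dk s r r⁻² = Dk s / r = Dk n`.
-/

set_option autoImplicit false

open Filter Topology Polynomial Metric Set MeasureTheory

namespace Pool.Agent.H3.NC

open Pool.Agent.H61.TT Pool.Agent.H57.CP

variable {a b : Polynomial ℂ}

theorem sca {v : ℂ} {n s : ℕ} (hs : 0 < Dk a b v s) (hn : 0 < Dk a b v n) (ω : ℂ) (ρ : ℝ) :
    ∫⁻ x in ball ω ρ, ‖∑ k ∈ Finset.range n, be a b v s k / (x - ze a b v n s k)‖ₑ =
      ENNReal.ofReal (Dk a b v n) * ∫⁻ z in ball ((gg a b)^[s] v + ((Dk a b v s / Dk a b v n : ℝ) : ℂ) * ω)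
        (Dk a b v s / Dk a b v n * ρ), ‖An a b v n z‖ₑ := by
  set r : ℝ := Dk a b v s / Dk a b v n with hr
  have hr0 : 0 < r := div_pos hs hn
  have hrc : (r : ℂ) ≠ 0 := by exact_mod_cast hr0.ne'
  set φ : ℂ → ℂ := fun x => (gg a b)^[s] v + (r : ℂ) * x with hφ
  have hsum : ∀ x : ℂ, ∑ k ∈ Finset.range n, be a b v s k / (x - ze a b v n s k) =
      (tD a b s v * (r : ℂ)) * An a b v n (φ x) := by
    intro x
    rw [An, Finset.mul_sum]
    refine Finset.sum_congr rfl fun k _ => ?_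
    have e1 : x - ze a b v n s k = (φ x - (gg a b)^[k] v) / (r : ℂ) := by
      rw [eq_div_iff hrc]
      have e2 : ze a b v n s k * (r : ℂ) = (gg a b)^[k] v - (gg a b)^[s] v := by
        unfold ze
        exact div_mul_cancel₀ _ hrc
      rw [sub_mul, e2, hφ]
      ring
    rw [e1, div_div_eq_mul_div]
    unfold be
    rw [div_eq_mul_inv (tD a b s v), mul_assoc, mul_comm ((tD a b k v)⁻¹) (r : ℂ), ← mul_assoc, mul_div_assoc]
  have hnorm : ∀ x : ℂ, ‖∑ k ∈ Finset.range n, be a b v s k / (x - ze a b v n s k)‖ₑ =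
      ENNReal.ofReal (Dk a b v n) * (ENNReal.ofReal (r ^ 2) * ‖An a b v n (φ x)‖ₑ) := by
    intro x
    rw [hsum x, enorm_mul, ← mul_assoc, ← ENNReal.ofReal_mul hn.le]
    congr 1
    rw [← ofReal_norm_eq_enorm, norm_mul, Complex.norm_real, Real.norm_eq_abs, abs_of_pos hr0]
    congr 1
    change Dk a b v s * r = Dk a b v n * r ^ 2
    have e3 : Dk a b v n * r = Dk a b v s := by
      rw [hr]
      field_simp
    rw [pow_two, ← mul_assoc, e3]
  have himg : φ '' ball ω ρ = ball ((gg a b)^[s] v + (r : ℂ) * ω) (r * ρ) := by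
    ext z
    constructor
    · rintro ⟨x, hx, rfl⟩
      rw [mem_ball, dist_eq_norm] at hx ⊢
      have e4 : φ x - ((gg a b)^[s] v + (r : ℂ) * ω) = (r : ℂ) * (x - ω) := by
        rw [hφ]
        ring
      rw [e4, norm_mul, Complex.norm_real, Real.norm_eq_abs, abs_of_pos hr0]
      exact mul_lt_mul_of_pos_left hx hr0
    · intro hz
      refine ⟨(z - (gg a b)^[s] v) / (r : ℂ), ?_, ?_⟩
      · rw [mem_ball, dist_eq_norm] at hz ⊢
        have e4 : (z - (gg a b)^[s] v) / (r : ℂ) - ω = (z - ((gg a b)^[s] v + (r : ℂ) * ω)) / (r : ℂ) := by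
          field_simp
          ring
        rw [e4, norm_div, Complex.norm_real, Real.norm_eq_abs, abs_of_pos hr0, div_lt_iff₀ hr0, mul_comm ρ]
        exact hz
      · rw [hφ]
        change (gg a b)^[s] v + (r : ℂ) * ((z - (gg a b)^[s] v) / (r : ℂ)) = z
        rw [mul_div_cancel₀ _ hrc]
        ring
  have hder : ∀ x ∈ ball ω ρ, HasFDerivWithinAt φ
      ((ContinuousLinearMap.smulRight (1 : ℂ →L[ℂ] ℂ) (r : ℂ)).restrictScalars ℝ) (ball ω ρ) x := by
    intro x _
    have h1 : HasDerivAt φ (r : ℂ) x := by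
      have h2 := ((hasDerivAt_id x).const_mul (r : ℂ)).const_add ((gg a b)^[s] v)
      rw [mul_one] at h2
      exact h2
    exact (h1.hasFDerivAt.restrictScalars ℝ).hasFDerivWithinAt
  have hinj : InjOn φ (ball ω ρ) := by
    intro x _ y _ hxy
    have h2 : (r : ℂ) * x = (r : ℂ) * y := add_left_cancel hxy
    exact mul_left_cancel₀ hrc h2
  have hcv := lintegral_image_eq_lintegral_abs_det_fderiv_mul volume measurableSet_ball hder hinj
    (fun z => ‖An a b v n z‖ₑ)
  have hdet : |((ContinuousLinearMap.smulRight (1 : ℂ →L[ℂ] ℂ) (r : ℂ)).restrictScalars ℝ).det| = r ^ 2 := by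
    rw [abs_det_smulRight, Complex.norm_real, Real.norm_eq_abs, sq_abs]
  rw [himg] at hcv
  rw [hcv, ← lintegral_const_mul' _ _ ENNReal.ofReal_ne_top]
  refine lintegral_congr fun x => ?_
  rw [hnorm x]
  congr 2
  rw [hdet]

end Pool.Agent.H3.NC
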