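import Pool.Agent.H3.NC.MAS
import Pool.Agent.H3.NC.KIN

/-!
# Module WAN: the mass of `A_n` on the pull back of a wandering disc is `o(1 / Dk n)`

PROOF. `S = ball w1 ρ1`. `z ∈ pre^[i] S` means: no poles among the first `i` points of the orbit and `gg^[i] z ∈ S`; then `(rat a b)^[i] z = gg^[i] z` (`rat_it`, H57/CP/BAS) and `z ∈ closedBall 0 R0` (`bd`). The sets `pre^[i] S` are measurable and pairwise disjoint (`hw`: if `z ∈ pre^[i] S ∩ pre^[j] S`, `i < j`, then `gg^[i] z ∈ S` and `(rat a b)^[j - i]` of it is in `S`),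
so `∑' volume (pre^[i] S) ≤ volume (closedBall 0 R0) < ∞`, `V M = ⋃_(i ≥ M) pre^[i] S` has `volume (V M) → 0` (tails of a convergent sum in `ENNReal`: `ENNReal.tendsto_sum_nat_add` / `tendsto_tsum_compl_atTop_zero`). `Er .. (V M) (V M) ≤ (Dk n)⁻¹ (2 C card F + 1) (3 π δ' + volume (V M) / δ')` by `kin` for all `δ' > 0`: choose `δ'`, then `M`, such that it is at most `ε / Dk n`
(`F`, `C` do not depend on `n`). `U ⊆ pre^[n - k] S`, so `pre^[i] U ⊆ pre^[n - k + i] S ⊆ V (n - k) ⊆ V M`, pairwise disjoint. `∫⁻_(pre^[t] U) ‖An‖ₑ ≤ ∑_(k<n) ‖(tD k v)⁻¹‖ₑ (3 π δ' + volume (pre^[t] U) / δ')` tends to 0 for `t → ∞` (`volume (pre^[t] U) → 0`): so `mas` gives the claim in the limit `t → ∞` (`ge_of_tendsto'`).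
-/

set_option autoImplicit false

open Filter Topology Polynomial Metric Set MeasureTheory

namespace Pool.Agent.H3.NC

open Pool.Agent.H44.Fatou (rat)
open Pool.Agent.H80.AJ (Br KK)
open Pool.Agent.H61.TT Pool.Agent.H57.CP

variable {d D : ℕ} {a b : Polynomial ℂ} {J : Set ℂ} {δ0 R0 : ℝ}

private theorem wan_mem {T : Set ℂ} (i : ℕ) : ∀ z : ℂ, z ∈ (pre a b)^[i] T ↔
    (∀ j < i, b.eval ((gg a b)^[j] z) ≠ 0) ∧ (gg a b)^[i] z ∈ T := by
  induction i with
  | zero =>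
    intro z
    constructor
    · intro hz
      exact ⟨fun j hj => absurd hj (by omega), hz⟩
    · rintro ⟨-, hz⟩
      exact hz
  | succ i ih =>
    intro z
    rw [Function.iterate_succ_apply']
    constructor
    · rintro ⟨h1, h2⟩
      obtain ⟨h3, h4⟩ := (ih (gg a b z)).1 h2
      refine ⟨fun j hj => ?_, ?_⟩
      · cases j with
        | zero => exact h1
        | succ j =>
          rw [Function.iterate_succ_apply]
          exact h3 j (by omega)
      · rw [Function.iterate_succ_apply]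
        exact h4
    · rintro ⟨h1, h2⟩
      refine ⟨h1 0 (by omega), (ih (gg a b z)).2 ⟨fun j hj => ?_, ?_⟩⟩
      · rw [← Function.iterate_succ_apply]
        exact h1 (j + 1) (by omega)
      · rw [← Function.iterate_succ_apply]
        exact h2

private theorem wan_mono {U T : Set ℂ} (hUT : U ⊆ T) (i : ℕ) : (pre a b)^[i] U ⊆ (pre a b)^[i] T := by
  intro z hz
  obtain ⟨h1, h2⟩ := (wan_mem i z).1 hz
  exact (wan_mem i z).2 ⟨h1, hUT h2⟩

private theorem wan_meas {T : Set ℂ} (hT : MeasurableSet T) (i : ℕ) : MeasurableSet ((pre a b)^[i] T) := by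
  induction i with
  | zero => exact hT
  | succ i ih =>
    rw [Function.iterate_succ_apply']
    exact measurableSet_pre ih

private theorem wan_rat {T : Set ℂ} {i : ℕ} {z : ℂ} (hz : z ∈ (pre a b)^[i] T) :
    (rat a b)^[i] (z : OnePoint ℂ) = ((gg a b)^[i] z : ℂ) ∧ (gg a b)^[i] z ∈ T := by
  obtain ⟨h1, h2⟩ := (wan_mem i z).1 hz
  exact ⟨rat_it h1 i le_rfl, h2⟩

private theorem wan_disj {T : Set ℂ}
    (hw : ∀ m : ℕ, 0 < m → ∀ z ∈ T, ∀ z' ∈ T, (rat a b)^[m] (z : OnePoint ℂ) ≠ (z' : OnePoint ℂ))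
    {i j : ℕ} (hij : i < j) : Disjoint ((pre a b)^[i] T) ((pre a b)^[j] T) := by
  rw [Set.disjoint_left]
  intro z hi hj
  obtain ⟨h1, h2⟩ := wan_rat hi
  obtain ⟨h3, h4⟩ := wan_rat hj
  refine hw (j - i) (by omega) _ h2 _ h4 ?_
  rw [← h1, ← Function.iterate_add_apply, Nat.sub_add_cancel hij.le, h3]

private theorem wan_pair {T : Set ℂ}
    (hw : ∀ m : ℕ, 0 < m → ∀ z ∈ T, ∀ z' ∈ T, (rat a b)^[m] (z : OnePoint ℂ) ≠ (z' : OnePoint ℂ)) :
    Pairwise (fun i j => Disjoint ((pre a b)^[i] T) ((pre a b)^[j] T)) := by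
  intro i j hij
  rcases lt_or_gt_of_ne hij with h | h
  · exact wan_disj hw h
  · exact (wan_disj hw h).symm

private theorem wan_bd (h : NS d D a b J δ0 R0) {y : ℂ} (hy : y ∈ J) {T : Set ℂ} (hT : T ⊆ ball y δ0) (i : ℕ) :
    (pre a b)^[i] T ⊆ closedBall 0 R0 := by
  intro z hz
  obtain ⟨h1, h2⟩ := wan_rat hz
  obtain ⟨z', h3, h4⟩ := h.bd i (z : OnePoint ℂ) ⟨y, hy, _, hT h2, h1⟩
  have h5 : z = z' := OnePoint.coe_injective h3
  rw [mem_closedBall_zero_iff, h5]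
  exact h4

private theorem wan_fin (v : ℂ) (n : ℕ) (R : ℝ) : ∫⁻ x in closedBall (0 : ℂ) R, ‖An a b v n x‖ₑ ≠ ⊤ := by
  have hm : ∀ k ∈ Finset.range n, Measurable fun x : ℂ => ‖(tD a b k v)⁻¹‖ₑ * ‖(x - (gg a b)^[k] v)⁻¹‖ₑ := by
    intro k _
    exact ((measurable_id.sub_const _).inv.enorm).const_mul _
  have h1 : ∫⁻ x in closedBall (0 : ℂ) R, ‖An a b v n x‖ₑ ≤
      ∑ k ∈ Finset.range n, ‖(tD a b k v)⁻¹‖ₑ * (ENNReal.ofReal (3 * Real.pi * 1) +
        ENNReal.ofReal (1 : ℝ)⁻¹ * volume (closedBall (0 : ℂ) R)) := by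
    calc ∫⁻ x in closedBall (0 : ℂ) R, ‖An a b v n x‖ₑ ≤
        ∫⁻ x in closedBall (0 : ℂ) R, ∑ k ∈ Finset.range n, ‖(tD a b k v)⁻¹‖ₑ * ‖(x - (gg a b)^[k] v)⁻¹‖ₑ := by
          refine lintegral_mono fun x => ?_
          unfold An
          refine (enorm_sum_le _ _).trans (le_of_eq ?_)
          refine Finset.sum_congr rfl fun k _ => ?_
          rw [div_eq_mul_inv, enorm_mul]
      _ = ∑ k ∈ Finset.range n, ‖(tD a b k v)⁻¹‖ₑ * ∫⁻ x in closedBall (0 : ℂ) R, ‖(x - (gg a b)^[k] v)⁻¹‖ₑ := by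
          rw [lintegral_finset_sum _ hm]
          refine Finset.sum_congr rfl fun k _ => ?_
          exact lintegral_const_mul _ (measurable_id.sub_const _).inv.enorm
      _ ≤ _ := by
          refine Finset.sum_le_sum fun k _ => ?_
          exact mul_le_mul_right (kin measurableSet_closedBall _ one_pos) _
  refine ne_top_of_le_ne_top ?_ h1
  refine (ENNReal.sum_lt_top.2 fun k _ => ?_).ne
  refine ENNReal.mul_lt_top enorm_lt_top (ENNReal.add_lt_top.2 ⟨ENNReal.ofReal_lt_top, ?_⟩)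
  exact ENNReal.mul_lt_top ENNReal.ofReal_lt_top
    (isCompact_closedBall (0 : ℂ) R).measure_lt_top

private theorem wan_er {F : Finset ℂ} {C : ℝ} {v : ℂ} {n : ℕ} {V : Set ℂ} (hV : MeasurableSet V) {δ : ℝ} (hδ : 0 < δ) :
    Er a b F C v n V V ≤ ENNReal.ofReal (Dk a b v n)⁻¹ * ((ENNReal.ofReal C * (F.card * 2) + 1) *
      (ENNReal.ofReal (3 * Real.pi * δ) + ENNReal.ofReal δ⁻¹ * volume V)) := by
  unfold Er
  refine mul_le_mul_right ?_ _
  set B := ENNReal.ofReal (3 * Real.pi * δ) + ENNReal.ofReal δ⁻¹ * volume V with hB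
  calc ENNReal.ofReal C * ∑ p ∈ F, ((∫⁻ x in V, ‖(x - gg a b p)⁻¹‖ₑ) +
      ∫⁻ x in V, ‖(x - p)⁻¹‖ₑ) + ∫⁻ x in V, ‖(x - (gg a b)^[n] v)⁻¹‖ₑ
      ≤ ENNReal.ofReal C * ∑ _p ∈ F, (B + B) + B := by
        refine add_le_add (mul_le_mul_right (Finset.sum_le_sum fun p _ => ?_) _) (kin hV _ hδ)
        exact add_le_add (kin hV _ hδ) (kin hV _ hδ)
    _ = (ENNReal.ofReal C * (F.card * 2) + 1) * B := by
        rw [Finset.sum_const, nsmul_eq_mul]
        ring

theorem wan_small (h : NS d D a b J δ0 R0) {c : ℂ} (hc : c ∈ J) (hcr : (ww a b).eval c = 0) (hp : Pas D a b c)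
    {y w1 : ℂ} {ρ1 : ℝ} (hy : y ∈ J) (hρ1 : 0 < ρ1) (hs : ball w1 ρ1 ⊆ ball y δ0)
    (hw : ∀ m : ℕ, 0 < m → ∀ z ∈ ball w1 ρ1, ∀ z' ∈ ball w1 ρ1, (rat a b)^[m] (z : OnePoint ℂ) ≠ (z' : OnePoint ℂ))
    {ε : ℝ} (hε : 0 < ε) : ∃ M : ℕ, ∀ (n k : ℕ) (U : Set ℂ), M ≤ n - k → (∀ i ≤ n, 0 < Dk a b (gg a b c) i) →
      MeasurableSet U → U ⊆ (pre a b)^[n - k] (ball w1 ρ1) →
      ∫⁻ x in U, ‖An a b (gg a b c) n x‖ₑ ≤ ENNReal.ofReal (ε / Dk a b (gg a b c) n) := by
  obtain ⟨F, C, hmas⟩ := mas h hc hcr hp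
  set T : ℕ → Set ℂ := fun i => (pre a b)^[i] (ball w1 ρ1) with hT
  have hTm : ∀ i, MeasurableSet (T i) := fun i => wan_meas measurableSet_ball i
  have hTd : Pairwise (fun i j => Disjoint (T i) (T j)) := wan_pair hw
  have hTb : ∀ i, T i ⊆ closedBall 0 R0 := fun i => wan_bd h hy hs i
  have hTs : ∑' i, volume (T i) ≠ ⊤ := by
    rw [← measure_iUnion hTd hTm]
    refine ne_top_of_le_ne_top (isCompact_closedBall (0 : ℂ) R0).measure_lt_top.ne
      (measure_mono (iUnion_subset hTb))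
  have hT0 : Tendsto (fun i => volume (T i)) atTop (𝓝 0) := ENNReal.tendsto_atTop_zero_of_tsum_ne_top hTs
  -- the constants
  obtain ⟨L, hL⟩ : ∃ L : ℝ, L = max C 0 * (F.card * 2) + 1 := ⟨_, rfl⟩
  have hL0 : 0 < L := by
    rw [hL]
    have : 0 ≤ max C 0 := le_max_right _ _
    positivity
  have hLe : ENNReal.ofReal C * (F.card * 2) + 1 = ENNReal.ofReal L := by
    have h0 : 0 ≤ max C 0 := le_max_right _ _
    have h1 : ENNReal.ofReal C = ENNReal.ofReal (max C 0) := by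
      rcases le_total C 0 with h2 | h2
      · rw [max_eq_right h2, ENNReal.ofReal_of_nonpos h2, ENNReal.ofReal_zero]
      · rw [max_eq_left h2]
    rw [hL, ENNReal.ofReal_add (by positivity) zero_le_one, ENNReal.ofReal_mul h0, ENNReal.ofReal_mul (by positivity),
      ENNReal.ofReal_natCast, ENNReal.ofReal_one, h1]
    norm_num
  obtain ⟨δ, hδ⟩ : ∃ δ : ℝ, δ = ε / (6 * Real.pi * L) := ⟨_, rfl⟩
  have hδ0 : 0 < δ := by
    rw [hδ]
    have := Real.pi_pos
    positivity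
  have hη : 0 < ε * δ / (2 * L) := by positivity
  obtain ⟨M, hM⟩ := ((ENNReal.tendsto_sum_nat_add (fun i => volume (T i)) hTs).eventually_le_const
    (show (0 : ENNReal) < ENNReal.ofReal (ε * δ / (2 * L)) from ENNReal.ofReal_pos.2 hη)).exists
  refine ⟨M, ?_⟩
  intro n k U hMn hD hU hUT
  set v := gg a b c with hv
  set V : Set ℂ := ⋃ i, T (i + M) with hV
  have hVm : MeasurableSet V := MeasurableSet.iUnion fun i => hTm _
  have hVv : volume V ≤ ENNReal.ofReal (ε * δ / (2 * L)) := (measure_iUnion_le _).trans hM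
  have hUi : ∀ i, (pre a b)^[i] U ⊆ T (n - k + i) := by
    intro i
    refine (wan_mono hUT i).trans ?_
    rw [← Function.iterate_add_apply, add_comm i (n - k)]
  have hUV : ∀ i, (pre a b)^[i] U ⊆ V := by
    intro i
    refine (hUi i).trans ?_
    have h1 : n - k + i = (n - k + i - M) + M := by omega
    rw [h1]
    exact subset_iUnion (fun i => T (i + M)) (n - k + i - M)
  have hUd : Pairwise (fun i j => Disjoint ((pre a b)^[i] U) ((pre a b)^[j] U)) := by
    intro i j hij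
    refine (hTd (i := n - k + i) (j := n - k + j) (by omega)).mono (hUi i) (hUi j)
  have hlim : Tendsto (fun t => ∫⁻ x in (pre a b)^[t] U, ‖An a b v n x‖ₑ) atTop (𝓝 0) := by
    have h1 : Tendsto (fun t => (volume.restrict (closedBall (0 : ℂ) R0)) ((pre a b)^[t] U)) atTop (𝓝 0) := by
      refine tendsto_of_tendsto_of_tendsto_of_le_of_le tendsto_const_nhds
        (hT0.comp (tendsto_add_atTop_nat (n - k))) (fun t => zero_le) ?_
      intro t
      refine (Measure.restrict_apply_le _ _).trans ?_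
      have h2 := measure_mono (μ := volume) (hUi t)
      rw [add_comm] at h2
      exact h2
    have h2 := tendsto_setLIntegral_zero (μ := volume.restrict (closedBall (0 : ℂ) R0))
      (f := fun x => ‖An a b v n x‖ₑ) (wan_fin v n R0) (s := fun t => (pre a b)^[t] U) h1
    refine h2.congr fun t => ?_
    rw [Measure.restrict_restrict (wan_meas hU t), inter_eq_left.2 ((hUi t).trans (hTb _))]
  have hall : ∀ t : ℕ, ∫⁻ x in U, ‖An a b v n x‖ₑ ≤ (∫⁻ x in (pre a b)^[t] U, ‖An a b v n x‖ₑ) +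
      Er a b F C v n V V := fun t => hmas n hD U V hU hVm hUV hUd t
  have h3 : ∫⁻ x in U, ‖An a b v n x‖ₑ ≤ 0 + Er a b F C v n V V :=
    ge_of_tendsto' (hlim.add_const _) hall
  rw [zero_add] at h3
  refine h3.trans ((wan_er hVm hδ0).trans ?_)
  rw [hLe]
  have hDn : 0 < Dk a b v n := hD n le_rfl
  calc ENNReal.ofReal (Dk a b v n)⁻¹ * (ENNReal.ofReal L *
      (ENNReal.ofReal (3 * Real.pi * δ) + ENNReal.ofReal δ⁻¹ * volume V))
      ≤ ENNReal.ofReal (Dk a b v n)⁻¹ * (ENNReal.ofReal L *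
      (ENNReal.ofReal (3 * Real.pi * δ) + ENNReal.ofReal δ⁻¹ * ENNReal.ofReal (ε * δ / (2 * L)))) := by
        gcongr
    _ = ENNReal.ofReal ((Dk a b v n)⁻¹ * (L * (3 * Real.pi * δ + δ⁻¹ * (ε * δ / (2 * L))))) := by
        have h4 : 0 ≤ 3 * Real.pi * δ := by
          have := Real.pi_pos
          positivity
        have h5 : 0 ≤ δ⁻¹ := by positivity
        have h6 : 0 ≤ δ⁻¹ * (ε * δ / (2 * L)) := by positivity
        have h7 : 0 ≤ (Dk a b v n)⁻¹ := by positivity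
        rw [ENNReal.ofReal_mul h7, ENNReal.ofReal_mul hL0.le, ENNReal.ofReal_add h4 h6,
          ENNReal.ofReal_mul (p := δ⁻¹) h5]
    _ ≤ ENNReal.ofReal (ε / Dk a b v n) := by
        refine ENNReal.ofReal_le_ofReal (le_of_eq ?_)
        rw [hδ]
        have := Real.pi_pos
        field_simp
        ring

end Pool.Agent.H3.NC
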