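import Pool.Agent.H3.NC.ABC
import Pool.Agent.H3.NC.NER
import Pool.Agent.H3.NC.L1N
import Pool.Agent.H3.NC.FRC
import Pool.Agent.H3.NC.WAN
import Pool.Agent.H3.NC.SCA

/-!
# Module MAIN: no passive critical value is conical (in the planar setting)

PROOF. `v = gg a b c ∈ J`. `sel`: `y, x0, n, s, G`; `near_data`: `φ, ε0, T, c'`; replace `n, s, G` by their compositions with `φ` (`SQ.sub`). `τ = ∑' c' ≠ 0`. `l1n`: near, `frc`: far, `C`. `r j = Dk (s j) / Dk (n j)`, `P k = gg^[k] v`.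
`h.wan` at `y` with `ε = min (ε0 / (8 KK)) (min (δ / 8) δ0)`: a wandering disc `ball w1 ρ1 ⊆ ball y ε` (so `ρ1 ≤ ε`, as the disc is contained in a ball of radius `ε`). Eventually `‖P (n j) - y‖ < ε`, so `‖w1 - P (n j)‖ < 2 ε ≤ min (ε0 / (4 KK)) (δ / 4)`. `ω j = (gg^[s j] (G j w1) - P (s j)) / r j`: `‖ω j‖ ≤ KK ‖w1 - P (n j)‖ < ε0 / 4` (`kbe1`).
A subsequence `ω (ψ j) → ω`, `‖ω‖ ≤ ε0 / 4` (apply everything to the subsequence: all `Tendsto` / `∀ᶠ` facts pass). `ρ' = ρ1 / (32 KK) ≤ ε0 / 8`: `ball ω ρ' ⊆ ball 0 (ε0 / 2)`, and eventually `ball ω ρ' ⊆ ball (ω j) (2 ρ')`. `sca`: `∫⁻_(ball (ω j) (2 ρ')) ‖∑ be / (x - ze)‖ₑ = ofReal (Dk (n j)) ∫⁻_(ball (P s + r ω j) (2 ρ' r)) ‖An‖ₑ`, `P s + r ω j = gg^[s] (G w1)`,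
`2 ρ' r = ρ1 r / (16 KK)`: this disc is in `U j = (gg^[s j] ∘ G j) '' ball w1 ρ1` (`kbe3`; `ρ1 ≤ δ / 4`), measurable (`brn`: injective and continuous on the ball: `MeasurableSet.image_of_continuousOn_injOn`), and `U j ⊆ pre^[n j - s j] (ball w1 ρ1)` (`brn`, `bdo`). `wan_small` with `ε' > 0`: `n j - s j ≥ M` eventually (`ns`): the integral is at most `ofReal (Dk n) ofReal (ε' / Dk n) = ofReal ε'`. So it tends to 0: `abc` gives `False`.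
-/

set_option autoImplicit false

open Filter Topology Polynomial Metric Set MeasureTheory

namespace Pool.Agent.H3.NC

open Pool.Agent.H44.Fatou (rat)
open Pool.Agent.H80.AJ (Br KK)
open Pool.Agent.H61.TT Pool.Agent.H57.CP

variable {d D : ℕ} {a b : Polynomial ℂ} {J : Set ℂ} {δ0 R0 : ℝ}

/-- the inequality for one conical time -/
private theorem one_time (h : NS d D a b J δ0 R0) {v : ℂ} (hv : v ∈ J) {δ : ℝ} (hδ : 0 < δ) (hδ0 : δ ≤ δ0)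
    {n s : ℕ} {G : ℂ → ℂ} (hG : Cal a b v δ n G) (hsn : s < n) {w1 : ℂ} {ρ : ℝ} (hρ : 0 < ρ) (hρ4 : ρ ≤ δ / 4)
    (hw1 : ‖w1 - (gg a b)^[n] v‖ ≤ δ / 4) :
    MeasurableSet (((gg a b)^[s] ∘ G) '' ball w1 ρ) ∧
      ((gg a b)^[s] ∘ G) '' ball w1 ρ ⊆ (pre a b)^[n - s] (ball w1 ρ) ∧
      ∫⁻ x in ball (((gg a b)^[s] (G w1) - (gg a b)^[s] v) / ((Dk a b v s / Dk a b v n : ℝ) : ℂ)) (2 * (ρ / (32 * KK))),
        ‖∑ k ∈ Finset.range n, be a b v s k / (x - ze a b v n s k)‖ₑ ≤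
        ENNReal.ofReal (Dk a b v n) * ∫⁻ z in ((gg a b)^[s] ∘ G) '' ball w1 ρ, ‖An a b v n z‖ₑ := by
  have hKK : 0 < KK := Pool.Agent.H80.AJ.KK_pos
  have hsub : ball w1 ρ ⊆ ball ((gg a b)^[n] v) δ := by
    refine ball_subset_ball' ?_
    rw [dist_eq_norm]
    linarith
  obtain ⟨hbr, hinj, hDn, hDs, -⟩ := brn h hv hδ hδ0 hG hsn.le
  have hPJ : (gg a b)^[n] v ∈ J := itJ h hv n
  refine ⟨?_, ?_, ?_⟩
  · exact measurableSet_ball.image_of_continuousOn_injOn ((hbr.diff.mono hsub).continuousOn) (hinj.mono hsub)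
  · rintro _ ⟨u, hu, rfl⟩
    have hinv := hbr.inv u (hsub hu)
    have hu0 : u ∈ ball ((gg a b)^[n] v) δ0 := ball_subset_ball hδ0 (hsub hu)
    obtain ⟨h1, -, h3⟩ := bdo h hPJ hu0 hinv
    rw [mem_pre]
    refine ⟨h3, ?_⟩
    rw [h1]
    exact hu
  · have hr : 0 < Dk a b v s / Dk a b v n := div_pos hDs hDn
    have hr0 : ((Dk a b v s / Dk a b v n : ℝ) : ℂ) ≠ 0 := by exact_mod_cast hr.ne'
    rw [sca hDs hDn]
    refine mul_le_mul' le_rfl (lintegral_mono_set ?_)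
    have e1 : (gg a b)^[s] v + ((Dk a b v s / Dk a b v n : ℝ) : ℂ) *
        (((gg a b)^[s] (G w1) - (gg a b)^[s] v) / ((Dk a b v s / Dk a b v n : ℝ) : ℂ)) = (gg a b)^[s] (G w1) := by
      rw [mul_div_cancel₀ _ hr0]
      ring
    have e2 : Dk a b v s / Dk a b v n * (2 * (ρ / (32 * KK))) = ρ * (Dk a b v s / Dk a b v n) / (16 * KK) := by
      field_simp
      ring
    rw [e1, e2]
    refine kbe3 h hv hδ hδ0 hG hsn.le ?_ hρ hρ4
    rw [mem_closedBall, dist_eq_norm]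
    exact hw1

theorem nc_false (h : NS d D a b J δ0 R0) {c : ℂ} (hc : c ∈ J) (hcr : (ww a b).eval c = 0) (hp : Pas D a b c)
    {δ : ℝ} (hδ : 0 < δ) (hδ0 : δ ≤ δ0) (hcon : ∀ N : ℕ, ∃ n, N ≤ n ∧ ∃ G : ℂ → ℂ, Cal a b (gg a b c) δ n G) :
    False := by
  obtain ⟨v, hvd⟩ : ∃ v, v = gg a b c := ⟨_, rfl⟩
  rw [← hvd] at hcon
  have hv : v ∈ J := by
    rw [hvd]
    exact h.Ji c hc
  obtain ⟨y, x0, n0, s0, G0, hy, hx0, hq0, hG0, hPy0⟩ := sel h hv hδ hδ0 hcon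
  obtain ⟨φ, ε0, T, c', hφ, hε2, hd⟩ := near_data h hv hx0 hq0
  have hq := hq0.sub hφ
  have hε0 := hd.hε
  have near := l1n hq hε2 hd
  obtain ⟨C, far⟩ := frc hq hε0
  have hPy : Tendsto (fun j => (gg a b)^[(n0 ∘ φ) j] v) atTop (𝓝 y) := hPy0.comp hφ.tendsto_atTop
  have hG : ∀ j, Cal a b v δ ((n0 ∘ φ) j) ((G0 ∘ φ) j) := fun j => hG0 (φ j)
  obtain ⟨n, hn⟩ : ∃ n, n = n0 ∘ φ := ⟨_, rfl⟩
  obtain ⟨s, hs⟩ : ∃ s, s = s0 ∘ φ := ⟨_, rfl⟩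
  obtain ⟨G, hGd⟩ : ∃ G, G = G0 ∘ φ := ⟨_, rfl⟩
  rw [← hn, ← hs] at hq hd near far
  rw [← hn] at hPy
  rw [← hn, ← hGd] at hG
  clear hn hs hGd hG0 hPy0 hq0 hφ n0 s0 G0 φ
  have hKK : 0 < KK := Pool.Agent.H80.AJ.KK_pos
  have hKK1 : 1 ≤ KK := Pool.Agent.H80.AJ.one_le_KK
  -- the wandering disc
  obtain ⟨ε, hεd⟩ : ∃ ε : ℝ, ε = min (ε0 / (8 * KK)) (min (δ / 8) δ0) := ⟨_, rfl⟩
  have hε : 0 < ε := by
    rw [hεd]
    exact lt_min (by positivity) (lt_min (by positivity) h.hδ0)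
  have hεa : ε ≤ ε0 / (8 * KK) := by
    rw [hεd]
    exact min_le_left _ _
  have hεb : ε ≤ δ / 8 := by
    rw [hεd]
    exact (min_le_right _ _).trans (min_le_left _ _)
  have hεc : ε ≤ δ0 := by
    rw [hεd]
    exact (min_le_right _ _).trans (min_le_right _ _)
  have hεa' : KK * ε ≤ ε0 / 8 := by
    calc KK * ε ≤ KK * (ε0 / (8 * KK)) := mul_le_mul_of_nonneg_left hεa hKK.le
      _ = ε0 / 8 := by field_simp
  obtain ⟨w1, ρ1, hρ1, hsub1, hw1⟩ := h.wan y hy ε hε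
  obtain ⟨ρ, hρd⟩ : ∃ ρ : ℝ, ρ = min ρ1 ε := ⟨_, rfl⟩
  have hρ : 0 < ρ := by
    rw [hρd]
    exact lt_min hρ1 hε
  have hρ1' : ρ ≤ ρ1 := by
    rw [hρd]
    exact min_le_left _ _
  have hρε : ρ ≤ ε := by
    rw [hρd]
    exact min_le_right _ _
  have hsub : ball w1 ρ ⊆ ball y ε := (ball_subset_ball hρ1').trans hsub1
  have hw : ∀ m : ℕ, 0 < m → ∀ z ∈ ball w1 ρ, ∀ z' ∈ ball w1 ρ,
      (rat a b)^[m] (z : OnePoint ℂ) ≠ (z' : OnePoint ℂ) := fun m hm z hz z' hz' =>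
    hw1 m hm z (ball_subset_ball hρ1' hz) z' (ball_subset_ball hρ1' hz')
  have hwy : ‖w1 - y‖ < ε := by
    have := hsub (mem_ball_self hρ)
    rwa [mem_ball, dist_eq_norm] at this
  -- eventually the disc is close to the conical point
  have hclose : ∀ᶠ j in atTop, ‖w1 - (gg a b)^[n j] v‖ < 2 * ε := by
    filter_upwards [hPy.eventually (Metric.ball_mem_nhds y hε)] with j hj
    rw [dist_eq_norm] at hj
    calc ‖w1 - (gg a b)^[n j] v‖ = ‖(w1 - y) - ((gg a b)^[n j] v - y)‖ := by congr 1; ring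
      _ ≤ ‖w1 - y‖ + ‖(gg a b)^[n j] v - y‖ := norm_sub_le _ _
      _ < 2 * ε := by linarith
  obtain ⟨ω, hω⟩ : ∃ ω : ℕ → ℂ, ω = fun j => ((gg a b)^[s j] (G j w1) - (gg a b)^[s j] v) /
      ((Dk a b v (s j) / Dk a b v (n j) : ℝ) : ℂ) := ⟨_, rfl⟩
  have hDn : ∀ j, 0 < Dk a b v (n j) := fun j => hq.pos j (n j) le_rfl
  have hDs : ∀ j, 0 < Dk a b v (s j) := fun j => hq.pos j (s j) (hq.lt j).le
  have hωb : ∀ᶠ j in atTop, ω j ∈ closedBall (0 : ℂ) (ε0 / 4) := by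
    filter_upwards [hclose] with j hj
    rw [mem_closedBall, dist_zero_right, hω]
    have hr : 0 < Dk a b v (s j) / Dk a b v (n j) := div_pos (hDs j) (hDn j)
    have h1 := kbe1 h hv hδ hδ0 (hG j) (hq.lt j).le (u := w1) (by
      rw [mem_closedBall, dist_eq_norm]
      linarith)
    change ‖((gg a b)^[s j] (G j w1) - (gg a b)^[s j] v) / ((Dk a b v (s j) / Dk a b v (n j) : ℝ) : ℂ)‖ ≤ ε0 / 4
    rw [norm_div, Complex.norm_real, Real.norm_eq_abs, abs_of_pos hr, div_le_iff₀ hr]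
    refine h1.trans ?_
    have h2 : KK * ‖w1 - (gg a b)^[n j] v‖ ≤ ε0 / 4 := by
      have := mul_le_mul_of_nonneg_left hj.le hKK.le
      linarith
    calc KK * (Dk a b v (s j) / Dk a b v (n j)) * ‖w1 - (gg a b)^[n j] v‖
        = KK * ‖w1 - (gg a b)^[n j] v‖ * (Dk a b v (s j) / Dk a b v (n j)) := by ring
      _ ≤ ε0 / 4 * (Dk a b v (s j) / Dk a b v (n j)) := mul_le_mul_of_nonneg_right h2 hr.le
  obtain ⟨ω0, hω0, ψ, hψ, hψω⟩ := (isCompact_closedBall (0 : ℂ) (ε0 / 4)).tendsto_subseq' hωb.frequently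
  rw [mem_closedBall, dist_zero_right] at hω0
  obtain ⟨ρ', hρ'd⟩ : ∃ ρ' : ℝ, ρ' = ρ / (32 * KK) := ⟨_, rfl⟩
  have hρ' : 0 < ρ' := by
    rw [hρ'd]
    positivity
  have hρ'8 : ρ' ≤ ε0 / 8 := by
    rw [hρ'd, div_le_iff₀ (by positivity)]
    have h1 : ε ≤ KK * ε := by nlinarith
    have h2 : ε0 / 8 ≤ ε0 / 8 * (32 * KK) := by
      have : 1 ≤ 32 * KK := by linarith
      nlinarith
    linarith
  have hball : ball ω0 ρ' ⊆ ball 0 (ε0 / 2) := by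
    refine ball_subset_ball' ?_
    rw [dist_zero_right]
    linarith
  have hψt := hψ.tendsto_atTop
  -- the integral over the small disc tends to 0
  have small : Tendsto (fun j => ∫⁻ x in ball ω0 ρ', ‖∑ k ∈ Finset.range (n (ψ j)),
      be a b v (s (ψ j)) k / (x - ze a b v (n (ψ j)) (s (ψ j)) k)‖ₑ) atTop (𝓝 0) := by
    rw [ENNReal.tendsto_nhds_zero]
    intro e he
    obtain ⟨ε', hε', hε'e⟩ : ∃ ε' : ℝ, 0 < ε' ∧ ENNReal.ofReal ε' ≤ e := by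
      by_cases het : e = ⊤
      · exact ⟨1, one_pos, by rw [het]; exact le_top⟩
      · exact ⟨e.toReal, ENNReal.toReal_pos he.ne' het, (ENNReal.ofReal_toReal het).le⟩
    obtain ⟨M, hM⟩ := wan_small h hc hcr hp hy hρ (hsub.trans (ball_subset_ball hεc)) hw hε'
    rw [← hvd] at hM
    have e1 : ∀ᶠ j in atTop, M ≤ n (ψ j) - s (ψ j) := (hq.ns.comp hψt).eventually_ge_atTop M
    have e2 : ∀ᶠ j in atTop, ‖w1 - (gg a b)^[n (ψ j)] v‖ < 2 * ε := hψt.eventually hclose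
    have e3 : ∀ᶠ j in atTop, ω (ψ j) ∈ ball ω0 ρ' := hψω.eventually (Metric.ball_mem_nhds ω0 hρ')
    filter_upwards [e1, e2, e3] with j h1 h2 h3
    obtain ⟨hm, hU, hint⟩ := one_time h hv hδ hδ0 (hG (ψ j)) (hq.lt (ψ j)) (w1 := w1) (ρ := ρ) hρ (by linarith)
      (by linarith)
    have h4 := hM (n (ψ j)) (s (ψ j)) _ h1 (fun i hi => hq.pos (ψ j) i hi) hm hU
    have h5 : ball ω0 ρ' ⊆ ball (((gg a b)^[s (ψ j)] (G (ψ j) w1) - (gg a b)^[s (ψ j)] v) /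
        ((Dk a b v (s (ψ j)) / Dk a b v (n (ψ j)) : ℝ) : ℂ)) (2 * (ρ / (32 * KK))) := by
      have h6 : ((gg a b)^[s (ψ j)] (G (ψ j) w1) - (gg a b)^[s (ψ j)] v) /
        ((Dk a b v (s (ψ j)) / Dk a b v (n (ψ j)) : ℝ) : ℂ) = ω (ψ j) := by rw [hω]
      rw [h6, ← hρ'd]
      refine ball_subset_ball' ?_
      rw [mem_ball, dist_comm] at h3
      linarith
    calc ∫⁻ x in ball ω0 ρ', ‖∑ k ∈ Finset.range (n (ψ j)),
          be a b v (s (ψ j)) k / (x - ze a b v (n (ψ j)) (s (ψ j)) k)‖ₑ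
        ≤ _ := lintegral_mono_set h5
      _ ≤ _ := hint
      _ ≤ ENNReal.ofReal (Dk a b v (n (ψ j))) * ENNReal.ofReal (ε' / Dk a b v (n (ψ j))) :=
          mul_le_mul' le_rfl h4
      _ = ENNReal.ofReal ε' := by
          rw [← ENNReal.ofReal_mul (hDn (ψ j)).le, mul_div_cancel₀ _ (hDn (ψ j)).ne']
      _ ≤ e := hε'e
  exact abc (fun j => n (ψ j)) (fun j k => be a b v (s (ψ j)) k) (fun j k => ze a b v (n (ψ j)) (s (ψ j)) k) hε0
    hd.tau hρ' hball (near.comp hψt) (hψt.eventually far) small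

end Pool.Agent.H3.NC
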