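import Mathlib
import Pool.Agent.H64.NC.FNC
import Pool.Agent.H3.NC.UNI
import Pool.Agent.H3.NC.PRC
import Pool.Agent.H64.MJ.FSA
import Pool.Agent.H64.MF.FSF
import Pool.Agent.H56.HF.FTF
import Pool.Agent.H57.CF.ALF
import Pool.Agent.H32.RB.Main

/-!
# Module FIN: persistent recurrence, statement for the hand-in (J not the sphere)

PROOF. Definitions as in H64/PF/CLY (`julia_eq`, `att_iff`, `number_eq`, `map_eq`, `rat_is`, `rf_ex` are copied from there). `dich`: not `Up` (`m = 0`) resp. not `UpF` (`m ≥ 2`): `nc_up` / `nc_upF` (H64/NC/FNC; `ConAt` and `CnS` unfold to the same), `uni`, and `hfat` from `fs_att` / `fs_attF` with `H56/HF/FTF` (a Julia-free critical point is attracted to a cycle in the Fatou set, at positive distance from the closed set `J`: the orbit converges to the cycle),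
Lipschitz constant of `f` for `chord` (H44/NR/Lip or the like), finitely many critical points: `prc`. `exc_nwd`: as in CLY. `stable`: the maps near `f` are conjugate to `f` on the sphere; one of them, `g`, is outside the nowhere dense set; the conjugacy maps `J(f)` onto `J(g)` (equicontinuity is a topological property on the compact sphere), critical points to critical points, and `IsPersistentlyRecurrent` is invariant: for `δ` there is `δ'` with
`chordal x y < δ' → chordal (h x) (h y) < δ`, so `h` maps `pullback g x n δ' k` into `pullback f (h x) n δ k`, and `criticalTimes g x n δ' ⊆ criticalTimes f (h x) n δ`.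
-/

set_option autoImplicit false

namespace Pool.Agent.H3.NC.Y

open Polynomial Filter Topology

/-- `f` is the rational map `P/Q` on the sphere. -/
def IsMap (f : OnePoint ℂ → OnePoint ℂ) (P Q : Polynomial ℂ) : Prop :=
  Continuous f ∧
    ∀ z : ℂ, Q.eval z ≠ 0 → f (OnePoint.some z) = OnePoint.some (P.eval z / Q.eval z)

/-- `c` is a critical point of `f`. -/
def IsCritical (f : OnePoint ℂ → OnePoint ℂ) (c : OnePoint ℂ) : Prop :=
  ¬ ∃ U ∈ nhds c, Set.InjOn f U

/-- `c` is attracted by an attracting cycle of `f` (words of the frozen statement `S05373`). -/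
def IsAttracted (f : OnePoint ℂ → OnePoint ℂ) (c : OnePoint ℂ) : Prop :=
  ∃ z : OnePoint ℂ, ∃ n : ℕ, 0 < n ∧ f^[n] z = z ∧
    (∃ U ∈ nhds z, ∀ w ∈ U,
      Filter.Tendsto (fun k : ℕ => f^[n * k] w) Filter.atTop (nhds z)) ∧
    Filter.Tendsto (fun k : ℕ => f^[n * k] c) Filter.atTop (nhds z)

/-- The number of the critical points which are attracted by attracting cycles. -/
noncomputable def attractedNumber (f : OnePoint ℂ → OnePoint ℂ) : ℕ :=
  {c : OnePoint ℂ | IsCritical f c ∧ IsAttracted f c}.ncard

/-- The chordal distance of the Riemann sphere. -/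
noncomputable def chordal : OnePoint ℂ → OnePoint ℂ → ℝ
  | OnePoint.some z, OnePoint.some w => ‖z - w‖ / (√(1 + ‖z‖ ^ 2) * √(1 + ‖w‖ ^ 2))
  | OnePoint.some z, OnePoint.infty => 1 / √(1 + ‖z‖ ^ 2)
  | OnePoint.infty, OnePoint.some w => 1 / √(1 + ‖w‖ ^ 2)
  | OnePoint.infty, OnePoint.infty => 0

/-- The Julia set of `f`: the points without a neighbourhood at whose points the iterates of `f` are
equicontinuous for the chordal distance. -/
def julia (f : OnePoint ℂ → OnePoint ℂ) : Set (OnePoint ℂ) :=
  (interior {x | ∀ ε : ℝ, 0 < ε → ∀ᶠ y in nhds x, ∀ n : ℕ, chordal (f^[n] x) (f^[n] y) < ε})ᶜ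

/-- The pull back at the time `k` of the disc of radius `δ` at `f^n(x)`: the connected component of its preimage
under `f^(n-k)` which contains `f^k(x)`. -/
def pullback (f : OnePoint ℂ → OnePoint ℂ) (x : OnePoint ℂ) (n : ℕ) (δ : ℝ) (k : ℕ) : Set (OnePoint ℂ) :=
  connectedComponentIn {z | chordal (f^[n - k] z) (f^[n] x) < δ} (f^[k] x)

/-- The times `k < n` at which the pull back of the disc of radius `δ` at `f^n(x)` contains a critical point. -/
def criticalTimes (f : OnePoint ℂ → OnePoint ℂ) (x : OnePoint ℂ) (n : ℕ) (δ : ℝ) : Set ℕ :=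
  {k | k < n ∧ ∃ c, IsCritical f c ∧ c ∈ pullback f x n δ k}

/-- `c` is persistently recurrent: for all `δ` and `D` there are only finitely many `n` such that the pull backs of the
disc of radius `δ` at `f^n(f(c))` along `f(c), .., f^n(f(c))` contain critical points at most `D` times. -/
def IsPersistentlyRecurrent (f : OnePoint ℂ → OnePoint ℂ) (c : OnePoint ℂ) : Prop :=
  ∀ δ : ℝ, 0 < δ → ∀ D : ℕ, {n : ℕ | (criticalTimes f (f c) n δ).ncard ≤ D}.Finite

/-- All critical points in the Julia set are persistently recurrent. -/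
def JuliaPersistent (f : OnePoint ℂ → OnePoint ℂ) : Prop :=
  ∀ c, IsCritical f c → c ∈ julia f → IsPersistentlyRecurrent f c

/-- `f` and `g` are topologically conjugate. -/
def AreConjugate (f g : OnePoint ℂ → OnePoint ℂ) : Prop :=
  ∃ h : OnePoint ℂ ≃ₜ OnePoint ℂ, ∀ x, h (f x) = g (h x)

/-- The polynomial of degree at most `d` with coefficients `v`. -/
noncomputable def poly {d : ℕ} (v : Fin (d + 1) → ℂ) : Polynomial ℂ := ∑ i, C (v i) * X ^ (i : ℕ)

/-- Pairs of polynomials `P`, `Q` with `deg P ≤ d`, `deg Q ≤ d - m`, given by their coefficients. -/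
abbrev Pairs (d m : ℕ) : Type := (Fin (d + 1) → ℂ) × (Fin (d - m + 1) → ℂ)

/-- `f = P/Q` is the rational map of degree exactly `d` given by the pair `v = (P, Q)` of coprime
polynomials, `deg Q ≤ d - m`. For `m = 0` these are all rational maps of degree `d`, for `m ≥ 1` those
which fix infinity with local degree at least `m`, for `m = d` the polynomials (up to the constant `Q`). -/
def IsRational {d m : ℕ} (v : Pairs d m) (f : OnePoint ℂ → OnePoint ℂ) : Prop :=
  IsCoprime (poly v.1) (poly v.2) ∧ max (poly v.1).natDegree (poly v.2).natDegree = d ∧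
    IsMap f (poly v.1) (poly v.2)

theorem result (d m : ℕ) (hd : 2 ≤ d) (hm : m ≤ d) (hm1 : m ≠ 1) :
    (∀ (v : Pairs d m) (f : OnePoint ℂ → OnePoint ℂ), IsRational v f → julia f ≠ Set.univ →
      (∃ ε : ℝ, 0 < ε ∧ ∀ w ∈ Metric.ball v ε, ∀ g, IsRational w g → AreConjugate f g) → JuliaPersistent f) ∧
    (∀ (v : Pairs d m) (f : OnePoint ℂ → OnePoint ℂ), IsRational v f → julia f ≠ Set.univ →
      JuliaPersistent f ∨
        ∀ ε : ℝ, 0 < ε → ∃ w ∈ Metric.ball v ε, ∃ g, IsRational w g ∧ attractedNumber f < attractedNumber g) ∧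
    IsNowhereDense {v : Pairs d m | ∃ f : OnePoint ℂ → OnePoint ℂ, IsRational v f ∧ julia f ≠ Set.univ ∧
      ¬ JuliaPersistent f} := by
  sorry

end Pool.Agent.H3.NC.Y
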