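import Pool.Agent.H3.NC.BRN

/-!
# Module KBE: distortion of the branches

PROOF. `brn` gives that `gg^[k] ∘ G` is holomorphic and injective on `ball (P n) δ` with derivative of norm `Dk k / Dk n` at `P n`. (i) `distort_lip` (H80/AJ/Distort) with `w = u`, `w' = v = P n` (value at `P n`: `hG.val`, `Br.val`).
(ii) `univ_cover` (H80/AJ/Cover). (iii) `ball w ρ ⊆ ball (P n) δ`; `univ_cover` on `ball w ρ` gives the radius `ρ ‖deriv (gg^[k] ∘ G) w‖ / 16`, and `distort`: `‖deriv (P n)‖ ≤ KK ‖deriv w‖`.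
-/

set_option autoImplicit false

open Filter Topology Polynomial Metric Set MeasureTheory

namespace Pool.Agent.H3.NC

open Pool.Agent.H44.Fatou (rat)
open Pool.Agent.H80.AJ (Br KK)
open Pool.Agent.H61.TT Pool.Agent.H57.CP

variable {d D : ℕ} {a b : Polynomial ℂ} {J : Set ℂ} {δ0 R0 : ℝ}

theorem kbe1 (h : NS d D a b J δ0 R0) {v : ℂ} (hv : v ∈ J) {δ : ℝ} (hδ : 0 < δ) (hδ0 : δ ≤ δ0) {n : ℕ} {G : ℂ → ℂ}
    (hG : Cal a b v δ n G) {k : ℕ} (hk : k ≤ n) {u : ℂ} (hu : u ∈ closedBall ((gg a b)^[n] v) (δ / 2)) :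
    ‖(gg a b)^[k] (G u) - (gg a b)^[k] v‖ ≤ KK * (Dk a b v k / Dk a b v n) * ‖u - (gg a b)^[n] v‖ := by
  obtain ⟨hB, hinj, hDn, hDk, hder⟩ := brn h hv hδ hδ0 hG hk
  have hc : (gg a b)^[n] v ∈ closedBall ((gg a b)^[n] v) (δ / 2) := mem_closedBall_self (by positivity)
  have h1 := Pool.Agent.H80.AJ.distort_lip hδ hB.diff hinj hu hc hc
  rw [hB.val, hder] at h1
  exact h1

theorem kbe2 (h : NS d D a b J δ0 R0) {v : ℂ} (hv : v ∈ J) {δ : ℝ} (hδ : 0 < δ) (hδ0 : δ ≤ δ0) {n : ℕ} {G : ℂ → ℂ}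
    (hG : Cal a b v δ n G) {k : ℕ} (hk : k ≤ n) :
    ball ((gg a b)^[k] v) (δ * (Dk a b v k / Dk a b v n) / 16) ⊆ ((gg a b)^[k] ∘ G) '' ball ((gg a b)^[n] v) δ := by
  obtain ⟨hB, hinj, hDn, hDk, hder⟩ := brn h hv hδ hδ0 hG hk
  have h1 := Pool.Agent.H80.AJ.univ_cover hδ hB.diff hinj
  rw [hB.val, hder] at h1
  exact h1

theorem kbe3 (h : NS d D a b J δ0 R0) {v : ℂ} (hv : v ∈ J) {δ : ℝ} (hδ : 0 < δ) (hδ0 : δ ≤ δ0) {n : ℕ} {G : ℂ → ℂ}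
    (hG : Cal a b v δ n G) {k : ℕ} (hk : k ≤ n) {w : ℂ} (hw : w ∈ closedBall ((gg a b)^[n] v) (δ / 4)) {ρ : ℝ}
    (hρ : 0 < ρ) (hρ4 : ρ ≤ δ / 4) :
    ball ((gg a b)^[k] (G w)) (ρ * (Dk a b v k / Dk a b v n) / (16 * KK)) ⊆ ((gg a b)^[k] ∘ G) '' ball w ρ := by
  obtain ⟨hB, hinj, hDn, hDk, hder⟩ := brn h hv hδ hδ0 hG hk
  have hsub : ball w ρ ⊆ ball ((gg a b)^[n] v) δ := by
    intro x hx
    rw [mem_ball] at hx ⊢
    rw [mem_closedBall] at hw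
    have := dist_triangle x w ((gg a b)^[n] v)
    linarith
  have h1 := Pool.Agent.H80.AJ.univ_cover hρ (hB.diff.mono hsub) (hinj.mono hsub)
  have hc : (gg a b)^[n] v ∈ closedBall ((gg a b)^[n] v) (δ / 2) := mem_closedBall_self (by positivity)
  have hw2 : w ∈ closedBall ((gg a b)^[n] v) (δ / 2) := closedBall_subset_closedBall (by linarith) hw
  have h2 := Pool.Agent.H80.AJ.distort hδ hB.diff hinj hc hw2
  rw [hder] at h2
  refine Subset.trans (ball_subset_ball ?_) h1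
  have hK := Pool.Agent.H80.AJ.KK_pos
  rw [div_le_div_iff₀ (by positivity) (by norm_num)]
  have h3 : ρ * (Dk a b v k / Dk a b v n) ≤ ρ * (KK * ‖deriv ((gg a b)^[k] ∘ G) w‖) :=
    mul_le_mul_of_nonneg_left h2 hρ.le
  calc ρ * (Dk a b v k / Dk a b v n) * 16 ≤ ρ * (KK * ‖deriv ((gg a b)^[k] ∘ G) w‖) * 16 :=
        mul_le_mul_of_nonneg_right h3 (by norm_num)
    _ = ρ * ‖deriv ((gg a b)^[k] ∘ G) w‖ * (16 * KK) := by ring

end Pool.Agent.H3.NC
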