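import Pool.Agent.H3.NC.TPU

/-!
# Module MAS: the mass inequality

PROOF. `F`, `C` from `thb`. Off a finite set of `x` (not `RegV`: `reg_finite`; `gg p = x`; `P k = x`) `tpu`, `thb` with `η` from `h.lg`: `‖An x‖ ≤ ∑_(y ∈ fs x) ‖An y‖ / ‖dg y‖ ^ 2 + (Dk n)⁻¹ C ∑_p (‖(x - gg p)⁻¹‖ + ∑_y ‖(y - p)⁻¹‖ / ‖dg y‖ ^ 2) + (Dk n)⁻¹ ‖(x - P n)⁻¹‖`.
Integrate over `U`; `∫⁻_U ∑_(y ∈ fs x) f y / ‖dg y‖ ^ 2 = ∫⁻_(pre U) f` (`area`, H61/TT/Area, with `F y = f y * ENNReal.ofReal ((‖dg y‖ ^ 2)⁻¹)`, a.e. `dg y ≠ 0` on `pre U`: `ae_ww`, `dg_ne`). This is `mas1`.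
`mas`: induction on `t`: `U` replaced by `pre^[i] U`; the sets `pre^[i] U`, `i ≤ t`, are pairwise disjoint subsets of `V` and `pre (pre^[i] U) = pre^[i+1] U`: `∑_(i<t) ∫⁻_(pre^[i] U) f ≤ ∫⁻_V f` (`lintegral_biUnion_finset`, measurable: `measurableSet_pre`), the same for `i + 1`. (`Er` is the error term with `V` for both sets.)
-/

set_option autoImplicit false

open Filter Topology Polynomial Metric Set MeasureTheory

namespace Pool.Agent.H3.NC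

open Pool.Agent.H44.Fatou (rat)
open Pool.Agent.H80.AJ (Br KK)
open Pool.Agent.H61.TT Pool.Agent.H57.CP

variable {d D : ℕ} {a b : Polynomial ℂ} {J : Set ℂ} {δ0 R0 : ℝ}

/-- the error term -/
noncomputable def Er (a b : Polynomial ℂ) (F : Finset ℂ) (C : ℝ) (v : ℂ) (n : ℕ) (V V' : Set ℂ) : ENNReal :=
  ENNReal.ofReal (Dk a b v n)⁻¹ * (ENNReal.ofReal C * ∑ p ∈ F, ((∫⁻ x in V, ‖(x - gg a b p)⁻¹‖ₑ) +
    ∫⁻ x in V', ‖(x - p)⁻¹‖ₑ) + ∫⁻ x in V, ‖(x - (gg a b)^[n] v)⁻¹‖ₑ)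

private theorem meas_An (a b : Polynomial ℂ) (v : ℂ) (n : ℕ) : Measurable (fun x => An a b v n x) := by
  unfold An
  exact Finset.measurable_sum _ fun k _ => measurable_const.div (measurable_id.sub_const _)

private theorem meas_inv (p : ℂ) : Measurable (fun x : ℂ => (x - p)⁻¹) :=
  (measurable_id.sub_const p).inv

private theorem ofReal_norm_inv (z : ℂ) : ENNReal.ofReal ‖z‖ = ‖z‖ₑ := ofReal_norm_eq_enorm z

/-- the pointwise inequality -/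
private theorem mas_pt (h : NS d D a b J δ0 R0) {c : ℂ} (hc : c ∈ J) (hcr : (ww a b).eval c = 0)
    {F : Finset ℂ} {C : ℝ} (hC : 0 ≤ C)
    (hF : ∀ (n : ℕ) (x : ℂ), (∀ p ∈ F, gg a b p ≠ x) → ∀ η : Polynomial ℂ, η.natDegree ≤ D →
      (∀ z : ℂ, b.eval z ≠ 0 → gg a b z ≠ x →
        ∑ y ∈ fs a b x, dg a b z / ((y - z) * dg a b y ^ 2) = 1 / (x - gg a b z) + η.eval z / b.eval z ^ 2) →
      ‖Lam a b η c n‖ * Dk a b (gg a b c) n ≤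
        C * ∑ p ∈ F, (‖(x - gg a b p)⁻¹‖ + ∑ y ∈ fs a b x, ‖(y - p)⁻¹‖ * (‖dg a b y‖ ^ 2)⁻¹))
    {n : ℕ} (hn : ∀ k ≤ n, 0 < Dk a b (gg a b c) k) {x : ℂ} (hreg : RegV d a b x)
    (hx1 : ∀ p ∈ F, gg a b p ≠ x) (hx2 : ∀ k ≤ n, (gg a b)^[k] (gg a b c) ≠ x) :
    ‖An a b (gg a b c) n x‖ ≤ ∑ y ∈ fs a b x, (‖An a b (gg a b c) n y‖ + (Dk a b (gg a b c) n)⁻¹ *
        (C * ∑ p ∈ F, ‖(y - p)⁻¹‖)) * (‖dg a b y‖ ^ 2)⁻¹ +
      (Dk a b (gg a b c) n)⁻¹ * (C * ∑ p ∈ F, ‖(x - gg a b p)⁻¹‖ + ‖(x - (gg a b)^[n] (gg a b c))⁻¹‖) := by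
  obtain ⟨η, hη1, hη2⟩ := h.lg x hreg
  have h1 := tpu h hc hcr (n := n) (fun k hk => norm_pos_iff.1 (hn k hk)) hx2 hη2
  have h2 := hF n x hx1 η hη1 hη2
  have hD := hn n le_rfl
  set Dn := Dk a b (gg a b c) n with hDn
  have h3 : ‖Lam a b η c n‖ ≤ Dn⁻¹ *
      (C * ∑ p ∈ F, (‖(x - gg a b p)⁻¹‖ + ∑ y ∈ fs a b x, ‖(y - p)⁻¹‖ * (‖dg a b y‖ ^ 2)⁻¹)) := by
    rw [inv_mul_eq_div, le_div_iff₀ hD]
    exact h2
  have h4 : ‖(tD a b n (gg a b c))⁻¹ / (x - (gg a b)^[n] (gg a b c))‖ =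
      Dn⁻¹ * ‖(x - (gg a b)^[n] (gg a b c))⁻¹‖ := by
    rw [div_eq_mul_inv, norm_mul, norm_inv (tD a b n (gg a b c))]
    rfl
  have h5 : ‖∑ y ∈ fs a b x, An a b (gg a b c) n y / dg a b y ^ 2‖ ≤
      ∑ y ∈ fs a b x, ‖An a b (gg a b c) n y‖ * (‖dg a b y‖ ^ 2)⁻¹ := by
    refine (norm_sum_le _ _).trans (le_of_eq (Finset.sum_congr rfl fun y _ => ?_))
    rw [norm_div, norm_pow, div_eq_mul_inv]
  have h6 : ‖An a b (gg a b c) n x‖ ≤ ‖∑ y ∈ fs a b x, An a b (gg a b c) n y / dg a b y ^ 2‖ +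
      ‖Lam a b η c n‖ + ‖(tD a b n (gg a b c))⁻¹ / (x - (gg a b)^[n] (gg a b c))‖ := by
    rw [h1]
    refine (norm_sub_le _ _).trans ?_
    gcongr
    exact norm_sub_le _ _
  have h7 : ∑ y ∈ fs a b x, (‖An a b (gg a b c) n y‖ + Dn⁻¹ * (C * ∑ p ∈ F, ‖(y - p)⁻¹‖)) *
      (‖dg a b y‖ ^ 2)⁻¹ = ∑ y ∈ fs a b x, ‖An a b (gg a b c) n y‖ * (‖dg a b y‖ ^ 2)⁻¹ +
        Dn⁻¹ * (C * ∑ p ∈ F, ∑ y ∈ fs a b x, ‖(y - p)⁻¹‖ * (‖dg a b y‖ ^ 2)⁻¹) := by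
    simp only [add_mul, Finset.sum_add_distrib]
    congr 1
    rw [Finset.sum_comm, Finset.mul_sum, Finset.mul_sum]
    refine Finset.sum_congr rfl fun y _ => ?_
    rw [← Finset.sum_mul]
    ring
  rw [Finset.sum_add_distrib] at h3
  rw [h7]
  rw [h4] at h6
  have h8 : ‖Lam a b η c n‖ ≤ Dn⁻¹ * (C * ∑ p ∈ F, ‖(x - gg a b p)⁻¹‖) +
      Dn⁻¹ * (C * ∑ p ∈ F, ∑ y ∈ fs a b x, ‖(y - p)⁻¹‖ * (‖dg a b y‖ ^ 2)⁻¹) := by
    refine h3.trans (le_of_eq ?_)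
    ring
  rw [mul_add (Dn⁻¹)]
  linarith

private theorem lint_sum {V : Set ℂ} {F : Finset ℂ} {f : ℂ → ℂ → ENNReal} (hf : ∀ p, Measurable (f p)) :
    ∫⁻ x in V, ∑ p ∈ F, f p x = ∑ p ∈ F, ∫⁻ x in V, f p x :=
  lintegral_finsetSum F fun p _ => hf p

private theorem sumset {W : ℕ → Set ℂ} {V : Set ℂ} (hm : ∀ i, MeasurableSet (W i))
    (hd : Pairwise (fun i j => Disjoint (W i) (W j))) (hV : ∀ i, W i ⊆ V) (f : ℂ → ENNReal) (t : ℕ) :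
    ∑ i ∈ Finset.range t, ∫⁻ x in W i, f x ≤ ∫⁻ x in V, f x := by
  rw [← lintegral_biUnion_finset (fun i _ j _ hij => hd hij) (fun i _ => hm i)]
  exact lintegral_mono_set (iUnion₂_subset fun i _ => hV i)

theorem mas1 (h : NS d D a b J δ0 R0) {c : ℂ} (hc : c ∈ J) (hcr : (ww a b).eval c = 0) (hp : Pas D a b c) :
    ∃ (F : Finset ℂ) (C : ℝ), ∀ n : ℕ, (∀ k ≤ n, 0 < Dk a b (gg a b c) k) → ∀ U : Set ℂ, MeasurableSet U →
      ∫⁻ x in U, ‖An a b (gg a b c) n x‖ₑ ≤ (∫⁻ x in pre a b U, ‖An a b (gg a b c) n x‖ₑ) +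
        Er a b F C (gg a b c) n U (pre a b U) := by
  obtain ⟨F, C, hC, hF⟩ := thb h hp
  refine ⟨F, C, fun n hn U hU => ?_⟩
  have hD := hn n le_rfl
  set v := gg a b c with hv
  set Dn := Dk a b v n with hDn
  set g0 : ℂ → ℝ := fun y => ‖An a b v n y‖ + Dn⁻¹ * (C * ∑ p ∈ F, ‖(y - p)⁻¹‖) with hg0
  set r : ℂ → ℝ := fun x => Dn⁻¹ * (C * ∑ p ∈ F, ‖(x - gg a b p)⁻¹‖ + ‖(x - (gg a b)^[n] v)⁻¹‖) with hr
  have hS0 : ∀ y : ℂ, 0 ≤ ∑ p ∈ F, ‖(y - p)⁻¹‖ := fun y => Finset.sum_nonneg fun _ _ => norm_nonneg _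
  have hS1 : ∀ y : ℂ, 0 ≤ ∑ p ∈ F, ‖(y - gg a b p)⁻¹‖ := fun y => Finset.sum_nonneg fun _ _ => norm_nonneg _
  have hg00 : ∀ y, 0 ≤ g0 y := fun y => by
    have := hS0 y
    rw [hg0]
    positivity
  have hr00 : ∀ x, 0 ≤ r x := fun x => by
    have := hS1 x
    rw [hr]
    positivity
  have hmS : Measurable (fun y : ℂ => ∑ p ∈ F, ‖(y - p)⁻¹‖) :=
    Finset.measurable_sum _ fun p _ => (meas_inv p).norm
  have hmS1 : Measurable (fun y : ℂ => ∑ p ∈ F, ‖(y - gg a b p)⁻¹‖) :=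
    Finset.measurable_sum _ fun p _ => (meas_inv _).norm
  have hmg0 : Measurable g0 := (meas_An a b v n).norm.add ((hmS.const_mul C).const_mul _)
  have hmr : Measurable r := ((hmS1.const_mul C).add (meas_inv _).norm).const_mul _
  have hae : ∀ᵐ x : ℂ, RegV d a b x ∧ (∀ p ∈ F, gg a b p ≠ x) ∧ (∀ k ≤ n, (gg a b)^[k] v ≠ x) := by
    have h1 : ∀ᵐ x : ℂ, RegV d a b x := (reg_finite h.rt).measure_zero volume
    have h2 : ∀ᵐ x : ℂ, x ∉ ((F.image (gg a b) : Finset ℂ) : Set ℂ) :=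
      measure_eq_zero_iff_ae_notMem.1 ((Finset.finite_toSet _).measure_zero volume)
    have h3 : ∀ᵐ x : ℂ, x ∉ (((Finset.range (n + 1)).image fun k => (gg a b)^[k] v : Finset ℂ) : Set ℂ) :=
      measure_eq_zero_iff_ae_notMem.1 ((Finset.finite_toSet _).measure_zero volume)
    filter_upwards [h1, h2, h3] with x hx1 hx2 hx3
    refine ⟨hx1, fun p hp he => hx2 ?_, fun k hk he => hx3 ?_⟩
    · rw [Finset.mem_coe, Finset.mem_image]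
      exact ⟨p, hp, he⟩
    · rw [Finset.mem_coe, Finset.mem_image]
      exact ⟨k, Finset.mem_range.2 (Nat.lt_succ_of_le hk), he⟩
  have hpt : ∀ᵐ x : ℂ, ‖An a b v n x‖ₑ ≤ ∑ y ∈ fs a b x, ENNReal.ofReal (g0 y * (‖dg a b y‖ ^ 2)⁻¹) +
      ENNReal.ofReal (r x) := by
    filter_upwards [hae] with x hx
    have h1 := mas_pt h hc hcr hC hF hn hx.1 hx.2.1 hx.2.2
    rw [← ENNReal.ofReal_sum_of_nonneg (fun y _ => mul_nonneg (hg00 y) (by positivity)),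
      ← ENNReal.ofReal_add (Finset.sum_nonneg fun y _ => mul_nonneg (hg00 y) (by positivity)) (hr00 x),
      ← ofReal_norm_eq_enorm]
    exact ENNReal.ofReal_le_ofReal h1
  have hmw : Measurable (fun y : ℂ => ENNReal.ofReal (g0 y * (‖dg a b y‖ ^ 2)⁻¹)) :=
    (hmg0.mul ((measurable_dg.norm.pow_const 2).inv)).ennreal_ofReal
  have hA1 : ∫⁻ x in U, ‖An a b v n x‖ₑ ≤ (∫⁻ y in pre a b U, ENNReal.ofReal (g0 y)) +
      ∫⁻ x in U, ENNReal.ofReal (r x) := by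
    refine (lintegral_mono_ae (ae_restrict_of_ae hpt)).trans ?_
    rw [lintegral_add_right _ hmr.ennreal_ofReal, area h.rt hU hmw]
    gcongr ?_ + _
    refine le_of_eq (setLIntegral_congr_fun_ae (measurableSet_pre hU) ?_)
    filter_upwards [ae_ww h.rt] with y hy hyp
    have h7 : dg a b y ≠ 0 := div_ne_zero hy (pow_ne_zero 2 hyp.1)
    have h8 : 0 < ‖dg a b y‖ ^ 2 := by positivity
    rw [← ENNReal.ofReal_mul (mul_nonneg (hg00 y) (by positivity)), mul_assoc, inv_mul_cancel₀ h8.ne', mul_one]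
  have hg0e : ∀ y, ENNReal.ofReal (g0 y) = ‖An a b v n y‖ₑ +
      ENNReal.ofReal Dn⁻¹ * (ENNReal.ofReal C * ∑ p ∈ F, ‖(y - p)⁻¹‖ₑ) := by
    intro y
    have := hS0 y
    rw [hg0]
    beta_reduce
    rw [ENNReal.ofReal_add (norm_nonneg _) (by positivity), ENNReal.ofReal_mul (by positivity),
      ENNReal.ofReal_mul hC, ENNReal.ofReal_sum_of_nonneg (fun _ _ => norm_nonneg _), ofReal_norm_eq_enorm]
    simp only [ofReal_norm_eq_enorm]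
  have hre : ∀ x, ENNReal.ofReal (r x) = ENNReal.ofReal Dn⁻¹ * (ENNReal.ofReal C * ∑ p ∈ F, ‖(x - gg a b p)⁻¹‖ₑ +
      ‖(x - (gg a b)^[n] v)⁻¹‖ₑ) := by
    intro x
    have := hS1 x
    rw [hr]
    beta_reduce
    rw [ENNReal.ofReal_mul (by positivity), ENNReal.ofReal_add (by positivity) (norm_nonneg _),
      ENNReal.ofReal_mul hC, ENNReal.ofReal_sum_of_nonneg (fun _ _ => norm_nonneg _), ofReal_norm_eq_enorm]
    simp only [ofReal_norm_eq_enorm]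
  have hme : ∀ p : ℂ, Measurable (fun x : ℂ => ‖(x - p)⁻¹‖ₑ) := fun p => (meas_inv p).enorm
  have hI1 : ∫⁻ y in pre a b U, ENNReal.ofReal (g0 y) = (∫⁻ y in pre a b U, ‖An a b v n y‖ₑ) +
      ENNReal.ofReal Dn⁻¹ * (ENNReal.ofReal C * ∑ p ∈ F, ∫⁻ y in pre a b U, ‖(y - p)⁻¹‖ₑ) := by
    rw [lintegral_congr hg0e, lintegral_add_left (meas_An a b v n).enorm,
      lintegral_const_mul' _ _ ENNReal.ofReal_ne_top, lintegral_const_mul' _ _ ENNReal.ofReal_ne_top,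
      lint_sum (f := fun p y => ‖(y - p)⁻¹‖ₑ) hme]
  have hI2 : ∫⁻ x in U, ENNReal.ofReal (r x) = ENNReal.ofReal Dn⁻¹ * (ENNReal.ofReal C *
      (∑ p ∈ F, ∫⁻ x in U, ‖(x - gg a b p)⁻¹‖ₑ) + ∫⁻ x in U, ‖(x - (gg a b)^[n] v)⁻¹‖ₑ) := by
    rw [lintegral_congr hre, lintegral_const_mul' _ _ ENNReal.ofReal_ne_top, lintegral_add_right _ (hme _),
      lintegral_const_mul' _ _ ENNReal.ofReal_ne_top,
      lint_sum (f := fun p x => ‖(x - gg a b p)⁻¹‖ₑ) fun p => hme _]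
  refine hA1.trans (le_of_eq ?_)
  rw [hI1, hI2]
  unfold Er
  rw [Finset.sum_add_distrib, ← hDn]
  ring

theorem mas (h : NS d D a b J δ0 R0) {c : ℂ} (hc : c ∈ J) (hcr : (ww a b).eval c = 0) (hp : Pas D a b c) :
    ∃ (F : Finset ℂ) (C : ℝ), ∀ n : ℕ, (∀ k ≤ n, 0 < Dk a b (gg a b c) k) → ∀ U V : Set ℂ, MeasurableSet U →
      MeasurableSet V → (∀ i, (pre a b)^[i] U ⊆ V) → Pairwise (fun i j => Disjoint ((pre a b)^[i] U) ((pre a b)^[j] U)) →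
      ∀ t : ℕ, ∫⁻ x in U, ‖An a b (gg a b c) n x‖ₑ ≤ (∫⁻ x in (pre a b)^[t] U, ‖An a b (gg a b c) n x‖ₑ) +
        Er a b F C (gg a b c) n V V := by
  obtain ⟨F, C, hF⟩ := mas1 h hc hcr hp
  refine ⟨F, C, fun n hn U V hU hV hUV hdis t => ?_⟩
  have hm : ∀ i, MeasurableSet ((pre a b)^[i] U) := by
    intro i
    induction i with
    | zero => exact hU
    | succ i ih =>
      rw [Function.iterate_succ_apply']
      exact measurableSet_pre ih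
  have h1 : ∀ t : ℕ, ∫⁻ x in U, ‖An a b (gg a b c) n x‖ₑ ≤ (∫⁻ x in (pre a b)^[t] U, ‖An a b (gg a b c) n x‖ₑ) +
      ∑ i ∈ Finset.range t, Er a b F C (gg a b c) n ((pre a b)^[i] U) ((pre a b)^[i + 1] U) := by
    intro t
    induction t with
    | zero => simp
    | succ t ih =>
      refine ih.trans ?_
      have h2 := hF n hn ((pre a b)^[t] U) (hm t)
      rw [← Function.iterate_succ_apply' (pre a b) t U] at h2
      rw [Finset.sum_range_succ]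
      calc _ ≤ ((∫⁻ x in (pre a b)^[t + 1] U, ‖An a b (gg a b c) n x‖ₑ) +
            Er a b F C (gg a b c) n ((pre a b)^[t] U) ((pre a b)^[t + 1] U)) +
            ∑ i ∈ Finset.range t, Er a b F C (gg a b c) n ((pre a b)^[i] U) ((pre a b)^[i + 1] U) := by
              gcongr
        _ = _ := by ring
  refine (h1 t).trans ?_
  gcongr
  have hs1 : ∀ f : ℂ → ENNReal, ∑ i ∈ Finset.range t, ∫⁻ x in (pre a b)^[i] U, f x ≤ ∫⁻ x in V, f x := fun f =>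
    sumset hm hdis hUV f t
  have hs2 : ∀ f : ℂ → ENNReal, ∑ i ∈ Finset.range t, ∫⁻ x in (pre a b)^[i + 1] U, f x ≤ ∫⁻ x in V, f x := fun f =>
    sumset (W := fun i => (pre a b)^[i + 1] U) (fun i => hm (i + 1))
      (fun i j hij => hdis (fun e => hij (Nat.succ_injective e))) (fun i => hUV (i + 1)) f t
  unfold Er
  rw [← Finset.mul_sum, Finset.sum_add_distrib, ← Finset.mul_sum, Finset.sum_comm]
  gcongr with p hp'
  · rw [Finset.sum_add_distrib]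
    exact add_le_add (hs1 _) (hs2 _)
  · exact hs1 _

end Pool.Agent.H3.NC
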