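import Pool.Agent.H3.NC.BRN

/-!
# Module PRL: orbits near a point of the Julia set

PROOF. `x0 ∈ J`, so the orbit of `x0` has no poles (`Jn`, `itJ`), `gg^[q]` has the strict derivative `tD q x0` at `x0` (`bra_it`, H57/CP/BRA), so `gg^[q]` is continuous at `x0`, and `z ↦ tD q z` is continuous at `x0` (product of `dg a b (gg^[i] z)`, `dg` continuous where `b ≠ 0`, `differentiableAt_dg`).
`rp1`: if `gg^[q] x0 = x0` then `1 < ‖tD q x0‖` (`rep`), and `ε` from the continuity of `tD q`; otherwise `gg^[q] z` stays away from `x0`. `np1`: continuity. `pr1`: if `x0` is not periodic take `κ = 1`. Otherwise `p0` the minimal period (`Function.minimalPeriod`, positive), `μ = tD p0 x0`, `1 < ‖μ‖`; `gg^[q] x0 = x0`, `q ≥ 1`: `q = j p0`, `j ≥ 1`,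
`tD q x0 = μ ^ j` (`tD_add`), so `‖μ‖ ≤ ‖tD q x0‖`; `κ = (‖μ‖ - 1) / 2`; strict derivative: `‖gg^[q] z - x0 - tD q x0 (z - x0)‖ ≤ κ ‖z - x0‖` near `x0`. `geo`: with `c t = if gg^[t] x0 = x0 then (tD t x0)⁻¹ else 0`: `c t = 0` unless `p0 ∣ t` and `c (j p0) = μ⁻¹ ^ j`: summable (injective map `j ↦ j p0`:
`Function.Injective.summable_iff`, `tsum_eq`), `∑' = (1 - μ⁻¹)⁻¹ ≠ 0` (`tsum_geometric_of_norm_lt_one`).
-/

set_option autoImplicit false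

open Filter Topology Polynomial Metric Set MeasureTheory

namespace Pool.Agent.H3.NC

open Pool.Agent.H44.Fatou (rat)
open Pool.Agent.H80.AJ (Br KK)
open Pool.Agent.H61.TT Pool.Agent.H57.CP

variable {d D : ℕ} {a b : Polynomial ℂ} {J : Set ℂ} {δ0 R0 : ℝ}

private theorem prl_b (h : NS d D a b J δ0 R0) {x0 : ℂ} (hx : x0 ∈ J) (i : ℕ) :
    b.eval ((gg a b)^[i] x0) ≠ 0 := h.Jn _ (itJ h hx i)

theorem cont_it (h : NS d D a b J δ0 R0) {x0 : ℂ} (hx : x0 ∈ J) (q : ℕ) :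
    HasStrictDerivAt (gg a b)^[q] (tD a b q x0) x0 ∧ ContinuousAt (fun z => tD a b q z) x0 := by
  refine ⟨bra_it fun i _ => prl_b h hx i, ?_⟩
  unfold tD
  refine tendsto_finset_prod _ fun i _ => ?_
  have h1 : ContinuousAt (gg a b)^[i] x0 :=
    (bra_it (a := a) (n := i) fun j _ => prl_b h hx j).hasDerivAt.continuousAt
  have h2 : ContinuousAt (Pool.Agent.H61.TT.dg a b) ((gg a b)^[i] x0) :=
    (differentiableAt_dg (prl_b h hx i)).continuousAt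
  exact h2.tendsto.comp h1.tendsto

private theorem prl_away (h : NS d D a b J δ0 R0) {x0 : ℂ} (hx : x0 ∈ J) {q : ℕ}
    (hq : (gg a b)^[q] x0 ≠ x0) : ∃ ε : ℝ, 0 < ε ∧
    ∀ z : ℂ, ‖z - x0‖ < ε → ε ≤ ‖(gg a b)^[q] z - x0‖ := by
  have hD : 0 < ‖(gg a b)^[q] x0 - x0‖ := norm_pos_iff.2 (sub_ne_zero.2 hq)
  have hc := (cont_it h hx q).1.hasDerivAt.continuousAt
  obtain ⟨δ, hδ, hδ2⟩ := Metric.continuousAt_iff.1 hc (‖(gg a b)^[q] x0 - x0‖ / 2) (by linarith)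
  refine ⟨min δ (‖(gg a b)^[q] x0 - x0‖ / 2), lt_min hδ (by linarith), fun z hz => ?_⟩
  have h1 := hδ2 (x := z) (by
    rw [dist_eq_norm]
    exact lt_of_lt_of_le hz (min_le_left _ _))
  rw [dist_eq_norm] at h1
  have h2 : ‖(gg a b)^[q] x0 - x0‖ ≤ ‖(gg a b)^[q] z - x0‖ + ‖(gg a b)^[q] z - (gg a b)^[q] x0‖ := by
    have e : (gg a b)^[q] x0 - x0 = ((gg a b)^[q] z - x0) - ((gg a b)^[q] z - (gg a b)^[q] x0) := by ring
    calc ‖(gg a b)^[q] x0 - x0‖ = ‖((gg a b)^[q] z - x0) - ((gg a b)^[q] z - (gg a b)^[q] x0)‖ := by rw [← e]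
      _ ≤ _ := norm_sub_le _ _
  have h3 : min δ (‖(gg a b)^[q] x0 - x0‖ / 2) ≤ ‖(gg a b)^[q] x0 - x0‖ / 2 := min_le_right _ _
  linarith

theorem rp1 (h : NS d D a b J δ0 R0) {x0 : ℂ} (hx : x0 ∈ J) {q : ℕ} (hq : 0 < q) : ∃ ε : ℝ, 0 < ε ∧
    ∀ z : ℂ, ‖z - x0‖ < ε → ‖(gg a b)^[q] z - x0‖ < ε → 1 < ‖tD a b q z‖ := by
  by_cases hp : (gg a b)^[q] x0 = x0
  · have h1 := h.rep x0 hx q hq hp
    have hc : ContinuousAt (fun z => ‖tD a b q z‖) x0 := (cont_it h hx q).2.norm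
    have h2 : ∀ᶠ z in 𝓝 x0, 1 < ‖tD a b q z‖ := hc.eventually (lt_mem_nhds h1)
    obtain ⟨ε, hε, h3⟩ := Metric.eventually_nhds_iff.1 h2
    refine ⟨ε, hε, fun z hz _ => h3 ?_⟩
    rw [dist_eq_norm]
    exact hz
  · obtain ⟨ε, hε, h1⟩ := prl_away h hx hp
    exact ⟨ε, hε, fun z hz hz2 => absurd hz2 (not_lt.2 (h1 z hz))⟩

theorem np1 (h : NS d D a b J δ0 R0) {x0 : ℂ} (hx : x0 ∈ J) {q : ℕ} (hq : (gg a b)^[q] x0 ≠ x0) : ∃ ε : ℝ, 0 < ε ∧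
    ∀ z : ℂ, ‖z - x0‖ < ε → ε ≤ ‖(gg a b)^[q] z - x0‖ := prl_away h hx hq

private theorem prl_per (h : NS d D a b J δ0 R0) {x0 : ℂ} (hx : x0 ∈ J)
    (hp : ∃ p : ℕ, 0 < p ∧ (gg a b)^[p] x0 = x0) :
    ∃ p0 : ℕ, 0 < p0 ∧ 1 < ‖tD a b p0 x0‖ ∧ (∀ j, (gg a b)^[p0 * j] x0 = x0 ∧
      tD a b (p0 * j) x0 = tD a b p0 x0 ^ j) ∧ ∀ t, (gg a b)^[t] x0 = x0 → ∃ j, t = p0 * j := by
  obtain ⟨p, hp0, hp1⟩ := hp
  have hper : x0 ∈ Function.periodicPts (gg a b) := ⟨p, hp0, hp1⟩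
  have h1 := Function.minimalPeriod_pos_of_mem_periodicPts hper
  have h2 : (gg a b)^[Function.minimalPeriod (gg a b) x0] x0 = x0 :=
    Function.iterate_minimalPeriod
  refine ⟨Function.minimalPeriod (gg a b) x0, h1, h.rep x0 hx _ h1 h2, fun j => ?_, fun t ht => ?_⟩
  · induction j with
    | zero => simp [tD]
    | succ j ih =>
      refine ⟨?_, ?_⟩
      · rw [Nat.mul_succ, Function.iterate_add_apply, h2, ih.1]
      · rw [Nat.mul_succ, tD_add, ih.1, ih.2, pow_succ]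
  · have h3 : Function.IsPeriodicPt (gg a b) t x0 := ht
    exact h3.minimalPeriod_dvd

theorem pr1 (h : NS d D a b J δ0 R0) {x0 : ℂ} (hx : x0 ∈ J) : ∃ κ : ℝ, 0 < κ ∧ ∀ q : ℕ, 0 < q → (gg a b)^[q] x0 = x0 →
    ∃ ε : ℝ, 0 < ε ∧ ∀ z : ℂ, ‖z - x0‖ < ε → (1 + κ) * ‖z - x0‖ ≤ ‖(gg a b)^[q] z - x0‖ := by
  by_cases hp : ∃ p : ℕ, 0 < p ∧ (gg a b)^[p] x0 = x0
  · obtain ⟨p0, hp0, hμ, hj, ht⟩ := prl_per h hx hp
    set μ := tD a b p0 x0 with hμdef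
    refine ⟨(‖μ‖ - 1) / 2, by linarith, fun q hq hq2 => ?_⟩
    obtain ⟨j, rfl⟩ := ht q hq2
    have hj1 : 1 ≤ j := by
      rcases Nat.eq_zero_or_pos j with h0 | h0
      · subst h0
        simp at hq
      · exact h0
    have h1 : ‖μ‖ ≤ ‖tD a b (p0 * j) x0‖ := by
      rw [(hj j).2, norm_pow]
      exact le_self_pow₀ hμ.le (by omega)
    have h2 := (cont_it h hx (p0 * j)).1.hasDerivAt
    rw [hasDerivAt_iff_isLittleO] at h2
    have h3 := h2.def (c := (‖μ‖ - 1) / 2) (by linarith)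
    obtain ⟨ε, hε, h4⟩ := Metric.eventually_nhds_iff.1 h3
    refine ⟨ε, hε, fun z hz => ?_⟩
    have h5 := h4 (y := z) (by rw [dist_eq_norm]; exact hz)
    rw [hq2, smul_eq_mul] at h5
    have h6 : ‖(z - x0) * tD a b (p0 * j) x0‖ ≤ ‖(gg a b)^[p0 * j] z - x0‖ +
        ‖(gg a b)^[p0 * j] z - x0 - (z - x0) * tD a b (p0 * j) x0‖ := by
      have e : (z - x0) * tD a b (p0 * j) x0 = ((gg a b)^[p0 * j] z - x0) -
        ((gg a b)^[p0 * j] z - x0 - (z - x0) * tD a b (p0 * j) x0) := by ring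
      calc ‖(z - x0) * tD a b (p0 * j) x0‖ = ‖((gg a b)^[p0 * j] z - x0) -
        ((gg a b)^[p0 * j] z - x0 - (z - x0) * tD a b (p0 * j) x0)‖ := by rw [← e]
        _ ≤ _ := norm_sub_le _ _
    rw [norm_mul] at h6
    have h7 : ‖z - x0‖ * ‖μ‖ ≤ ‖z - x0‖ * ‖tD a b (p0 * j) x0‖ :=
      mul_le_mul_of_nonneg_left h1 (norm_nonneg _)
    nlinarith
  · exact ⟨1, one_pos, fun q hq hq2 => absurd ⟨q, hq, hq2⟩ hp⟩

open Classical in
theorem geo (h : NS d D a b J δ0 R0) {x0 : ℂ} (hx : x0 ∈ J) (hp : ∃ p : ℕ, 0 < p ∧ (gg a b)^[p] x0 = x0) :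
    (Summable fun t : ℕ => ‖if (gg a b)^[t] x0 = x0 then (tD a b t x0)⁻¹ else 0‖) ∧
      ∑' t : ℕ, (if (gg a b)^[t] x0 = x0 then (tD a b t x0)⁻¹ else 0) ≠ 0 := by
  obtain ⟨p0, hp0, hμ, hj, ht⟩ := prl_per h hx hp
  set μ := tD a b p0 x0 with hμdef
  have hinj : Function.Injective fun j : ℕ => p0 * j := fun i j hij => Nat.eq_of_mul_eq_mul_left hp0 hij
  have hout : ∀ t, t ∉ Set.range (fun j : ℕ => p0 * j) → ¬ (gg a b)^[t] x0 = x0 := by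
    intro t ht2 ht3
    obtain ⟨j, hj⟩ := ht t ht3
    exact ht2 ⟨j, hj.symm⟩
  have hμ1 : ‖μ⁻¹‖ < 1 := by
    rw [norm_inv]
    exact inv_lt_one_of_one_lt₀ hμ
  constructor
  · rw [← hinj.summable_iff]
    · have e : ((fun t : ℕ => ‖if (gg a b)^[t] x0 = x0 then (tD a b t x0)⁻¹ else 0‖) ∘ fun j : ℕ => p0 * j) =
          fun j => ‖μ⁻¹‖ ^ j := by
        funext j
        rw [Function.comp_apply, if_pos (hj j).1, (hj j).2, ← inv_pow, norm_pow]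
      rw [e]
      exact summable_geometric_of_lt_one (norm_nonneg _) hμ1
    · intro t ht2
      rw [if_neg (hout t ht2), norm_zero]
  · have e : ∑' t : ℕ, (if (gg a b)^[t] x0 = x0 then (tD a b t x0)⁻¹ else 0) = ∑' j : ℕ, μ⁻¹ ^ j := by
      rw [← hinj.tsum_eq]
      · refine tsum_congr fun j => ?_
        rw [if_pos (hj j).1, (hj j).2, ← inv_pow]
      · intro t ht2
        by_contra hc
        exact ht2 (if_neg (hout t hc))
    rw [e, tsum_geometric_of_norm_lt_one hμ1]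
    refine inv_ne_zero (sub_ne_zero.2 fun h1 => ?_)
    rw [← h1, norm_one] at hμ1
    exact lt_irrefl _ hμ1

end Pool.Agent.H3.NC
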