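import Pool.Agent.H3.NC.BRN

/-!
# Module TPU: the push forward of `A_n`, and the bound for the error

`η` is the polynomial of `x` (`lg`). PROOF of `tpu`. `P k = gg^[k] v`, `v = gg c`. `hη` at `z = c` (`dg c = 0`): `η(c) / b(c) ^ 2 = - 1 / (x - v)`. At `z = P k`, `k < n`: `∑_(y ∈ fs x) 1 / ((y - P k) dg y ^ 2) = (dg (P k))⁻¹ (1 / (x - P (k + 1)) + η(P k) / b(P k) ^ 2)`, so
`∑_y An y / dg y ^ 2 = ∑_(k < n) (tD k v)⁻¹ (dg (P k))⁻¹ (..) = ∑_(k=1..n) (tD k v)⁻¹ (1 / (x - P k) + η(P (k - 1)) / b ^ 2)` (`tD (k + 1) v = tD k v * dg (P k)`) `= An x - 1 / (x - v) + (tD n v)⁻¹ / (x - P n) + Lam η c n - η(c) / b(c) ^ 2`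
(`Finset.sum_range_succ'`, `P (k - 1) = gg^[k] c` for `k ≥ 1`) `= An x + (tD n v)⁻¹ / (x - P n) + Lam η c n`.
PROOF of `thb`. `F` a set of `D + 1` points `p` with `b.eval p ≠ 0` (infinitely many available). `Lagrange.interpolate` on `F` (`id`): `η = ∑_(p ∈ F) η(p) L p`, `L p = Lagrange.basis F id p` of degree at most `D` (`η.natDegree ≤ D < card F`: `Lagrange.eq_interpolate`), `Lam` is linear in `η`, so `Lam η c n = ∑_p η(p) Lam (L p) c n`, and `‖Lam (L p) c n‖ Dk n ≤ C p` (`hp`).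
`η(p) = b(p) ^ 2 (∑_(y ∈ fs x) dg p / ((y - p) dg y ^ 2) - 1 / (x - gg p))` by `hη` at `z = p`. `C = ∑_p |C p| ‖b(p)‖ ^ 2 (1 + ‖dg p‖)` (or the maximum).
-/

set_option autoImplicit false

open Filter Topology Polynomial Metric Set MeasureTheory

namespace Pool.Agent.H3.NC

open Pool.Agent.H44.Fatou (rat)
open Pool.Agent.H80.AJ (Br KK)
open Pool.Agent.H61.TT Pool.Agent.H57.CP

variable {d D : ℕ} {a b : Polynomial ℂ} {J : Set ℂ} {δ0 R0 : ℝ}

private theorem tpu_succ (k : ℕ) (z : ℂ) :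
    tD a b (k + 1) z = tD a b k z * dg a b ((gg a b)^[k] z) := by
  unfold tD
  rw [Finset.prod_range_succ]

theorem tpu (h : NS d D a b J δ0 R0) {c : ℂ} (hc : c ∈ J) (hcr : (ww a b).eval c = 0) {n : ℕ}
    (hn : ∀ k ≤ n, tD a b k (gg a b c) ≠ 0) {x : ℂ} (hx : ∀ k ≤ n, (gg a b)^[k] (gg a b c) ≠ x) {η : Polynomial ℂ}
    (hη : ∀ z : ℂ, b.eval z ≠ 0 → gg a b z ≠ x →
      ∑ y ∈ fs a b x, dg a b z / ((y - z) * dg a b y ^ 2) = 1 / (x - gg a b z) + η.eval z / b.eval z ^ 2) :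
    An a b (gg a b c) n x = ∑ y ∈ fs a b x, An a b (gg a b c) n y / dg a b y ^ 2 - Lam a b η c n -
      (tD a b n (gg a b c))⁻¹ / (x - (gg a b)^[n] (gg a b c)) := by
  set v : ℂ := gg a b c with hv
  have hvJ : v ∈ J := h.Ji c hc
  have hPJ : ∀ k, (gg a b)^[k] v ∈ J := fun k => itJ h hvJ k
  have hc0 : 1 / (x - v) + η.eval c / b.eval c ^ 2 = 0 := by
    have h1 := hη c (h.Jn c hc) (hx 0 (Nat.zero_le _))
    have h2 : dg a b c = 0 := by
      unfold dg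
      rw [hcr, zero_div]
    rw [h2] at h1
    rw [← h1]
    simp
  have hstep : ∀ k, k < n → (tD a b k v)⁻¹ * ∑ y ∈ fs a b x, 1 / ((y - (gg a b)^[k] v) * dg a b y ^ 2) =
      (tD a b (k + 1) v)⁻¹ / (x - (gg a b)^[k + 1] v) +
        η.eval ((gg a b)^[k] v) / b.eval ((gg a b)^[k] v) ^ 2 / tD a b (k + 1) v := by
    intro k hk
    have h1 := hη ((gg a b)^[k] v) (h.Jn _ (hPJ k)) (by
      have := hx (k + 1) hk
      rwa [Function.iterate_succ_apply'] at this)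
    have h2 : ∑ y ∈ fs a b x, dg a b ((gg a b)^[k] v) / ((y - (gg a b)^[k] v) * dg a b y ^ 2) =
        dg a b ((gg a b)^[k] v) * ∑ y ∈ fs a b x, 1 / ((y - (gg a b)^[k] v) * dg a b y ^ 2) := by
      rw [Finset.mul_sum]
      refine Finset.sum_congr rfl fun y _ => ?_
      rw [mul_one_div]
    rw [h2] at h1
    have h3 := hn (k + 1) hk
    rw [tpu_succ] at h3
    have h4 : tD a b k v ≠ 0 := left_ne_zero_of_mul h3
    have h5 : dg a b ((gg a b)^[k] v) ≠ 0 := right_ne_zero_of_mul h3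
    rw [tpu_succ, Function.iterate_succ_apply']
    have h6 : ∑ y ∈ fs a b x, 1 / ((y - (gg a b)^[k] v) * dg a b y ^ 2) =
        (dg a b ((gg a b)^[k] v))⁻¹ * (1 / (x - gg a b ((gg a b)^[k] v)) +
          η.eval ((gg a b)^[k] v) / b.eval ((gg a b)^[k] v) ^ 2) := by
      rw [← h1, inv_mul_cancel_left₀ h5]
    rw [h6, mul_inv, one_div]
    ring
  have hsum : ∑ y ∈ fs a b x, An a b v n y / dg a b y ^ 2 =
      ∑ k ∈ Finset.range n, ((tD a b (k + 1) v)⁻¹ / (x - (gg a b)^[k + 1] v) +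
        η.eval ((gg a b)^[k] v) / b.eval ((gg a b)^[k] v) ^ 2 / tD a b (k + 1) v) := by
    have h1 : ∀ y ∈ fs a b x, An a b v n y / dg a b y ^ 2 =
        ∑ k ∈ Finset.range n, (tD a b k v)⁻¹ * (1 / ((y - (gg a b)^[k] v) * dg a b y ^ 2)) := by
      intro y _
      unfold An
      rw [Finset.sum_div]
      refine Finset.sum_congr rfl fun k _ => ?_
      rw [div_div, mul_one_div]
    rw [Finset.sum_congr rfl h1, Finset.sum_comm]
    refine Finset.sum_congr rfl fun k hk => ?_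
    rw [← Finset.mul_sum]
    exact hstep k (Finset.mem_range.1 hk)
  have hLam : Lam a b η c n = ∑ k ∈ Finset.range n,
      η.eval ((gg a b)^[k] v) / b.eval ((gg a b)^[k] v) ^ 2 / tD a b (k + 1) v +
        η.eval c / b.eval c ^ 2 := by
    unfold Lam
    rw [Finset.sum_range_succ']
    congr 1
    change η.eval c / b.eval c ^ 2 / tD a b 0 v = _
    unfold tD
    rw [Finset.prod_range_zero, div_one]
  have hAn : An a b v n x + (tD a b n v)⁻¹ / (x - (gg a b)^[n] v) =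
      ∑ k ∈ Finset.range n, (tD a b (k + 1) v)⁻¹ / (x - (gg a b)^[k + 1] v) + 1 / (x - v) := by
    unfold An
    rw [← Finset.sum_range_succ (fun k => (tD a b k v)⁻¹ / (x - (gg a b)^[k] v)) n,
      Finset.sum_range_succ']
    congr 1
    change (tD a b 0 v)⁻¹ / (x - v) = _
    unfold tD
    rw [Finset.prod_range_zero, inv_one]
  rw [hsum, Finset.sum_add_distrib, hLam]
  linear_combination hAn + hc0

private theorem tpu_b (h : RatD d a b) : b ≠ 0 := by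
  rintro rfl
  have h1 := isCoprime_zero_right.1 h.cop
  have h2 := natDegree_eq_zero_of_isUnit h1
  have h3 := h.deg
  have h4 := h.hd
  rw [h2, natDegree_zero] at h3
  simp at h3
  omega

theorem thb (h : NS d D a b J δ0 R0) {c : ℂ} (hp : Pas D a b c) : ∃ (F : Finset ℂ) (C : ℝ), 0 ≤ C ∧
    ∀ (n : ℕ) (x : ℂ), (∀ p ∈ F, gg a b p ≠ x) → ∀ η : Polynomial ℂ, η.natDegree ≤ D →
      (∀ z : ℂ, b.eval z ≠ 0 → gg a b z ≠ x →
        ∑ y ∈ fs a b x, dg a b z / ((y - z) * dg a b y ^ 2) = 1 / (x - gg a b z) + η.eval z / b.eval z ^ 2) →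
      ‖Lam a b η c n‖ * Dk a b (gg a b c) n ≤
        C * ∑ p ∈ F, (‖(x - gg a b p)⁻¹‖ + ∑ y ∈ fs a b x, ‖(y - p)⁻¹‖ * (‖dg a b y‖ ^ 2)⁻¹) := by
  have hb : b ≠ 0 := tpu_b h.rt
  obtain ⟨F, hF, hFc⟩ := (b.roots.toFinset.finite_toSet).infinite_compl.exists_subset_card_eq (D + 1)
  have hFb : ∀ p ∈ F, b.eval p ≠ 0 := by
    intro p hp1 hp2
    refine hF hp1 ?_
    rw [Finset.mem_coe, Multiset.mem_toFinset, mem_roots hb]
    exact hp2
  have hinj : Set.InjOn (id : ℂ → ℂ) (F : Set ℂ) := Function.injective_id.injOn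
  have hLd : ∀ p ∈ F, (Lagrange.basis F id p).natDegree ≤ D := by
    intro p hp1
    rw [natDegree_le_iff_degree_le, Lagrange.degree_basis hinj hp1, hFc]
    simp
  have hex : ∀ p : ℂ, ∃ C : ℝ, p ∈ F → ∀ n : ℕ,
      ‖Lam a b (Lagrange.basis F id p) c n‖ * ‖tD a b n (gg a b c)‖ ≤ C := by
    intro p
    by_cases hp1 : p ∈ F
    · obtain ⟨C, hC⟩ := hp _ (hLd p hp1)
      exact ⟨C, fun _ => hC⟩
    · exact ⟨0, fun h' => absurd h' hp1⟩
  choose Cp hCp using hex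
  refine ⟨F, ∑ p ∈ F, |Cp p| * ‖b.eval p‖ ^ 2 * (1 + ‖dg a b p‖), Finset.sum_nonneg fun p _ => by positivity,
    fun n x hx η hη hid => ?_⟩
  have hev : ∀ z : ℂ, η.eval z = ∑ p ∈ F, η.eval p * (Lagrange.basis F id p).eval z := by
    intro z
    have h1 : η.degree < (F.card : WithBot ℕ) := by
      rw [hFc]
      refine lt_of_le_of_lt degree_le_natDegree ?_
      exact_mod_cast Nat.lt_succ_of_le hη
    have h2 := Lagrange.eq_interpolate (v := id) hinj h1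
    rw [Lagrange.interpolate_apply] at h2
    conv_lhs => rw [h2]
    rw [eval_finsetSum]
    refine Finset.sum_congr rfl fun p _ => ?_
    rw [eval_mul, eval_C]
    rfl
  have hLam : Lam a b η c n = ∑ p ∈ F, η.eval p * Lam a b (Lagrange.basis F id p) c n := by
    unfold Lam
    simp only [Finset.mul_sum]
    rw [Finset.sum_comm]
    refine Finset.sum_congr rfl fun k _ => ?_
    rw [hev, Finset.sum_div, Finset.sum_div]
    refine Finset.sum_congr rfl fun p _ => ?_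
    ring
  set W : ℂ → ℝ := fun p => ‖(x - gg a b p)⁻¹‖ + ∑ y ∈ fs a b x, ‖(y - p)⁻¹‖ * (‖dg a b y‖ ^ 2)⁻¹ with hW
  have hW0 : ∀ p, 0 ≤ W p := by
    intro p
    refine add_nonneg (norm_nonneg _) (Finset.sum_nonneg fun y _ => by positivity)
  have hηp : ∀ p ∈ F, ‖η.eval p‖ ≤ ‖b.eval p‖ ^ 2 * (1 + ‖dg a b p‖) * W p := by
    intro p hp1
    have h1 := hid p (hFb p hp1) (hx p hp1)
    have h2 : η.eval p = b.eval p ^ 2 * (∑ y ∈ fs a b x, dg a b p / ((y - p) * dg a b y ^ 2) -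
        1 / (x - gg a b p)) := by
      rw [h1]
      have := hFb p hp1
      field_simp
      ring
    have h3 : ‖∑ y ∈ fs a b x, dg a b p / ((y - p) * dg a b y ^ 2)‖ ≤
        ‖dg a b p‖ * ∑ y ∈ fs a b x, ‖(y - p)⁻¹‖ * (‖dg a b y‖ ^ 2)⁻¹ := by
      refine (norm_sum_le _ _).trans (le_of_eq ?_)
      rw [Finset.mul_sum]
      refine Finset.sum_congr rfl fun y _ => ?_
      rw [norm_div, norm_mul, norm_pow, norm_inv, div_eq_mul_inv, mul_inv]
    have h4 : ‖(1 : ℂ) / (x - gg a b p)‖ = ‖(x - gg a b p)⁻¹‖ := by rw [one_div]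
    rw [h2, norm_mul, norm_pow, mul_assoc]
    refine mul_le_mul_of_nonneg_left ?_ (by positivity)
    refine (norm_sub_le _ _).trans ?_
    rw [h4]
    have h5 : 0 ≤ ∑ y ∈ fs a b x, ‖(y - p)⁻¹‖ * (‖dg a b y‖ ^ 2)⁻¹ :=
      Finset.sum_nonneg fun y _ => by positivity
    have h6 : 0 ≤ ‖(x - gg a b p)⁻¹‖ := norm_nonneg _
    have h7 : 0 ≤ ‖dg a b p‖ := norm_nonneg _
    have h8 : W p = ‖(x - gg a b p)⁻¹‖ + ∑ y ∈ fs a b x, ‖(y - p)⁻¹‖ * (‖dg a b y‖ ^ 2)⁻¹ := rfl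
    rw [h8]
    nlinarith [mul_nonneg h7 h6]
  have hterm : ∀ p ∈ F, ‖η.eval p * Lam a b (Lagrange.basis F id p) c n‖ * Dk a b (gg a b c) n ≤
      |Cp p| * ‖b.eval p‖ ^ 2 * (1 + ‖dg a b p‖) * W p := by
    intro p hp1
    have h1 := hCp p hp1 n
    have h2 := hηp p hp1
    have h3 : ‖Lam a b (Lagrange.basis F id p) c n‖ * Dk a b (gg a b c) n ≤ |Cp p| :=
      h1.trans (le_abs_self _)
    rw [norm_mul, mul_assoc]
    calc ‖η.eval p‖ * (‖Lam a b (Lagrange.basis F id p) c n‖ * Dk a b (gg a b c) n)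
        ≤ (‖b.eval p‖ ^ 2 * (1 + ‖dg a b p‖) * W p) * |Cp p| := by
          refine mul_le_mul h2 h3 (mul_nonneg (norm_nonneg _) (norm_nonneg _)) ?_
          have := hW0 p
          positivity
      _ = _ := by ring
  have hDk : 0 ≤ Dk a b (gg a b c) n := norm_nonneg _
  calc ‖Lam a b η c n‖ * Dk a b (gg a b c) n
      ≤ (∑ p ∈ F, ‖η.eval p * Lam a b (Lagrange.basis F id p) c n‖) * Dk a b (gg a b c) n := by
        refine mul_le_mul_of_nonneg_right ?_ hDk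
        rw [hLam]
        exact norm_sum_le _ _
    _ = ∑ p ∈ F, ‖η.eval p * Lam a b (Lagrange.basis F id p) c n‖ * Dk a b (gg a b c) n := by
        rw [Finset.sum_mul]
    _ ≤ ∑ p ∈ F, |Cp p| * ‖b.eval p‖ ^ 2 * (1 + ‖dg a b p‖) * W p := Finset.sum_le_sum hterm
    _ ≤ ∑ p ∈ F, (∑ p ∈ F, |Cp p| * ‖b.eval p‖ ^ 2 * (1 + ‖dg a b p‖)) * W p := by
        refine Finset.sum_le_sum fun p hp1 => mul_le_mul_of_nonneg_right ?_ (hW0 p)
        exact Finset.single_le_sum (f := fun p => |Cp p| * ‖b.eval p‖ ^ 2 * (1 + ‖dg a b p‖))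
          (fun q _ => by positivity) hp1
    _ = _ := by rw [Finset.mul_sum]

end Pool.Agent.H3.NC
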